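import Pool.Agent.Work.MP_e487d8_al.Rmat.RH
import Pool.Agent.Work.MP_e487d8_al.Fin.Mir

/-! MP_e487d8_al, RMAT block: the contract `RFacts`. -/

set_option autoImplicit false

namespace Pool.Agent.KLR

variable {K I : Type} [Field K] [Fintype I] [DecidableEq I] {D : Datum K I}

namespace SMod

/-- the order of the R-matrix `X ∘ C_z → C_z ∘ X` -/
noncomputable def sOrd' (C X : SMod D) : ℕ := sOrd C.mir X.mir

theorem comm_symm (hb : S_basis D) {C X : SMod D} (h : C.Comm X) : X.Comm C := by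
  obtain ⟨r, _, hr⟩ := sOrd_spec hb C X
  have h1 : IsSimpleModule (KLRAlg D) (C.conv X) := h
  exact simple_of_equiv (LinearEquiv.ofBijective r (equiv_of_comm hb h hr)) h1

theorem order_sum' (hb : S_basis D) (C X : SMod D) :
    sOrd C X + sOrd' C X ≤ SMod.dd C X ∧ (C.Comm X → sOrd C X + sOrd' C X = SMod.dd C X) := by
  obtain ⟨r₁, hr₁, h1⟩ := sOrd_spec hb C.mir X.mir
  exact order_sum hb C X (sOrd_spec hb C X) r₁ hr₁ h1

theorem rf_hd' (hb : S_basis D) (C X : SMod D) (hC : C.Real) :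
    ∃ (H : SMod D) (f : X.conv C →ₗ[KLRAlg D] H.M),
    Function.Surjective f ∧ sOrd' C H = sOrd' C C + sOrd' C X ∧
    ∀ Z : SMod D, SubQ D Z.M (LinearMap.ker f) → sOrd' C C + sOrd' C X < sOrd' C Z := by
  obtain ⟨H, f, hf, h1, h2⟩ := rf_hd hb C.mir X.mir (real_mir hC)
  obtain ⟨g, hg, h3⟩ := exists_mir_hom (X := X) (Y := C) (H := H) f hf
  refine ⟨H.mir, g, hg, ?_, fun Z hZ => h2 Z.mir (h3 Z hZ)⟩
  have h4 : sOrd C.mir H = sOrd C.mir H.mir.mir := sOrd_iso hb C.mir H.mir_mir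
  exact h4.symm.trans h1

end SMod

/-- the contract of the RMAT block -/
theorem rFacts (hb : S_basis D) : RFacts D (sOrd (D := D)) SMod.sOrd' where
  le C X _ := (SMod.order_sum' hb C X).1
  comm C X _ h := (SMod.order_sum' hb C X).2 h
  sub C X Y Z _ h := SMod.sOrd_sub hb C X Y Z h
  sub' C X Y Z _ h := by
    rw [Nat.add_comm]
    exact SMod.sOrd_sub hb C.mir Y.mir X.mir Z.mir (SMod.subQ_conv_mir h)
  eq C X Y Z _ h := h.elim fun f => SMod.sOrd_conv hb C X Y Z f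
  eq' C X Y Z _ h := by
    rw [Nat.add_comm (SMod.sOrd' C X)]
    exact (SMod.iso_conv_mir h).elim fun f => SMod.sOrd_conv hb C.mir Y.mir X.mir Z.mir f
  hd := SMod.rf_hd hb
  hd' := SMod.rf_hd' hb
  hd_iso := SMod.rf_hd_iso hb
  hd_iso' C X Z Z' hC h h' := SMod.iso_mir_iff.1
    (SMod.rf_hd_iso hb C.mir X.mir Z.mir Z'.mir (SMod.real_mir hC) (SMod.quo_conv_mir h)
      (SMod.quo_conv_mir h'))
  simple := SMod.rf_simple hb
  inj := SMod.rf_inj hb
  inj' C X Y H hC h h' := SMod.iso_mir_iff.1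
    (SMod.rf_inj hb C.mir X.mir Y.mir H.mir (SMod.real_mir hC) (SMod.quo_conv_mir h)
      (SMod.quo_conv_mir h'))
  real C M H _ hM h hc := SMod.real_mir_iff.1
    (SMod.rf_real' hb C.mir M.mir H.mir (SMod.real_mir hM) (SMod.quo_conv_mir h)
      (SMod.comm_symm hb (SMod.comm_mir hc)))
  real' C M H _ hM h hc := SMod.rf_real' hb C M H hM h hc
  one := SMod.rf_one hb

/-- the degree of `r_(C,C)` is `0`, both R-matrices -/
theorem SMod.two_sOrd'_self (hself : ∀ C : SMod D, C.Real → 2 * sOrd C C = SMod.dd C C)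
    (C : SMod D) (hC : C.Real) : 2 * SMod.sOrd' C C = SMod.dd C C := by
  rw [← SMod.dd_mir]
  exact hself C.mir (SMod.real_mir hC)

end Pool.Agent.KLR
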