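import Pool.Agent.Work.MP_e487d8_al.Rmat.LG
import Pool.Agent.Work.MP_e487d8_al.Rmat.Facts

/-! MP_e487d8_al, RMAT block: the contract `LFacts`. -/

set_option autoImplicit false

namespace Pool.Agent.KLR

variable {K I : Type} [Field K] [Fintype I] [DecidableEq I] {D : Datum K I}

/-- the contract `LFacts` -/
theorem lFacts (hb : S_basis D) : LFacts D (sOrd (D := D)) SMod.sOrd' where
  eps := sOrd_eps hb
  eps' i C X a μ hCi h1 h2 := by
    rw [← X.wt_mir i]
    refine sOrd_eps hb i C.mir X.mir a μ.reverse ?_ ?_ fun ν => ?_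
    · rwa [SMod.ch_mir, List.reverse_singleton]
    · rwa [SMod.ch_mir, List.reverse_append, List.reverse_replicate, List.reverse_reverse]
    · rw [SMod.ch_mir, List.reverse_append, List.reverse_replicate]
      exact h2 _

end Pool.Agent.KLR
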