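import Mathlib

/-! MP_e487d8_al, RMAT block: leading terms of maps of modules with an injective endomorphism
(pure algebra). -/

set_option autoImplicit false

namespace Pool.Agent.KLR

variable {R : Type*} [Ring R]

/-- `p : A → A₀` is the reduction of `A` modulo the injective endomorphism `F` -/
structure Red {A A₀ : Type*} [AddCommGroup A] [Module R A] [AddCommGroup A₀] [Module R A₀]
    (F : A →ₗ[R] A) (p : A →ₗ[R] A₀) : Prop where
  inj : Function.Injective F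
  surj : Function.Surjective p
  ker : LinearMap.ker p = LinearMap.range F

/-- `r` is the leading term (of order `s`) of `T` -/
def Ld {A A₀ B B₀ : Type*} [AddCommGroup A] [Module R A] [AddCommGroup A₀] [Module R A₀]
    [AddCommGroup B] [Module R B] [AddCommGroup B₀] [Module R B₀]
    (p : A →ₗ[R] A₀) (G : B →ₗ[R] B) (q : B →ₗ[R] B₀) (T : A →ₗ[R] B) (s : ℕ)
    (r : A₀ →ₗ[R] B₀) : Prop :=
  ∃ T' : A →ₗ[R] B, T = (G ^ s) ∘ₗ T' ∧ q ∘ₗ T' = r ∘ₗ p

section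

variable {A A₀ B B₀ E E₀ : Type*} [AddCommGroup A] [Module R A] [AddCommGroup A₀] [Module R A₀]
  [AddCommGroup B] [Module R B] [AddCommGroup B₀] [Module R B₀]
  [AddCommGroup E] [Module R E] [AddCommGroup E₀] [Module R E₀]
  {F : A →ₗ[R] A} {p : A →ₗ[R] A₀} {G : B →ₗ[R] B} {q : B →ₗ[R] B₀} {H : E →ₗ[R] E}
  {o : E →ₗ[R] E₀}

namespace Red

theorem apply_eq (h : Red F p) (a : A) : p (F a) = 0 := by
  have h1 : F a ∈ LinearMap.ker p := by
    rw [h.ker]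
    exact ⟨a, rfl⟩
  exact h1

theorem comp_eq (h : Red F p) : p ∘ₗ F = 0 := by
  ext a
  exact h.apply_eq a

theorem pow_inj (h : Red F p) (s : ℕ) : Function.Injective (F ^ s) := by
  rw [Module.End.coe_pow]
  exact h.inj.iterate s

theorem cancel {A' : Type*} [AddCommGroup A'] [Module R A'] (h : Red F p) {s : ℕ}
    {S T : A' →ₗ[R] A} (hST : (F ^ s) ∘ₗ S = (F ^ s) ∘ₗ T) : S = T := by
  ext a
  exact h.pow_inj s (LinearMap.congr_fun hST a)

theorem cancel_right {A' : Type*} [AddCommGroup A'] [Module R A'] (h : Red F p)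
    {S T : A₀ →ₗ[R] A'} (hST : S ∘ₗ p = T ∘ₗ p) : S = T := by
  ext a
  obtain ⟨a, rfl⟩ := h.surj a
  exact LinearMap.congr_fun hST a

/-- a map which is zero after reduction is divisible -/
theorem div {A' : Type*} [AddCommGroup A'] [Module R A'] (h : Red F p) {T : A' →ₗ[R] A}
    (hT : p ∘ₗ T = 0) : ∃ T' : A' →ₗ[R] A, T = F ∘ₗ T' := by
  have h1 : ∀ a, T a ∈ LinearMap.range F := by
    intro a
    rw [← h.ker]
    exact LinearMap.congr_fun hT a
  refine ⟨(LinearEquiv.ofInjective F h.inj).symm.toLinearMap ∘ₗ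
    LinearMap.codRestrict (LinearMap.range F) T h1, ?_⟩
  ext a
  have h2 := (LinearEquiv.ofInjective F h.inj).apply_symm_apply
    (LinearMap.codRestrict (LinearMap.range F) T h1 a)
  have h3 := congrArg Subtype.val h2
  rw [LinearEquiv.ofInjective_apply] at h3
  exact h3.symm

/-- descent to the reduction -/
theorem desc {A' : Type*} [AddCommGroup A'] [Module R A'] (h : Red F p) {T : A →ₗ[R] A'}
    (hT : T ∘ₗ F = 0) : ∃ r : A₀ →ₗ[R] A', T = r ∘ₗ p := by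
  have h1 : LinearMap.ker p ≤ LinearMap.ker T := by
    rw [h.ker]
    rintro _ ⟨a, rfl⟩
    exact LinearMap.congr_fun hT a
  refine ⟨(Submodule.liftQ _ T h1) ∘ₗ (p.quotKerEquivOfSurjective h.surj).symm.toLinearMap, ?_⟩
  ext a
  have h2 : (p.quotKerEquivOfSurjective h.surj).symm (p a) = Submodule.Quotient.mk a := by
    rw [LinearEquiv.symm_apply_eq]
    rfl
  simp only [LinearMap.comp_apply, LinearEquiv.coe_coe, h2]
  rfl

end Red

namespace Ld

theorem comm_pow {T : A →ₗ[R] B} (h : T ∘ₗ F = G ∘ₗ T) (s : ℕ) : T ∘ₗ (F ^ s) = (G ^ s) ∘ₗ T := by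
  induction s with
  | zero => rfl
  | succ s ih =>
    rw [pow_succ, pow_succ, Module.End.mul_eq_comp, Module.End.mul_eq_comp, ← LinearMap.comp_assoc,
      ih, LinearMap.comp_assoc, h, LinearMap.comp_assoc]

/-- the quotient commutes with the endomorphisms -/
theorem quot_comm (hB : Red G q) {T T' : A →ₗ[R] B} {s : ℕ} (hT : T = (G ^ s) ∘ₗ T')
    (h : T ∘ₗ F = G ∘ₗ T) : T' ∘ₗ F = G ∘ₗ T' := by
  apply hB.cancel (s := s)
  rw [← LinearMap.comp_assoc, ← hT, h, hT, ← LinearMap.comp_assoc, ← LinearMap.comp_assoc]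
  congr 1
  rw [← Module.End.mul_eq_comp, ← Module.End.mul_eq_comp, ← pow_succ', ← pow_succ]

theorem of_div (hA : Red F p) (hB : Red G q) {T T' : A →ₗ[R] B} {s : ℕ}
    (hT : T = (G ^ s) ∘ₗ T') (h : T ∘ₗ F = G ∘ₗ T) : ∃ r, Ld p G q T s r := by
  have h1 : (q ∘ₗ T') ∘ₗ F = 0 := by
    rw [LinearMap.comp_assoc, quot_comm hB hT h, ← LinearMap.comp_assoc, hB.comp_eq,
      LinearMap.zero_comp]
  obtain ⟨r, hr⟩ := hA.desc h1
  exact ⟨r, T', hT, hr⟩

theorem unique (hA : Red F p) (hB : Red G q) {T : A →ₗ[R] B} {s : ℕ} {r r' : A₀ →ₗ[R] B₀}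
    (h : Ld p G q T s r) (h' : Ld p G q T s r') : r = r' := by
  obtain ⟨S, hS, hr⟩ := h
  obtain ⟨S', hS', hr'⟩ := h'
  have h1 : S = S' := hB.cancel (hS.symm.trans hS')
  apply hA.cancel_right
  rw [← hr, ← hr', h1]

theorem zero_of_lt (hA : Red F p) (hB : Red G q) {T : A →ₗ[R] B} {s s' : ℕ}
    {r r' : A₀ →ₗ[R] B₀} (h : Ld p G q T s r) (h' : Ld p G q T s' r') (hs : s < s') : r = 0 := by
  obtain ⟨S', hS', hr'⟩ := h'
  refine h.unique hA hB (r' := 0) ⟨(G ^ (s' - s)) ∘ₗ S', ?_, ?_⟩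
  · rw [← LinearMap.comp_assoc, ← Module.End.mul_eq_comp, ← pow_add,
      show s + (s' - s) = s' by omega, ← hS']
  · have h1 : q ∘ₗ (G ^ (s' - s)) = 0 := by
      rw [show s' - s = 1 + (s' - s - 1) by omega, pow_add, pow_one, Module.End.mul_eq_comp,
        ← LinearMap.comp_assoc, hB.comp_eq, LinearMap.zero_comp]
    rw [← LinearMap.comp_assoc, h1, LinearMap.zero_comp, LinearMap.zero_comp]

theorem ord_unique (hA : Red F p) (hB : Red G q) {T : A →ₗ[R] B} {s s' : ℕ}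
    {r r' : A₀ →ₗ[R] B₀} (h : Ld p G q T s r) (h' : Ld p G q T s' r') (hr : r ≠ 0)
    (hr' : r' ≠ 0) : s = s' := by
  rcases lt_trichotomy s s' with h1 | h1 | h1
  · exact absurd (h.zero_of_lt hA hB h' h1) hr
  · exact h1
  · exact absurd (h'.zero_of_lt hA hB h h1) hr'

theorem le_of_ne (hA : Red F p) (hB : Red G q) {T : A →ₗ[R] B} {s s' : ℕ}
    {r r' : A₀ →ₗ[R] B₀} (h : Ld p G q T s r) (h' : Ld p G q T s' r') (hr' : r' ≠ 0) :
    s ≤ s' := by
  by_contra h1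
  exact hr' (h'.zero_of_lt hA hB h (by omega))

theorem succ (hA : Red F p) (hB : Red G q) {T : A →ₗ[R] B} {s : ℕ}
    (h : Ld p G q T s 0) (hc : T ∘ₗ F = G ∘ₗ T) : ∃ r, Ld p G q T (s + 1) r := by
  obtain ⟨S, hS, hr⟩ := h
  rw [LinearMap.zero_comp] at hr
  obtain ⟨S', hS'⟩ := hB.div hr
  refine of_div hA hB (T' := S') ?_ hc
  rw [hS, hS', pow_succ, Module.End.mul_eq_comp, LinearMap.comp_assoc]

theorem mono (hA : Red F p) (hB : Red G q) {T : A →ₗ[R] B} {s s' : ℕ} {r' : A₀ →ₗ[R] B₀}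
    (h' : Ld p G q T s' r') (hs : s ≤ s') (hc : T ∘ₗ F = G ∘ₗ T) : ∃ r, Ld p G q T s r := by
  obtain ⟨S', hS', hr'⟩ := h'
  refine of_div hA hB (T' := (G ^ (s' - s)) ∘ₗ S') ?_ hc
  rw [← LinearMap.comp_assoc, ← Module.End.mul_eq_comp, ← pow_add,
    show s + (s' - s) = s' by omega, ← hS']

theorem comp {T : A →ₗ[R] B} {T' : B →ₗ[R] E} {s s' : ℕ} {r : A₀ →ₗ[R] B₀} {r' : B₀ →ₗ[R] E₀}
    (h : Ld p G q T s r) (h' : Ld q H o T' s' r') (hc : T' ∘ₗ G = H ∘ₗ T') :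
    Ld p H o (T' ∘ₗ T) (s + s') (r' ∘ₗ r) := by
  obtain ⟨S, hS, hr⟩ := h
  obtain ⟨S', hS', hr'⟩ := h'
  refine ⟨S' ∘ₗ S, ?_, ?_⟩
  · rw [hS, ← LinearMap.comp_assoc, comm_pow hc, LinearMap.comp_assoc, hS', LinearMap.comp_assoc,
      ← LinearMap.comp_assoc, ← Module.End.mul_eq_comp, ← pow_add]
  · rw [← LinearMap.comp_assoc, hr', LinearMap.comp_assoc, hr, LinearMap.comp_assoc]

/-- order zero -/
theorem of_comm {T : A →ₗ[R] B} {r : A₀ →ₗ[R] B₀} (h : q ∘ₗ T = r ∘ₗ p) :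
    Ld p G q T 0 r := ⟨T, rfl, h⟩

/-- naturality: `a`, `b` are maps of modules with endomorphisms and `b T = T' a` -/
theorem natural {A' A₀' B' B₀' : Type*} [AddCommGroup A'] [Module R A'] [AddCommGroup A₀']
    [Module R A₀'] [AddCommGroup B'] [Module R B'] [AddCommGroup B₀'] [Module R B₀']
    {p' : A' →ₗ[R] A₀'} {G' : B' →ₗ[R] B'} {q' : B' →ₗ[R] B₀'}
    (hA : Red F p) (hB' : Red G' q') {T : A →ₗ[R] B} {T' : A' →ₗ[R] B'} {s : ℕ}
    {r : A₀ →ₗ[R] B₀} {r' : A₀' →ₗ[R] B₀'} (h : Ld p G q T s r) (h' : Ld p' G' q' T' s r')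
    {a : A →ₗ[R] A'} {a₀ : A₀ →ₗ[R] A₀'} {b : B →ₗ[R] B'} {b₀ : B₀ →ₗ[R] B₀'}
    (ha : p' ∘ₗ a = a₀ ∘ₗ p) (hb : q' ∘ₗ b = b₀ ∘ₗ q) (hbG : b ∘ₗ G = G' ∘ₗ b)
    (hT : b ∘ₗ T = T' ∘ₗ a) : b₀ ∘ₗ r = r' ∘ₗ a₀ := by
  obtain ⟨S, hS, hr⟩ := h
  obtain ⟨S', hS', hr'⟩ := h'
  have h1 : b ∘ₗ S = S' ∘ₗ a := by
    apply hB'.cancel (s := s)
    rw [← LinearMap.comp_assoc, ← comm_pow hbG, LinearMap.comp_assoc, ← hS, hT, hS',
      LinearMap.comp_assoc]
  apply hA.cancel_right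
  rw [LinearMap.comp_assoc, ← hr, ← LinearMap.comp_assoc, ← hb, LinearMap.comp_assoc, h1,
    ← LinearMap.comp_assoc, hr', LinearMap.comp_assoc, ha, LinearMap.comp_assoc]

/-- lifting through an injective map -/
theorem lift_inj {A' : Type*} [AddCommGroup A'] [Module R A'] {f : A' →ₗ[R] B} {b : A →ₗ[R] B}
    (hb : Function.Injective b) (h : ∀ x, ∃ y, b y = f x) : ∃ f' : A' →ₗ[R] A, f = b ∘ₗ f' := by
  have h1 : ∀ x, f x ∈ LinearMap.range b := h
  refine ⟨(LinearEquiv.ofInjective b hb).symm.toLinearMap ∘ₗ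
    LinearMap.codRestrict (LinearMap.range b) f h1, ?_⟩
  ext a
  have h2 := (LinearEquiv.ofInjective b hb).apply_symm_apply
    (LinearMap.codRestrict (LinearMap.range b) f h1 a)
  have h3 := congrArg Subtype.val h2
  rw [LinearEquiv.ofInjective_apply] at h3
  exact h3.symm

/-- descent through a surjective map -/
theorem desc_surj {A' : Type*} [AddCommGroup A'] [Module R A'] {f : A →ₗ[R] A'} {a : A →ₗ[R] B}
    (ha : Function.Surjective a) (h : ∀ x, a x = 0 → f x = 0) :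
    ∃ f' : B →ₗ[R] A', f = f' ∘ₗ a := by
  have h1 : LinearMap.ker a ≤ LinearMap.ker f := h
  refine ⟨(Submodule.liftQ _ f h1) ∘ₗ (a.quotKerEquivOfSurjective ha).symm.toLinearMap, ?_⟩
  ext x
  have h2 : (a.quotKerEquivOfSurjective ha).symm (a x) = Submodule.Quotient.mk x := by
    rw [LinearEquiv.symm_apply_eq]
    rfl
  simp only [LinearMap.comp_apply, LinearEquiv.coe_coe, h2]
  rfl

theorem comm_pow_apply {A' : Type*} [AddCommGroup A'] [Module R A'] {F' : A' →ₗ[R] A'}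
    {g : A →ₗ[R] A'} (h : g ∘ₗ F = F' ∘ₗ g) (s : ℕ) (x : A) : g ((F ^ s) x) = (F' ^ s) (g x) :=
  LinearMap.congr_fun (comm_pow h s) x

/-- divisibility passes to submodules -/
theorem sub_div {A' B' B'' : Type*} [AddCommGroup A'] [Module R A'] [AddCommGroup B']
    [Module R B'] [AddCommGroup B''] [Module R B''] {T S : A →ₗ[R] B} {s : ℕ}
    (hT : T = (G ^ s) ∘ₗ S) {a : A' →ₗ[R] A} {b : B' →ₗ[R] B} {g : B →ₗ[R] B''}
    (hb : Function.Injective b) (hgb : ∀ x, g (b x) = 0) (hg : ∀ y, g y = 0 → ∃ x, b x = y)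
    {G' : B' →ₗ[R] B'} (hbG : b ∘ₗ G' = G ∘ₗ b) {G'' : B'' →ₗ[R] B''}
    (hG'' : Function.Injective G'') (hgG : g ∘ₗ G = G'' ∘ₗ g) {T' : A' →ₗ[R] B'}
    (hT' : b ∘ₗ T' = T ∘ₗ a) : ∃ S' : A' →ₗ[R] B', T' = (G' ^ s) ∘ₗ S' := by
  have hinj : Function.Injective (G'' ^ s) := by
    rw [Module.End.coe_pow]
    exact hG''.iterate s
  obtain ⟨S', hS'⟩ : ∃ S' : A' →ₗ[R] B', S ∘ₗ a = b ∘ₗ S' := by
    refine lift_inj hb fun x => hg _ (hinj ?_)
    rw [LinearMap.comp_apply, ← comm_pow_apply hgG, map_zero]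
    have h1 := LinearMap.congr_fun hT' x
    rw [hT] at h1
    simp only [LinearMap.comp_apply] at h1
    rw [← h1, hgb]
  refine ⟨S', ?_⟩
  ext x
  apply hb
  have h1 := LinearMap.congr_fun hT' x
  have h2 := LinearMap.congr_fun hS' x
  rw [hT] at h1
  simp only [LinearMap.comp_apply] at h1 h2 ⊢
  rw [h1, h2, comm_pow_apply hbG]

/-- divisibility passes to quotients -/
theorem quot_div {A' B' : Type*} [AddCommGroup A'] [Module R A'] [AddCommGroup B']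
    [Module R B'] {T S : A →ₗ[R] B} {s : ℕ}
    (hT : T = (G ^ s) ∘ₗ S) {a : A →ₗ[R] A'} {b : B →ₗ[R] B'} (ha : Function.Surjective a)
    {G' : B' →ₗ[R] B'} (hG' : Function.Injective G') (hbG : b ∘ₗ G = G' ∘ₗ b)
    {T' : A' →ₗ[R] B'} (hT' : b ∘ₗ T = T' ∘ₗ a) :
    ∃ S' : A' →ₗ[R] B', T' = (G' ^ s) ∘ₗ S' := by
  have hinj : Function.Injective (G' ^ s) := by
    rw [Module.End.coe_pow]
    exact hG'.iterate s
  have h0 : ∀ x, (G' ^ s) (b (S x)) = T' (a x) := by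
    intro x
    have h1 := LinearMap.congr_fun hT' x
    rw [hT] at h1
    simp only [LinearMap.comp_apply] at h1
    rw [← comm_pow_apply hbG, h1]
  obtain ⟨S', hS'⟩ : ∃ S' : A' →ₗ[R] B', b ∘ₗ S = S' ∘ₗ a := by
    refine desc_surj ha fun x hx => hinj ?_
    rw [LinearMap.comp_apply, h0, hx, map_zero, map_zero]
  refine ⟨S', ?_⟩
  ext x
  obtain ⟨x, rfl⟩ := ha x
  have h2 := LinearMap.congr_fun hS' x
  simp only [LinearMap.comp_apply] at h2 ⊢
  rw [← h2, h0]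

end Ld

end

end Pool.Agent.KLR
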