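import Pool.Agent.Work.MP_e487d8_al.Rmat.R
import Pool.Agent.Work.MP_e487d8_al.Rmat.Ld
import Pool.Agent.Work.MP_e487d8_al.Conv.K0

/-! MP_e487d8_al, RMAT block: affinisations, the leading term `r` of the R-matrix
`W ∘ N → N ∘ W`, naturality, sub and quotient modules, products. -/

set_option autoImplicit false

namespace Pool.Agent.KLR

variable {K I : Type} [Field K] [Fintype I] [DecidableEq I] {D : Datum K I}

/-- `W` with the endomorphism `Z` is an affinisation of `C` (with `m` strands) -/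
structure IsAff (D : Datum K I) (m : ℕ) {W C : Type} [AddCommGroup W] [Module (KLRAlg D) W]
    [AddCommGroup C] [Module (KLRAlg D) C] (Z : W →ₗ[KLRAlg D] W) (p : W →ₗ[KLRAlg D] C) :
    Prop where
  strand : IsStrand D m W
  red : Red Z p

section

variable {m n l : ℕ} {W C N L N' : Type}
  [AddCommGroup W] [Module K W] [Module (KLRAlg D) W] [IsScalarTower K (KLRAlg D) W]
  [AddCommGroup C] [Module K C] [Module (KLRAlg D) C] [IsScalarTower K (KLRAlg D) C]
  [AddCommGroup N] [Module K N] [Module (KLRAlg D) N] [IsScalarTower K (KLRAlg D) N]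
  [AddCommGroup L] [Module K L] [Module (KLRAlg D) L] [IsScalarTower K (KLRAlg D) L]
  [AddCommGroup N'] [Module K N'] [Module (KLRAlg D) N'] [IsScalarTower K (KLRAlg D) N']
  {Z : W →ₗ[KLRAlg D] W} {p : W →ₗ[KLRAlg D] C}

namespace IsAff

omit [Module K W] [IsScalarTower K (KLRAlg D) W] [Module K C] [IsScalarTower K (KLRAlg D) C] in
theorem strandC (hA : IsAff D m Z p) : IsStrand D m C := hA.strand.of_surjective p hA.red.surj

omit [Module K W] [IsScalarTower K (KLRAlg D) W] [Module K C] [IsScalarTower K (KLRAlg D) C] in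
theorem exact (hA : IsAff D m Z p) : Function.Exact Z p := by
  rw [LinearMap.exact_iff]
  exact hA.red.ker

/-- `W ∘ N` is an affinisation of `C ∘ N` -/
theorem redL (hb : S_basis D) (hA : IsAff D m Z p) (hN : IsStrand D n N) :
    Red (Conv.map (rfl : m = m) Z (LinearMap.id : N →ₗ[KLRAlg D] N))
      (Conv.map (rfl : m = m) p (LinearMap.id : N →ₗ[KLRAlg D] N)) where
  inj := Conv.map_injective hb rfl hA.strand hN hA.strand hN Z _ hA.red.inj
    (fun _ _ h => h)
  surj := Conv.map_surjective rfl p _ hA.red.surj (fun v => ⟨v, rfl⟩)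
  ker := LinearMap.exact_iff.1
    (Conv.exact_left hb hN hA.strand hA.strand hA.strandC Z p hA.exact)

/-- `N ∘ W` is an affinisation of `N ∘ C` -/
theorem redR (hb : S_basis D) (hA : IsAff D m Z p) (hN : IsStrand D n N) :
    Red (Conv.map (rfl : n = n) (LinearMap.id : N →ₗ[KLRAlg D] N) Z)
      (Conv.map (rfl : n = n) (LinearMap.id : N →ₗ[KLRAlg D] N) p) where
  inj := Conv.map_injective hb rfl hN hA.strand hN hA.strand _ Z
    (fun _ _ h => h) hA.red.inj
  surj := Conv.map_surjective rfl _ p (fun v => ⟨v, rfl⟩) hA.red.surj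
  ker := LinearMap.exact_iff.1
    (Conv.exact_right hb hN hA.strand hA.strand hA.strandC Z p hA.exact)

end IsAff

/-- `r` is the leading term, of order `s`, of the R-matrix `W ∘ N → N ∘ W` -/
def Lead (hA : IsAff D m Z p) (hN : IsStrand D n N) (s : ℕ)
    (r : Conv D m C N →ₗ[KLRAlg D] Conv D n N C) : Prop :=
  Ld (Conv.map (rfl : m = m) p (LinearMap.id : N →ₗ[KLRAlg D] N))
    (Conv.map (rfl : n = n) (LinearMap.id : N →ₗ[KLRAlg D] N) Z)
    (Conv.map (rfl : n = n) (LinearMap.id : N →ₗ[KLRAlg D] N) p) (Conv.Rm hA.strand hN) s r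

omit [Module K C] [IsScalarTower K (KLRAlg D) C] in
theorem Rm_comm (hA : IsAff D m Z p) (hN : IsStrand D n N) :
    (Conv.Rm hA.strand hN) ∘ₗ (Conv.map (rfl : m = m) Z (LinearMap.id : N →ₗ[KLRAlg D] N)) =
      (Conv.map (rfl : n = n) (LinearMap.id : N →ₗ[KLRAlg D] N) Z) ∘ₗ
        (Conv.Rm hA.strand hN) := (Conv.Rm_map hA.strand hN hA.strand hN Z LinearMap.id).symm

namespace Lead

variable {hA : IsAff D m Z p} {hN : IsStrand D n N} {hN' : IsStrand D n N'}
  {s s' : ℕ} {r r₁ : Conv D m C N →ₗ[KLRAlg D] Conv D n N C}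
  {r' : Conv D m C N' →ₗ[KLRAlg D] Conv D n N' C}

theorem zero (hb : S_basis D) (hA : IsAff D m Z p) (hN : IsStrand D n N) :
    ∃ r, Lead hA hN 0 r :=
  Ld.of_div (hA.redL hb hN) (hA.redR hb hN) (T' := Conv.Rm hA.strand hN) rfl (Rm_comm hA hN)

theorem unique (hb : S_basis D) (h : Lead hA hN s r) (h' : Lead hA hN s r₁) : r = r₁ :=
  Ld.unique (hA.redL hb hN) (hA.redR hb hN) h h'

theorem ord_unique (hb : S_basis D) (h : Lead hA hN s r) (h' : Lead hA hN s' r₁) (hr : r ≠ 0)
    (hr' : r₁ ≠ 0) : s = s' :=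
  Ld.ord_unique (hA.redL hb hN) (hA.redR hb hN) h h' hr hr'

theorem le_of_ne (hb : S_basis D) (h : Lead hA hN s r) (h' : Lead hA hN s' r₁)
    (hr' : r₁ ≠ 0) : s ≤ s' :=
  Ld.le_of_ne (hA.redL hb hN) (hA.redR hb hN) h h' hr'

theorem succ (hb : S_basis D) (h : Lead hA hN s 0) : ∃ r, Lead hA hN (s + 1) r :=
  Ld.succ (hA.redL hb hN) (hA.redR hb hN) h (Rm_comm hA hN)

theorem mono (hb : S_basis D) (h : Lead hA hN s r) (hs : s' ≤ s) : ∃ r, Lead hA hN s' r :=
  Ld.mono (hA.redL hb hN) (hA.redR hb hN) h hs (Rm_comm hA hN)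

/-- naturality -/
theorem natural (hb : S_basis D) (h : Lead hA hN s r) (h' : Lead hA hN' s r')
    (f : N →ₗ[KLRAlg D] N') :
    (Conv.map (rfl : n = n) f (LinearMap.id : C →ₗ[KLRAlg D] C)) ∘ₗ r =
      r' ∘ₗ (Conv.map (rfl : m = m) (LinearMap.id : C →ₗ[KLRAlg D] C) f) := by
  refine Ld.natural (hA.redL hb hN) (hA.redR hb hN') h h'
    (a := Conv.map (rfl : m = m) (LinearMap.id : W →ₗ[KLRAlg D] W) f)
    (b := Conv.map (rfl : n = n) f (LinearMap.id : W →ₗ[KLRAlg D] W)) ?_ ?_ ?_ ?_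
  · rw [Conv.map_comp, Conv.map_comp, LinearMap.id_comp, LinearMap.id_comp, LinearMap.comp_id,
      LinearMap.comp_id]
  · rw [Conv.map_comp, Conv.map_comp, LinearMap.id_comp, LinearMap.id_comp, LinearMap.comp_id,
      LinearMap.comp_id]
  · rw [Conv.map_comp, Conv.map_comp, LinearMap.id_comp, LinearMap.id_comp, LinearMap.comp_id,
      LinearMap.comp_id]
  · exact Conv.Rm_map hA.strand hN hA.strand hN' LinearMap.id f

omit hN' in
/-- naturality, with a proof that the numbers of strands agree -/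
theorem natural' (hb : S_basis D) {n' : ℕ} (e : n = n') {hN' : IsStrand D n' N'}
    {r' : Conv D m C N' →ₗ[KLRAlg D] Conv D n' N' C}
    (h : Lead hA hN s r) (h' : Lead hA hN' s r')
    (f : N →ₗ[KLRAlg D] N') :
    (Conv.map e f (LinearMap.id : C →ₗ[KLRAlg D] C)) ∘ₗ r =
      r' ∘ₗ (Conv.map (rfl : m = m) (LinearMap.id : C →ₗ[KLRAlg D] C) f) := by
  subst e
  exact natural hb h h' f

/-- the R-matrix of a submodule -/
theorem sub (hb : S_basis D) (h : Lead hA hN s r) (hN' : IsStrand D n N')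
    (i : N' →ₗ[KLRAlg D] N) (hi : Function.Injective i) : ∃ r', Lead hA hN' s r' := by
  obtain ⟨T, hT, _⟩ := h
  have hQ := hN.quot (LinearMap.range i)
  have hex : Function.Exact i (LinearMap.range i).mkQ := by
    rw [LinearMap.exact_iff, Submodule.ker_mkQ]
  have hex' := Conv.exact_left hb hA.strand hN' hN hQ i (LinearMap.range i).mkQ hex
  obtain ⟨S', hS'⟩ := Ld.sub_div hT
    (a := Conv.map (rfl : m = m) (LinearMap.id : W →ₗ[KLRAlg D] W) i)
    (b := Conv.map (rfl : n = n) i (LinearMap.id : W →ₗ[KLRAlg D] W))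
    (g := Conv.map (rfl : n = n) (LinearMap.range i).mkQ (LinearMap.id : W →ₗ[KLRAlg D] W))
    (Conv.map_injective hb rfl hN' hA.strand hN hA.strand i _ hi (fun _ _ h => h))
    (fun x => (hex' _).2 ⟨x, rfl⟩) (fun y hy => (hex' y).1 hy)
    (G' := Conv.map (rfl : n = n) (LinearMap.id : N' →ₗ[KLRAlg D] N') Z)
    (by
      rw [Conv.map_comp, Conv.map_comp, LinearMap.id_comp, LinearMap.id_comp, LinearMap.comp_id,
        LinearMap.comp_id])
    (hA.redR hb hQ).inj
    (by
      rw [Conv.map_comp, Conv.map_comp, LinearMap.id_comp, LinearMap.id_comp, LinearMap.comp_id,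
        LinearMap.comp_id])
    (T' := Conv.Rm hA.strand hN')
    (Conv.Rm_map hA.strand hN' hA.strand hN LinearMap.id i)
  exact Ld.of_div (hA.redL hb hN') (hA.redR hb hN') hS' (Rm_comm hA hN')

/-- the R-matrix of a quotient -/
theorem quot (hb : S_basis D) (h : Lead hA hN s r) (hN' : IsStrand D n N')
    (g : N →ₗ[KLRAlg D] N') (hg : Function.Surjective g) : ∃ r', Lead hA hN' s r' := by
  obtain ⟨T, hT, _⟩ := h
  obtain ⟨S', hS'⟩ := Ld.quot_div hT
    (a := Conv.map (rfl : m = m) (LinearMap.id : W →ₗ[KLRAlg D] W) g)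
    (b := Conv.map (rfl : n = n) g (LinearMap.id : W →ₗ[KLRAlg D] W))
    (Conv.map_surjective (rfl : m = m) (LinearMap.id : W →ₗ[KLRAlg D] W) g
      (fun v => ⟨v, rfl⟩) hg)
    (hA.redR hb hN').inj
    (by
      rw [Conv.map_comp, Conv.map_comp, LinearMap.id_comp, LinearMap.id_comp, LinearMap.comp_id,
        LinearMap.comp_id])
    (T' := Conv.Rm hA.strand hN')
    (Conv.Rm_map hA.strand hN hA.strand hN' LinearMap.id g)
  exact Ld.of_div (hA.redL hb hN') (hA.redR hb hN') hS' (Rm_comm hA hN')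

end Lead

end

end Pool.Agent.KLR
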