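import Pool.Agent.Work.MP_e487d8_al.Rmat.Ph
import Pool.Agent.Work.MP_e487d8_al.Conv.Assoc

/-! MP_e487d8_al, RMAT block: the R-matrix `M ∘ N → N ∘ M`, naturality, hexagon. -/

set_option autoImplicit false

namespace Pool.Agent.KLR

variable {K I : Type} [Field K] [Fintype I] [DecidableEq I] {D : Datum K I}

/-- on a module with `n + m` strands the strands from `m` on form a module with `n` strands -/
theorem IsStrand.shn_tr_smul {n m : ℕ} {P : Type} [AddCommGroup P] [Module (KLRAlg D) P]
    (h : IsStrand D (n + m) P) (b : KLRAlg D) (z : P) :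
    D.shn m b • z = D.shn m (D.tr n b) • z := by
  rw [← D.tr_shn, h.tr_smul (by omega)]

namespace Conv

variable {m n l : ℕ} {M N L M' N' : Type}
  [AddCommGroup M] [Module K M] [Module (KLRAlg D) M] [IsScalarTower K (KLRAlg D) M]
  [AddCommGroup N] [Module K N] [Module (KLRAlg D) N] [IsScalarTower K (KLRAlg D) N]
  [AddCommGroup L] [Module K L] [Module (KLRAlg D) L] [IsScalarTower K (KLRAlg D) L]
  [AddCommGroup M'] [Module K M'] [Module (KLRAlg D) M'] [IsScalarTower K (KLRAlg D) M']
  [AddCommGroup N'] [Module K N'] [Module (KLRAlg D) N'] [IsScalarTower K (KLRAlg D) N']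

/-- the bilinear map defining the R-matrix -/
noncomputable def RmB (D : Datum K I) (m n : ℕ) (M N : Type)
    [AddCommGroup M] [Module K M] [Module (KLRAlg D) M] [IsScalarTower K (KLRAlg D) M]
    [AddCommGroup N] [Module K N] [Module (KLRAlg D) N] [IsScalarTower K (KLRAlg D) N] :
    M →ₗ[K] N →ₗ[K] Conv D n N M :=
  LinearMap.mk₂ K (fun u v => D.Ph n m • mk D n N M v u)
    (by intro u u' v; rw [map_add, smul_add])
    (by intro r u v; rw [map_smul, smul_comm])
    (by intro u v v'; rw [map_add, LinearMap.add_apply, smul_add])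
    (by intro r u v; rw [map_smul, LinearMap.smul_apply, smul_comm])

theorem balanced_RmB (hM : IsStrand D m M) (hN : IsStrand D n N) :
    Balanced D m (RmB D m n M N) where
  left a u v := by
    simp only [RmB, LinearMap.mk₂_apply]
    rw [← mul_smul, D.tr_mul_Ph, mul_smul, shn_smul_mk, hM.tr_smul le_rfl]
  right a u v := by
    simp only [RmB, LinearMap.mk₂_apply]
    rw [(isStrand hN hM).shn_tr_smul, ← mul_smul, D.Ph_tr, mul_smul, tr_smul_mk]

/-- the R-matrix -/
noncomputable def Rm (hM : IsStrand D m M) (hN : IsStrand D n N) :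
    Conv D m M N →ₗ[KLRAlg D] Conv D n N M :=
  lift (RmB D m n M N) (balanced_RmB hM hN)

@[simp] theorem Rm_mk (hM : IsStrand D m M) (hN : IsStrand D n N) (u : M) (v : N) :
    Rm hM hN (mk D m M N u v) = D.Ph n m • mk D n N M v u := by
  unfold Rm
  rw [lift_mk]
  rfl

/-- naturality -/
theorem Rm_map (hM : IsStrand D m M) (hN : IsStrand D n N) (hM' : IsStrand D m M')
    (hN' : IsStrand D n N') (f : M →ₗ[KLRAlg D] M') (g : N →ₗ[KLRAlg D] N') :
    (map (rfl : n = n) g f) ∘ₗ (Rm hM hN) = (Rm hM' hN') ∘ₗ (map (rfl : m = m) f g) := by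
  apply hom_ext
  intro u v
  simp

/-- the hexagon -/
theorem Rm_hex (hM : IsStrand D m M) (hN : IsStrand D n N) (hL : IsStrand D l L) :
    (assoc D n l N L M).toLinearMap ∘ₗ (Rm hM (isStrand hN hL)) =
      (map (rfl : n = n) (LinearMap.id : N →ₗ[KLRAlg D] N) (Rm hM hL)) ∘ₗ
        (assoc D n m N M L).toLinearMap ∘ₗ
          (map (Nat.add_comm m n) (Rm hM hN) (LinearMap.id : L →ₗ[KLRAlg D] L)) ∘ₗ
            (assoc D m n M N L).symm.toLinearMap := by
  apply hom_ext₃'
  intro u v w
  simp only [LinearMap.comp_apply, LinearEquiv.coe_coe, assoc_symm_mk, map_mk, Rm_mk, map_smul,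
    LinearMap.id_apply]
  have h1 : mk D (n + m) (Conv D n N M) L (D.Ph n m • mk D n N M v u) w =
      D.Ph n m • mk D (n + m) (Conv D n N M) L (mk D n N M v u) w := by
    rw [← tr_smul_mk, D.tr_Ph]
  rw [h1, map_smul, map_smul, assoc_mk, assoc_mk, map_mk, Rm_mk, LinearMap.id_apply,
    ← shn_smul_mk, D.Ph_add, mul_smul]

/-- the square of the R-matrix on a pure vector -/
theorem Rm_Rm_mk (hM : IsStrand D m M) (hN : IsStrand D n N) (u : M) (v : N) :
    Rm hN hM (Rm hM hN (mk D m M N u v)) = D.QP m m n • mk D m M N u v := by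
  rw [Rm_mk, map_smul, Rm_mk, ← mul_smul, D.Ph_mul_Ph]

end Conv

end Pool.Agent.KLR
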