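import Pool.Agent.Work.MP_e487d8_al.Rmat.Ph
import Pool.Agent.Work.MP_e487d8_al.Conv.Api

/-! MP_e487d8_al, RMAT block: one strand past a block, the leading coefficient of the product
`φ_k φ_{k+1} ⋯ φ_{n-1}` with respect to the elements `t_j ⋯ t_{n-1}`. -/

set_option autoImplicit false

namespace Pool.Agent.KLR

variable {K I : Type} [Field K] [Fintype I] [DecidableEq I]

namespace Datum

variable (D : Datum K I)

/-- `t_k t_{k+1} ⋯ t_{k+l-1}` -/
noncomputable def cc (k : ℕ) : ℕ → KLRAlg D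
  | 0 => 1
  | l + 1 => cc k l * D.t (k + l)

/-- `φ_k φ_{k+1} ⋯ φ_{k+l-1}` -/
noncomputable def pc (k : ℕ) : ℕ → KLRAlg D
  | 0 => 1
  | l + 1 => pc k l * D.phi (k + l)

/-- the strands `k` and `n` have the same colour -/
noncomputable def dn (k n : ℕ) : KLRAlg D := ∑ i, D.e k i * D.e n i

/-- one factor of the leading coefficient -/
noncomputable def g1 (n k : ℕ) : KLRAlg D := (1 - D.dn k n) + (D.x k - D.x n) * D.dn k n

/-- the leading coefficient -/
noncomputable def gg (n k : ℕ) : ℕ → KLRAlg D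
  | 0 => 1
  | l + 1 => D.g1 n k * gg n (k + 1) l

theorem cc_zero (k : ℕ) : D.cc k 0 = 1 := rfl
theorem cc_succ (k l : ℕ) : D.cc k (l + 1) = D.cc k l * D.t (k + l) := rfl
theorem pc_zero (k : ℕ) : D.pc k 0 = 1 := rfl
theorem pc_succ (k l : ℕ) : D.pc k (l + 1) = D.pc k l * D.phi (k + l) := rfl
theorem gg_zero (n k : ℕ) : D.gg n k 0 = 1 := rfl
theorem gg_succ (n k l : ℕ) : D.gg n k (l + 1) = D.g1 n k * D.gg n (k + 1) l := rfl

theorem cc_succ' (k l : ℕ) : D.cc k (l + 1) = D.t k * D.cc (k + 1) l := by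
  induction l with
  | zero => rw [cc_succ, cc_zero, cc_zero, one_mul, mul_one, add_zero]
  | succ l ih => rw [cc_succ, ih, cc_succ, mul_assoc, show k + (l + 1) = k + 1 + l by omega]

theorem pc_succ' (k l : ℕ) : D.pc k (l + 1) = D.phi k * D.pc (k + 1) l := by
  induction l with
  | zero => rw [pc_succ, pc_zero, pc_zero, one_mul, mul_one, add_zero]
  | succ l ih => rw [pc_succ, ih, pc_succ, mul_assoc, show k + (l + 1) = k + 1 + l by omega]

theorem cc_chain (n : ℕ) : D.cc 0 n = D.chain n := by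
  induction n with
  | zero => rfl
  | succ n ih => rw [cc_succ, ih, zero_add]; rfl

theorem pc_Cp (n : ℕ) : D.pc 0 n = D.Cp n := by
  induction n with
  | zero => rfl
  | succ n ih => rw [pc_succ, ih, zero_add]; rfl

/-- `a` commutes with `cc k l` if it commutes with the factors -/
theorem comm_cc {a : KLRAlg D} {k : ℕ} (h : ∀ j, k ≤ j → a * D.t j = D.t j * a) (l : ℕ) :
    a * D.cc k l = D.cc k l * a := by
  induction l with
  | zero => rw [cc_zero, mul_one, one_mul]
  | succ l ih => rw [cc_succ, ← mul_assoc, ih, mul_assoc, h _ (by omega), mul_assoc]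

theorem x_cc {j k : ℕ} (h : j < k) (l : ℕ) : D.x j * D.cc k l = D.cc k l * D.x j :=
  D.comm_cc (fun r hr => (D.t_x r j (by omega) (by omega)).symm) l

theorem e_cc {j k : ℕ} (i : I) (h : j < k) (l : ℕ) : D.e j i * D.cc k l = D.cc k l * D.e j i :=
  D.comm_cc (fun r hr => (D.t_e r j i (by omega) (by omega)).symm) l

theorem t_cc {j k : ℕ} (h : j + 1 < k) (l : ℕ) : D.t j * D.cc k l = D.cc k l * D.t j :=
  D.comm_cc (fun r hr => D.t_far j r (by omega)) l

theorem e_cc_top (k l : ℕ) (i : I) : D.e k i * D.cc k l = D.cc k l * D.e (k + l) i := by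
  induction l with
  | zero => rw [cc_zero, one_mul, mul_one, add_zero]
  | succ l ih =>
    rw [cc_succ, ← mul_assoc, ih, mul_assoc, ← D.t_e1, mul_assoc]
    rfl

theorem dl_cc (k l : ℕ) : D.dl k * D.cc (k + 1) l = D.cc (k + 1) l * D.dn k (k + 1 + l) := by
  unfold dl dn
  rw [Finset.sum_mul, Finset.mul_sum]
  refine Finset.sum_congr rfl fun i _ => ?_
  rw [mul_assoc, e_cc_top, ← mul_assoc, D.e_cc i (Nat.lt_succ_self k), mul_assoc]

end Datum

section vec

variable {D : Datum K I} {P : Type} [AddCommGroup P] [Module K P] [Module (KLRAlg D) P]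
  [IsScalarTower K (KLRAlg D) P]

/-- a space of vectors of `X ∘ W` of the form `∑ mk u v` (`n` strands and one more strand) -/
structure Flat (D : Datum K I) (n : ℕ) {P : Type} [AddCommGroup P] [Module K P]
    [Module (KLRAlg D) P] (Q : Submodule K P) : Prop where
  x : ∀ j ≤ n, ∀ z ∈ Q, D.x j • z ∈ Q
  e : ∀ j ≤ n, ∀ i, ∀ z ∈ Q, D.e j i • z ∈ Q
  t : ∀ j, j + 1 < n → ∀ z ∈ Q, D.t j • z ∈ Q

/-- the lower terms -/
def Low (D : Datum K I) (n : ℕ) {P : Type} [AddCommGroup P] [Module K P]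
    [Module (KLRAlg D) P] (Q : Submodule K P) (k : ℕ) : Submodule K P :=
  Submodule.span K {y | ∃ j l z, k < j ∧ j + l = n ∧ z ∈ Q ∧ y = D.cc j l • z}

variable {n : ℕ} {Q : Submodule K P}

omit [IsScalarTower K (KLRAlg D) P] in
theorem Low.mem {k j l : ℕ} (hk : k < j) (hj : j + l = n) {z : P} (hz : z ∈ Q) :
    D.cc j l • z ∈ Low D n Q k := Submodule.subset_span ⟨j, l, z, hk, hj, hz, rfl⟩

omit [IsScalarTower K (KLRAlg D) P] in
theorem Low.mono {k k' : ℕ} (h : k ≤ k') : Low D n Q k' ≤ Low D n Q k := by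
  refine Submodule.span_mono ?_
  rintro y ⟨j, l, z, h1, h2, h3, h4⟩
  exact ⟨j, l, z, by omega, h2, h3, h4⟩

theorem Low.smul {k : ℕ} {a : KLRAlg D} (h : ∀ j l z, k < j → j + l = n → z ∈ Q →
    a • D.cc j l • z ∈ Low D n Q k) {y : P} (hy : y ∈ Low D n Q k) : a • y ∈ Low D n Q k := by
  induction hy using Submodule.span_induction with
  | mem y hy =>
    obtain ⟨j, l, z, h1, h2, h3, rfl⟩ := hy
    exact h j l z h1 h2 h3
  | zero => rw [smul_zero]; exact Submodule.zero_mem _
  | add y z _ _ hy hz => rw [smul_add]; exact Submodule.add_mem _ hy hz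
  | smul c y _ hy => rw [smul_comm]; exact Submodule.smul_mem _ _ hy

theorem Low.smul_of_comm {k : ℕ} {a : KLRAlg D} (h : ∀ j l, k < j → a * D.cc j l = D.cc j l * a)
    (h' : ∀ z ∈ Q, k < n → a • z ∈ Q) {y : P} (hy : y ∈ Low D n Q k) : a • y ∈ Low D n Q k := by
  refine Low.smul (fun j l z h1 h2 h3 => ?_) hy
  rw [← mul_smul, h j l h1, mul_smul]
  exact Low.mem h1 h2 (h' z h3 (by omega))

variable (hQ : Flat D n Q)

include hQ

theorem Low.x {k j : ℕ} (hj : j ≤ k) {y : P} (hy : y ∈ Low D n Q k) :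
    D.x j • y ∈ Low D n Q k :=
  Low.smul_of_comm (fun r l hr => D.x_cc (by omega) l) (fun z hz hk => hQ.x j (by omega) z hz) hy

theorem Low.e {k j : ℕ} (i : I) (hj : j ≤ k) {y : P} (hy : y ∈ Low D n Q k) :
    D.e j i • y ∈ Low D n Q k :=
  Low.smul_of_comm (fun r l hr => D.e_cc i (by omega) l) (fun z hz hk => hQ.e j (by omega) i z hz) hy

theorem Low.t {k j : ℕ} (hj : j + 1 ≤ k) {y : P} (hy : y ∈ Low D n Q k) :
    D.t j • y ∈ Low D n Q k :=
  Low.smul_of_comm (fun r l hr => D.t_cc (by omega) l) (fun z hz hk => hQ.t j (by omega) z hz) hy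

theorem Low.dl {k : ℕ} {y : P} (hy : y ∈ Low D n Q (k + 1)) : D.dl k • y ∈ Low D n Q (k + 1) := by
  unfold Datum.dl
  rw [Finset.sum_smul]
  refine Submodule.sum_mem _ fun i _ => ?_
  rw [mul_smul]
  exact Low.e hQ i (by omega) (Low.e hQ i (by omega) hy)

theorem Low.phi {k : ℕ} {y : P} (hy : y ∈ Low D n Q (k + 1)) :
    D.phi k • y ∈ Low D n Q (k + 1) := by
  unfold Datum.phi
  rw [add_smul, mul_smul, sub_smul, one_smul, mul_smul, add_smul, one_smul, mul_smul, sub_smul]
  have h1 := Low.dl hQ hy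
  refine Submodule.add_mem _ (Low.t hQ le_rfl (Submodule.sub_mem _ hy h1))
    (Submodule.add_mem _ (Low.t hQ le_rfl (Submodule.sub_mem _ (Low.x hQ (by omega) h1)
      (Low.x hQ (by omega) h1))) h1)

omit [IsScalarTower K (KLRAlg D) P] in
theorem Flat.dn {k : ℕ} (hk : k ≤ n) {z : P} (hz : z ∈ Q) : D.dn k n • z ∈ Q := by
  unfold Datum.dn
  rw [Finset.sum_smul]
  refine Submodule.sum_mem _ fun i _ => ?_
  rw [mul_smul]
  exact hQ.e k hk i _ (hQ.e n le_rfl i z hz)

omit [IsScalarTower K (KLRAlg D) P] in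
theorem Flat.g1 {k : ℕ} (hk : k ≤ n) {z : P} (hz : z ∈ Q) : D.g1 n k • z ∈ Q := by
  unfold Datum.g1
  have h1 := hQ.dn hk hz
  rw [add_smul, sub_smul, one_smul, mul_smul, sub_smul]
  exact Submodule.add_mem _ (Submodule.sub_mem _ hz h1)
    (Submodule.sub_mem _ (hQ.x k hk _ h1) (hQ.x n le_rfl _ h1))

omit [IsScalarTower K (KLRAlg D) P] in
theorem Flat.gg {k l : ℕ} (h : k + l = n) {z : P} (hz : z ∈ Q) : D.gg n k l • z ∈ Q := by
  induction l generalizing k with
  | zero => rw [Datum.gg_zero, one_smul]; exact hz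
  | succ l ih =>
    rw [Datum.gg_succ, mul_smul]
    exact hQ.g1 (by omega) (ih (by omega))

theorem Low.x_cc : ∀ (l k : ℕ) (z : P), k + l = n → z ∈ Q →
    D.x k • D.cc k l • z - D.cc k l • D.x n • z ∈ Low D n Q k := by
  intro l
  induction l with
  | zero =>
    intro k z hk hz
    have hk' : k = n := by omega
    subst hk'
    rw [Datum.cc_zero, one_smul, one_smul, sub_self]
    exact Submodule.zero_mem _
  | succ l ih =>
    intro k z hk hz
    have h1 := ih (k + 1) z (by omega) hz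
    have h2 : D.x k * D.t k = D.t k * D.x (k + 1) - D.dl k := by
      rw [D.t_x1, add_sub_cancel_right]
    rw [Datum.cc_succ', mul_smul, mul_smul, ← mul_smul (D.x k), h2, sub_smul, mul_smul,
      ← mul_smul (D.dl k), D.dl_cc, show k + 1 + l = n by omega, mul_smul]
    have h3 : D.t k • D.x (k + 1) • D.cc (k + 1) l • z - D.cc (k + 1) l • D.dn k n • z -
        D.t k • D.cc (k + 1) l • D.x n • z =
        D.t k • (D.x (k + 1) • D.cc (k + 1) l • z - D.cc (k + 1) l • D.x n • z) -
          D.cc (k + 1) l • D.dn k n • z := by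
      rw [smul_sub]
      abel
    rw [h3]
    exact Submodule.sub_mem _ (Low.mono (Nat.le_succ k) (Low.t hQ le_rfl h1))
      (Low.mem (Nat.lt_succ_self k) (by omega) (hQ.dn (by omega) hz))

/-- the leading coefficient of `φ_k ⋯ φ_{n-1}` -/
theorem Low.pc : ∀ (l k : ℕ) (z : P), k + l = n → z ∈ Q →
    D.pc k l • z - D.cc k l • D.gg n k l • z ∈ Low D n Q k := by
  intro l
  induction l with
  | zero =>
    intro k z hk hz
    rw [Datum.pc_zero, Datum.cc_zero, Datum.gg_zero, one_smul, one_smul, sub_self]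
    exact Submodule.zero_mem _
  | succ l ih =>
    intro k z hk hz
    have h1 := ih (k + 1) z (by omega) hz
    set y := D.gg n (k + 1) l • z with hy
    have hyQ : y ∈ Q := hQ.gg (by omega) hz
    set lo := D.pc (k + 1) l • z - D.cc (k + 1) l • y with hlo
    have h2 : D.pc (k + 1) l • z = D.cc (k + 1) l • y + lo := by rw [hlo]; abel
    rw [Datum.pc_succ', mul_smul, h2, smul_add, Datum.gg_succ, mul_smul, ← hy]
    have hdQ := hQ.dn (k := k) (by omega) hyQ
    set d := D.dn k n • y with hd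
    have h4 := Low.x_cc hQ l (k + 1) d (by omega) hdQ
    set lo' := D.x (k + 1) • D.cc (k + 1) l • d - D.cc (k + 1) l • D.x n • d with hlo'
    have h5 : D.x (k + 1) • D.cc (k + 1) l • d = D.cc (k + 1) l • D.x n • d + lo' := by
      rw [hlo']; abel
    have h6 : D.dl k • D.cc (k + 1) l • y = D.cc (k + 1) l • d := by
      rw [← mul_smul, D.dl_cc, show k + 1 + l = n by omega, mul_smul]
    have h7 : D.x k • D.cc (k + 1) l • d = D.cc (k + 1) l • D.x k • d := by
      rw [← mul_smul, D.x_cc (Nat.lt_succ_self k), mul_smul]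
    have h3 : D.phi k • D.cc (k + 1) l • y = D.cc k (l + 1) • D.g1 n k • y - D.t k • lo' +
        D.cc (k + 1) l • d := by
      unfold Datum.phi Datum.g1
      rw [add_smul, mul_smul, sub_smul, one_smul, mul_smul, add_smul, one_smul, mul_smul,
        sub_smul, h6, h7, h5, Datum.cc_succ', add_smul, sub_smul, one_smul, mul_smul, mul_smul,
        ← hd, sub_smul]
      simp only [smul_add, smul_sub]
      abel
    rw [h3]
    have h8 : D.cc k (l + 1) • D.g1 n k • y - D.t k • lo' + D.cc (k + 1) l • d + D.phi k • lo -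
        D.cc k (l + 1) • D.g1 n k • y = D.cc (k + 1) l • d + D.phi k • lo - D.t k • lo' := by
      abel
    rw [h8]
    exact Submodule.sub_mem _ (Submodule.add_mem _
      (Low.mem (Nat.lt_succ_self k) (by omega) hdQ)
      (Low.mono (Nat.le_succ k) (Low.phi hQ h1)))
      (Low.mono (Nat.le_succ k) (Low.t hQ le_rfl h4))

omit hQ in
/-- the lower terms are killed by `e 0 i` if `e 0 i` kills `Q` -/
theorem Low.e_zero {i : I} (h : ∀ z ∈ Q, D.e 0 i • z = 0) {y : P} (hy : y ∈ Low D n Q 0) :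
    D.e 0 i • y = 0 := by
  induction hy using Submodule.span_induction with
  | mem y hy =>
    obtain ⟨j, l, z, h1, h2, h3, rfl⟩ := hy
    rw [← mul_smul, D.e_cc i h1, mul_smul, h z h3, smul_zero]
  | zero => rw [smul_zero]
  | add y z _ _ hy hz => rw [smul_add, hy, hz, add_zero]
  | smul c y _ hy => rw [smul_comm, hy, smul_zero]

/-- the value of the product of intertwiners -/
theorem Low.Cp_smul {i : I} (h : ∀ z ∈ Q, D.e 0 i • z = 0) {z : P} (hz : z ∈ Q)
    (hi : D.e n i • z = z) (hi' : D.e n i • D.gg n 0 n • z = D.gg n 0 n • z) :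
    D.Cp n • z = D.chain n • D.gg n 0 n • z := by
  have h1 := Low.pc hQ n 0 z (zero_add n) hz
  rw [D.pc_Cp, D.cc_chain] at h1
  have h2 := Low.e_zero h h1
  rw [smul_sub, ← mul_smul, ← D.Cp_e_top, mul_smul, hi, ← mul_smul, ← D.cc_chain, D.e_cc_top,
    mul_smul, zero_add, hi', D.cc_chain, sub_eq_zero] at h2
  exact h2

end vec

end Pool.Agent.KLR
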