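import Pool.Agent.Work.MP_e487d8_al.Rmat.Lead

/-! MP_e487d8_al, RMAT block: the affinisation `Aff D M = M[z]`: finitely supported sequences,
`e`, `t` act coefficientwise, `x k` acts by `x k + z * E k`. -/

set_option autoImplicit false
set_option linter.unusedSectionVars false

namespace Pool.Agent.KLR

variable {K I : Type} [Field K] [Fintype I] [DecidableEq I] {D : Datum K I}

section twz

variable {B : Type*} [Ring B] [Algebra K B]

theorem pow_add_mul' {a b c : B} (h1 : a * c = c * a) (h2 : b * c = 0) (n : ℕ) :
    (a + b) ^ n * c = a ^ n * c := by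
  induction n with
  | zero => rw [pow_zero, pow_zero]
  | succ n ih =>
    rw [pow_succ, mul_assoc, add_mul, h2, add_zero, h1, ← mul_assoc, ih, mul_assoc, ← h1,
      ← mul_assoc, ← pow_succ]

/-- the twist by `z` -/
noncomputable def twz (T : KLRAlg D →ₐ[K] B) (z : B) (hz : ∀ a, z * T a = T a * z) :
    KLRAlg D →ₐ[K] B :=
  liftHom (D := D) (e := fun k i => T (D.e k i)) (x := fun k => T (D.x k) + z * T (D.E k))
    (t := fun k => T (D.t k))
    { ee := by
        intro k i j
        rw [← map_mul, D.e_mul_e]
        split_ifs
        · rfl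
        · rw [map_zero]
      ee_comm := by
        intro k l i j
        rw [← map_mul, D.e_comm, map_mul]
      xx := by
        intro k l
        have h1 : Commute (T (D.x k)) (T (D.x l)) := by
          rw [Commute, SemiconjBy, ← map_mul, ← map_mul, D.x_comm]
        have h2 : Commute z (T (D.x l)) := hz _
        have h3 : Commute (T (D.E k)) (T (D.x l)) := by
          rw [Commute, SemiconjBy, ← map_mul, ← map_mul, D.E_comm]
        have h4 : Commute (T (D.x k)) z := (hz _).symm
        have h5 : Commute (T (D.x k)) (T (D.E l)) := by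
          rw [Commute, SemiconjBy, ← map_mul, ← map_mul, D.E_comm]
        have h6 : Commute (T (D.E k)) (T (D.E l)) := by
          rw [Commute, SemiconjBy, ← map_mul, ← map_mul, D.E_comm]
        have h7 : Commute z (T (D.E l)) := hz _
        have h8 : Commute (T (D.E k)) z := (hz _).symm
        exact ((h1.add_right (h4.mul_right h5)).add_left
          (((h2.mul_left h3)).add_right (((Commute.refl z).mul_left h8).mul_right
            (h7.mul_left h6)))).eq
      xe := by
        intro k l i
        have h1 : Commute (T (D.x k)) (T (D.e l i)) := by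
          rw [Commute, SemiconjBy, ← map_mul, ← map_mul, D.x_e]
        have h2 : Commute z (T (D.e l i)) := hz _
        have h3 : Commute (T (D.E k)) (T (D.e l i)) := by
          rw [Commute, SemiconjBy, ← map_mul, ← map_mul, D.E_comm]
        exact (h1.add_left (h2.mul_left h3)).eq
      xE := by
        intro k
        rw [← map_sum]
        change _ * T (D.E k) = _
        rw [add_mul, mul_assoc, ← map_mul, ← map_mul, D.x_E]
        congr 3
        nth_rw 1 [Datum.E]
        rw [Finset.sum_mul]
        exact Finset.sum_congr rfl fun i _ => D.e_E k i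
      tE := by
        intro k
        rw [← map_sum, ← map_mul]
        exact congrArg T (D.t_E k)
      tE' := by
        intro k
        rw [← map_sum, ← map_mul]
        exact congrArg T (D.t_E' k)
      te0 := by
        intro k i
        rw [← map_mul, ← map_mul, D.t_e0]
      te1 := by
        intro k i
        rw [← map_mul, ← map_mul, D.t_e1]
      te := by
        intro k l i h h'
        rw [← map_mul, ← map_mul, D.t_e k l i h h']
      tx := by
        intro k l h h'
        rw [mul_add, add_mul, ← map_mul, ← map_mul, D.t_x k l h h', ← mul_assoc, ← hz, mul_assoc,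
          mul_assoc, ← map_mul, ← map_mul, D.E_comm]
      tx0 := by
        intro k
        have h1 : ∑ i, T (D.e k i) * T (D.e (k + 1) i) = T (D.dl k) := by
          rw [Datum.dl, map_sum]
          exact Finset.sum_congr rfl fun i _ => (map_mul T _ _).symm
        rw [mul_add, add_mul, ← map_mul, ← map_mul, D.t_x0, ← mul_assoc, ← hz, mul_assoc,
          mul_assoc, ← map_mul, ← map_mul, D.E_comm, D.t_E, D.t_E', h1, map_sub]
        abel
      tx1 := by
        intro k
        have h1 : ∑ i, T (D.e k i) * T (D.e (k + 1) i) = T (D.dl k) := by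
          rw [Datum.dl, map_sum]
          exact Finset.sum_congr rfl fun i _ => (map_mul T _ _).symm
        rw [mul_add, add_mul, ← map_mul, ← map_mul, D.t_x1, ← mul_assoc, ← hz, mul_assoc,
          mul_assoc, ← map_mul, ← map_mul, D.E_comm, D.t_E, D.t_E', h1, map_add]
        abel
      tt := by
        intro k
        rw [← map_mul, D.t_t]
        simp only [map_sum]
        refine Finset.sum_congr rfl fun i _ => Finset.sum_congr rfl fun j _ => ?_
        by_cases hij : i = j
        · rw [if_pos hij, if_pos hij, map_zero]
        · rw [if_neg hij, if_neg hij, map_smul, map_mul, map_pow, map_sub, map_mul]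
          congr 1
          symm
          have e1 : T (D.x k) + z * T (D.E k) - (T (D.x (k + 1)) + z * T (D.E (k + 1))) =
              (T (D.x k) - T (D.x (k + 1))) + z * (T (D.E k) - T (D.E (k + 1))) := by
            rw [mul_sub]; abel
          rw [e1]
          have hx : ∀ a, D.x a * (D.e k i * D.e (k + 1) j) = (D.e k i * D.e (k + 1) j) * D.x a := by
            intro a
            have c1 : Commute (D.x a) (D.e k i) := D.x_e a k i
            have c2 : Commute (D.x a) (D.e (k + 1) j) := D.x_e a (k + 1) j
            exact (c1.mul_right c2).eq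
          refine pow_add_mul' ?_ ?_ _
          · rw [← map_sub, ← map_mul, ← map_mul, ← map_mul, sub_mul, mul_sub, hx, hx]
          · rw [mul_assoc, ← map_sub, ← map_mul, ← map_mul, sub_mul, ← mul_assoc, D.E_comm,
              D.e_E, D.E_comm, mul_assoc, D.e_E, sub_self, map_zero, mul_zero]
      far := by
        intro k l h
        rw [← map_mul, ← map_mul, D.t_far k l h]
      braid := by
        intro k
        rw [← map_mul, ← map_mul, ← map_mul, ← map_mul, ← map_sub, D.t_braid]
        simp only [map_sum]
        refine Finset.sum_congr rfl fun i _ => Finset.sum_congr rfl fun j _ => ?_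
        by_cases hij : i = j
        · rw [if_pos hij, if_pos hij, map_zero]
        · rw [if_neg hij, if_neg hij, map_smul, map_mul, map_sum]
          congr 1
          rw [Finset.sum_mul, Finset.sum_mul]
          refine Finset.sum_congr rfl fun p _ => ?_
          have e1 : T (D.x k) + z * T (D.E k) - (T (D.x (k + 1)) + z * T (D.E (k + 1))) =
              (T (D.x k) - T (D.x (k + 1))) + z * (T (D.E k) - T (D.E (k + 1))) := by
            rw [mul_sub]; abel
          have e2 : T (D.x (k + 2)) + z * T (D.E (k + 2)) -
              (T (D.x (k + 1)) + z * T (D.E (k + 1))) =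
              (T (D.x (k + 2)) - T (D.x (k + 1))) + z * (T (D.E (k + 2)) - T (D.E (k + 1))) := by
            rw [mul_sub]; abel
          have e3 : T (D.e k i) * T (D.e (k + 1) j) * T (D.e (k + 2) i) =
              T (D.e k i * D.e (k + 1) j * D.e (k + 2) i) := by rw [map_mul, map_mul]
          have hx : ∀ a, D.x a * (D.e k i * D.e (k + 1) j * D.e (k + 2) i) =
              (D.e k i * D.e (k + 1) j * D.e (k + 2) i) * D.x a := by
            intro a
            have c1 : Commute (D.x a) (D.e k i) := D.x_e a k i
            have c2 : Commute (D.x a) (D.e (k + 1) j) := D.x_e a (k + 1) j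
            have c3 : Commute (D.x a) (D.e (k + 2) i) := D.x_e a (k + 2) i
            exact ((c1.mul_right c2).mul_right c3).eq
          have hE : ∀ a, a = k ∨ a = k + 1 ∨ a = k + 2 →
              D.E a * (D.e k i * D.e (k + 1) j * D.e (k + 2) i) =
              D.e k i * D.e (k + 1) j * D.e (k + 2) i := by
            rintro a (rfl | rfl | rfl)
            · rw [← mul_assoc, ← mul_assoc, D.E_comm, D.e_E]
            · rw [← mul_assoc, ← mul_assoc, D.E_comm, mul_assoc (D.e k i), D.E_comm, ← mul_assoc,
                mul_assoc (D.e k i), D.e_E]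
            · rw [D.E_comm, mul_assoc, D.e_E]
          have q1 : (T (D.x k) - T (D.x (k + 1))) *
              T (D.e k i * D.e (k + 1) j * D.e (k + 2) i) =
              T (D.e k i * D.e (k + 1) j * D.e (k + 2) i) * (T (D.x k) - T (D.x (k + 1))) := by
            rw [← map_sub, ← map_mul, ← map_mul, sub_mul, mul_sub, hx, hx]
          have q2 : (T (D.x (k + 2)) - T (D.x (k + 1))) *
              T (D.e k i * D.e (k + 1) j * D.e (k + 2) i) =
              T (D.e k i * D.e (k + 1) j * D.e (k + 2) i) *
                (T (D.x (k + 2)) - T (D.x (k + 1))) := by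
            rw [← map_sub, ← map_mul, ← map_mul, sub_mul, mul_sub, hx, hx]
          have q3 : z * (T (D.E k) - T (D.E (k + 1))) *
              T (D.e k i * D.e (k + 1) j * D.e (k + 2) i) = 0 := by
            rw [mul_assoc, ← map_sub, ← map_mul, sub_mul, hE k (Or.inl rfl),
              hE (k + 1) (Or.inr (Or.inl rfl)), sub_self, map_zero, mul_zero]
          have q4 : z * (T (D.E (k + 2)) - T (D.E (k + 1))) *
              T (D.e k i * D.e (k + 1) j * D.e (k + 2) i) = 0 := by
            rw [mul_assoc, ← map_sub, ← map_mul, sub_mul, hE (k + 2) (Or.inr (Or.inr rfl)),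
              hE (k + 1) (Or.inr (Or.inl rfl)), sub_self, map_zero, mul_zero]
          have q5 : ∀ n : ℕ, (T (D.x (k + 2)) - T (D.x (k + 1))) ^ n *
              T (D.e k i * D.e (k + 1) j * D.e (k + 2) i) =
              T (D.e k i * D.e (k + 1) j * D.e (k + 2) i) *
                (T (D.x (k + 2)) - T (D.x (k + 1))) ^ n := by
            intro n
            have c : Commute (T (D.x (k + 2)) - T (D.x (k + 1)))
              (T (D.e k i * D.e (k + 1) j * D.e (k + 2) i)) := q2
            exact (c.pow_left n).eq
          have e4 : T ((D.x k - D.x (k + 1)) ^ p * (D.x (k + 2) - D.x (k + 1)) ^ (D.q i j - 1 - p)) =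
              (T (D.x k) - T (D.x (k + 1))) ^ p *
                (T (D.x (k + 2)) - T (D.x (k + 1))) ^ (D.q i j - 1 - p) := by
            rw [map_mul, map_pow, map_pow, map_sub, map_sub]
          rw [e1, e2, e3, e4, mul_assoc _ _ (T (D.e k i * D.e (k + 1) j * D.e (k + 2) i)),
            mul_assoc _ _ (T (D.e k i * D.e (k + 1) j * D.e (k + 2) i)),
            pow_add_mul' q2 q4, q5, ← mul_assoc, ← mul_assoc, pow_add_mul' q1 q3] }

variable (T : KLRAlg D →ₐ[K] B) (z : B) (hz : ∀ a, z * T a = T a * z)

@[simp] theorem twz_e (k : ℕ) (i : I) : twz T z hz (D.e k i) = T (D.e k i) := liftHom_e _ k i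
@[simp] theorem twz_x (k : ℕ) : twz T z hz (D.x k) = T (D.x k) + z * T (D.E k) := liftHom_x _ k
@[simp] theorem twz_t (k : ℕ) : twz T z hz (D.t k) = T (D.t k) := liftHom_t _ k

theorem twz_comm (a : KLRAlg D) : z * twz T z hz a = twz T z hz a * z := by
  induction a using KLRAlg.induction with
  | hs r => rw [AlgHom.commutes]; exact (Algebra.commutes r _).symm
  | he k i => rw [twz_e, hz]
  | hx k => rw [twz_x, mul_add, add_mul, hz (D.x k), mul_assoc z _ z, ← hz (D.E k)]
  | ht k => rw [twz_t, hz]
  | hadd a b ha hb => rw [map_add, mul_add, add_mul, ha, hb]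
  | hmul a b ha hb => rw [map_mul, ← mul_assoc, ha, mul_assoc, hb, mul_assoc]

end twz

/-- the affinisation `M[z]` -/
@[nolint unusedArguments]
def Aff (_D : Datum K I) (M : Type) [AddCommGroup M] : Type := ℕ →₀ M

namespace Aff

variable (D) (M : Type) [AddCommGroup M] [Module K M] [Module (KLRAlg D) M]
  [IsScalarTower K (KLRAlg D) M]

noncomputable instance : AddCommGroup (Aff D M) := inferInstanceAs (AddCommGroup (ℕ →₀ M))
noncomputable instance : Module K (Aff D M) := inferInstanceAs (Module K (ℕ →₀ M))

/-- multiplication by `z` -/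
noncomputable def shift : Module.End K (ℕ →₀ M) := Finsupp.lmapDomain M K Nat.succ

/-- the coefficientwise action -/
noncomputable def coe : KLRAlg D →ₐ[K] Module.End K (ℕ →₀ M) := Algebra.lsmul K K (ℕ →₀ M)

theorem shift_coe (a : KLRAlg D) : shift (K := K) M * coe D M a = coe D M a * shift M := by
  ext d u
  simp [shift, coe]

/-- the action on the affinisation -/
noncomputable def act : KLRAlg D →ₐ[K] Module.End K (ℕ →₀ M) :=
  twz (coe D M) (shift M) (shift_coe D M)

noncomputable instance : Module (KLRAlg D) (Aff D M) :=
  Module.compHom (ℕ →₀ M) (act D M).toRingHom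

instance : IsScalarTower K (KLRAlg D) (Aff D M) where
  smul_assoc r a u := by
    change act D M (r • a) u = r • act D M a u
    rw [map_smul]
    rfl

variable {M}

/-- the element `u z^d` -/
noncomputable def sg (d : ℕ) : M →ₗ[K] Aff D M := Finsupp.lsingle d

variable {D}

theorem sg_apply (d : ℕ) (u : M) : sg D d u = (Finsupp.single d u : ℕ →₀ M) := rfl

theorem smul_def (a : KLRAlg D) (w : Aff D M) : a • w = act D M a w := rfl

theorem e_sg (k : ℕ) (i : I) (d : ℕ) (u : M) : D.e k i • sg D d u = sg D d (D.e k i • u) := by
  rw [smul_def, act, twz_e]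
  refine Eq.trans ?_ (Finsupp.smul_single (D.e k i) d u)
  rfl

theorem t_sg (k : ℕ) (d : ℕ) (u : M) : D.t k • sg D d u = sg D d (D.t k • u) := by
  rw [smul_def, act, twz_t]
  refine Eq.trans ?_ (Finsupp.smul_single (D.t k) d u)
  rfl

theorem x_sg (k : ℕ) (d : ℕ) (u : M) :
    D.x k • sg D d u = sg D d (D.x k • u) + sg D (d + 1) (D.E k • u) := by
  rw [smul_def, act, twz_x]
  simp [coe, shift, sg_apply]
  rfl

theorem E_sg (k : ℕ) (d : ℕ) (u : M) : D.E k • sg D d u = sg D d (D.E k • u) := by
  rw [Datum.E, Finset.sum_smul, Finset.sum_smul, map_sum]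
  exact Finset.sum_congr rfl fun i _ => e_sg k i d u

/-- induction principle -/
theorem ind {P : Aff D M → Prop} (w : Aff D M) (h0 : P 0) (hs : ∀ d u, P (sg D d u))
    (ha : ∀ v w, P v → P w → P (v + w)) : P w := by
  have h : ∀ w : ℕ →₀ M, P w := by
    intro w
    induction w using Finsupp.induction_linear with
    | zero => exact h0
    | add f g hf hg => exact ha f g hf hg
    | single d u => exact hs d u
  exact h w

theorem isStrand {m : ℕ} (h : IsStrand D m M) : IsStrand D m (Aff D M) where
  one k hk w := by
    induction w using ind with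
    | h0 => rw [smul_zero]
    | hs d u => rw [E_sg, h.one k hk]
    | ha v w hv hw => rw [smul_add, hv, hw]
  zero k hk i w := by
    induction w using ind with
    | h0 => rw [smul_zero]
    | hs d u => rw [e_sg, h.zero k hk, map_zero]
    | ha v w hv hw => rw [smul_add, hv, hw, add_zero]

variable (D M) in
/-- multiplication by `z` -/
noncomputable def Z : Aff D M →ₗ[KLRAlg D] Aff D M where
  toFun w := shift (K := K) M w
  map_add' v w := map_add _ v w
  map_smul' a w := by
    have h := LinearMap.congr_fun (twz_comm (coe D M) (shift M) (shift_coe D M) a) w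
    exact h

theorem Z_sg (d : ℕ) (u : M) : Z D M (sg D d u) = sg D (d + 1) u := by
  change shift (K := K) M _ = _
  simp [shift, sg_apply]

variable (D M) in
/-- the constant coefficient -/
noncomputable def ev : Aff D M →ₗ[K] M := Finsupp.lapply 0

theorem ev_sg_zero (u : M) : ev D M (sg D 0 u) = u := by
  change (Finsupp.single 0 u : ℕ →₀ M) 0 = u
  simp

theorem ev_sg_succ (d : ℕ) (u : M) : ev D M (sg D (d + 1) u) = 0 := by
  change (Finsupp.single (d + 1) u : ℕ →₀ M) 0 = 0
  simp

theorem ev_smul (a : KLRAlg D) (w : Aff D M) : ev D M (a • w) = a • ev D M w := by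
  induction a using KLRAlg.induction generalizing w with
  | hs r => rw [algebraMap_smul, algebraMap_smul, map_smul]
  | he k i =>
    induction w using ind with
    | h0 => rw [smul_zero, map_zero, smul_zero]
    | ha v w hv hw => rw [smul_add, map_add, map_add, smul_add, hv, hw]
    | hs d u =>
      rw [e_sg]
      cases d with
      | zero => rw [ev_sg_zero, ev_sg_zero]
      | succ d => rw [ev_sg_succ, ev_sg_succ, smul_zero]
  | ht k =>
    induction w using ind with
    | h0 => rw [smul_zero, map_zero, smul_zero]
    | ha v w hv hw => rw [smul_add, map_add, map_add, smul_add, hv, hw]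
    | hs d u =>
      rw [t_sg]
      cases d with
      | zero => rw [ev_sg_zero, ev_sg_zero]
      | succ d => rw [ev_sg_succ, ev_sg_succ, smul_zero]
  | hx k =>
    induction w using ind with
    | h0 => rw [smul_zero, map_zero, smul_zero]
    | ha v w hv hw => rw [smul_add, map_add, map_add, smul_add, hv, hw]
    | hs d u =>
      rw [x_sg, map_add, ev_sg_succ, add_zero]
      cases d with
      | zero => rw [ev_sg_zero, ev_sg_zero]
      | succ d => rw [ev_sg_succ, ev_sg_succ, smul_zero]
  | hadd a b ha hb => rw [add_smul, add_smul, map_add, ha, hb]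
  | hmul a b ha hb => rw [mul_smul, mul_smul, ha, hb]

variable (D M) in
/-- reduction modulo `z` -/
noncomputable def P : Aff D M →ₗ[KLRAlg D] M where
  toFun w := ev D M w
  map_add' v w := map_add _ v w
  map_smul' a w := ev_smul a w

theorem P_sg_zero (u : M) : P D M (sg D 0 u) = u := ev_sg_zero u

theorem P_sg_succ (d : ℕ) (u : M) : P D M (sg D (d + 1) u) = 0 := ev_sg_succ d u

theorem isAff {m : ℕ} (h : IsStrand D m M) : IsAff D m (Z D M) (P D M) where
  strand := isStrand h
  red :=
    { inj := Finsupp.mapDomain_injective Nat.succ_injective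
      surj := fun u => ⟨sg D 0 u, P_sg_zero u⟩
      ker := by
        apply le_antisymm
        · intro w hw
          have hw0 : (show ℕ →₀ M from w) 0 = 0 := hw
          refine ⟨(Finsupp.comapDomain Nat.succ (show ℕ →₀ M from w)
            Nat.succ_injective.injOn : ℕ →₀ M), ?_⟩
          change Finsupp.mapDomain Nat.succ _ = (w : ℕ →₀ M)
          ext d
          cases d with
          | zero =>
            rw [Finsupp.mapDomain_of_notMem_range]
            · exact hw0.symm
            · rintro ⟨y, hy⟩
              exact Nat.succ_ne_zero y hy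
          | succ d =>
            have h1 := Finsupp.mapDomain_apply Nat.succ_injective
              (Finsupp.comapDomain Nat.succ (show ℕ →₀ M from w) Nat.succ_injective.injOn) d
            exact h1
        · rintro _ ⟨w, rfl⟩
          induction w using ind with
          | h0 => rw [map_zero]; exact Submodule.zero_mem _
          | hs d u => rw [Z_sg]; exact P_sg_succ d u
          | ha v w hv hw => rw [map_add]; exact Submodule.add_mem _ hv hw }

/-- the lift of a vector killed by the dots -/
theorem x_sg_zero {m : ℕ} (h : IsStrand D m M) {u : M} (hu : ∀ k, D.x k • u = 0) (k : ℕ)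
    (hk : k < m) : D.x k • sg D 0 u = Z D M (sg D 0 u) := by
  rw [x_sg, hu, map_zero, zero_add, h.one k hk, Z_sg]

end Aff

end Pool.Agent.KLR
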