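import Pool.Agent.Work.MP_e487d8_al.Alg.Lem

/-! MP_e487d8_al, RMAT block: coloured vectors in modules over the KLR algebra. -/

set_option autoImplicit false

namespace Pool.Agent.KLR

variable {K I : Type} [Field K] [Fintype I] [DecidableEq I]

namespace Datum

variable (D : Datum K I)

theorem E_idem (k : ℕ) : D.E k * D.E k = D.E k := by
  nth_rw 1 [E]
  rw [Finset.sum_mul]
  exact Finset.sum_congr rfl fun j _ => D.e_E k j

end Datum

section col

variable {D : Datum K I} {M : Type*} [AddCommGroup M] [Module (KLRAlg D) M]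

/-- the vector `v` has the colour `i` at the strand `k` -/
def Col (D : Datum K I) {M : Type*} [AddCommGroup M] [Module (KLRAlg D) M] (k : ℕ) (i : I)
    (v : M) : Prop := D.e k i • v = v

namespace Col

theorem add {k : ℕ} {i : I} {v w : M} (h : Col D k i v) (h' : Col D k i w) :
    Col D k i (v + w) := by
  rw [Col] at *
  rw [smul_add, h, h']

theorem sub {k : ℕ} {i : I} {v w : M} (h : Col D k i v) (h' : Col D k i w) :
    Col D k i (v - w) := by
  rw [Col] at *
  rw [smul_sub, h, h']

theorem neg {k : ℕ} {i : I} {v : M} (h : Col D k i v) : Col D k i (-v) := by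
  rw [Col] at *
  rw [smul_neg, h]

theorem zero {k : ℕ} {i : I} : Col D k i (0 : M) := by
  rw [Col, smul_zero]

theorem x {k : ℕ} {i : I} {v : M} (h : Col D k i v) (l : ℕ) : Col D k i (D.x l • v) := by
  rw [Col] at *
  rw [← mul_smul, ← D.x_e, mul_smul, h]

theorem t0 {k : ℕ} {i : I} {v : M} (h : Col D k i v) : Col D (k + 1) i (D.t k • v) := by
  rw [Col] at *
  rw [← mul_smul, ← D.t_e0, mul_smul, h]

theorem t1 {k : ℕ} {i : I} {v : M} (h : Col D (k + 1) i v) : Col D k i (D.t k • v) := by
  rw [Col] at *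
  rw [← mul_smul, ← D.t_e1, mul_smul, h]

theorem t {k l : ℕ} {i : I} {v : M} (h : Col D l i v) (h1 : l ≠ k) (h2 : l ≠ k + 1) :
    Col D l i (D.t k • v) := by
  rw [Col] at *
  rw [← mul_smul, ← D.t_e k l i h1 h2, mul_smul, h]

theorem e {k l : ℕ} {i j : I} {v : M} (h : Col D k i v) : Col D k i (D.e l j • v) := by
  rw [Col] at *
  rw [← mul_smul, D.e_comm, mul_smul, h]

theorem e_ne {k : ℕ} {i j : I} {v : M} (h : Col D k i v) (hij : j ≠ i) : D.e k j • v = 0 := by
  rw [Col] at h
  rw [← h, ← mul_smul, D.e_mul_e_ne k hij, zero_smul]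

theorem mk_e (k : ℕ) (i : I) (v : M) : Col D k i (D.e k i • v) := by
  rw [Col, ← mul_smul, D.e_idem]

theorem E {k : ℕ} {i : I} {v : M} (h : Col D k i v) : D.E k • v = v := by
  rw [Col] at h
  rw [← h, ← mul_smul, D.E_comm, D.e_E]

end Col

theorem dl_eq {k : ℕ} {i : I} {v : M} (h : Col D k i v) (h' : Col D (k + 1) i v) :
    D.dl k • v = v := by
  rw [Datum.dl, Finset.sum_smul, Finset.sum_eq_single i]
  · rw [mul_smul, h', h]
  · intro j _ hj
    rw [mul_smul, h'.e_ne hj, smul_zero]
  · intro h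
    exact absurd (Finset.mem_univ i) h

theorem dl_ne {k : ℕ} {i j : I} {v : M} (h : Col D k i v) (h' : Col D (k + 1) j v) (hij : i ≠ j) :
    D.dl k • v = 0 := by
  rw [Datum.dl, Finset.sum_smul]
  refine Finset.sum_eq_zero fun l _ => ?_
  rw [mul_smul]
  by_cases hl : l = j
  · rw [hl, h', h.e_ne (Ne.symm hij)]
  · rw [h'.e_ne hl, smul_zero]

theorem tx0_ne {k : ℕ} {i j : I} {v : M} (h : Col D k i v) (h' : Col D (k + 1) j v)
    (hij : i ≠ j) : D.x (k + 1) • D.t k • v = D.t k • D.x k • v := by
  rw [← mul_smul (D.t k), D.t_x0, sub_smul, dl_ne h h' hij, sub_zero, mul_smul]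

theorem tx1_ne {k : ℕ} {i j : I} {v : M} (h : Col D k i v) (h' : Col D (k + 1) j v)
    (hij : i ≠ j) : D.x k • D.t k • v = D.t k • D.x (k + 1) • v := by
  rw [← mul_smul (D.t k), D.t_x1, add_smul, dl_ne h h' hij, add_zero, mul_smul]

theorem tx0_eq {k : ℕ} {i : I} {v : M} (h : Col D k i v) (h' : Col D (k + 1) i v) :
    D.x (k + 1) • D.t k • v = D.t k • D.x k • v + v := by
  rw [← mul_smul (D.t k), D.t_x0, sub_smul, dl_eq h h', mul_smul, sub_add_cancel]

theorem tx1_eq {k : ℕ} {i : I} {v : M} (h : Col D k i v) (h' : Col D (k + 1) i v) :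
    D.x k • D.t k • v = D.t k • D.x (k + 1) • v - v := by
  rw [← mul_smul (D.t k), D.t_x1, add_smul, dl_eq h h', mul_smul, add_sub_cancel_right]

theorem tx_far {k l : ℕ} (h : l ≠ k) (h' : l ≠ k + 1) (v : M) :
    D.x l • D.t k • v = D.t k • D.x l • v := by
  rw [← mul_smul, ← D.t_x k l h h', mul_smul]

theorem xx_smul (k l : ℕ) (v : M) : D.x l • D.x k • v = D.x k • D.x l • v := by
  rw [← mul_smul, D.x_comm, mul_smul]

theorem tt_ne {k : ℕ} {i j : I} {v : M} (h : Col D k i v) (h' : Col D (k + 1) j v)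
    (hij : i ≠ j) : D.t k • D.t k • v =
      (D.c i j • (D.x k - D.x (k + 1)) ^ D.q i j) • v := by
  rw [← mul_smul, D.t_t, Finset.sum_smul, Finset.sum_eq_single i]
  · rw [Finset.sum_smul, Finset.sum_eq_single j]
    · rw [if_neg hij, ← smul_mul_assoc, mul_smul, mul_smul, h', h]
    · intro l _ hl
      by_cases hil : i = l
      · rw [if_pos hil, zero_smul]
      · rw [if_neg hil, ← smul_mul_assoc, mul_smul, mul_smul, h'.e_ne hl, smul_zero, smul_zero]
    · intro h
      exact absurd (Finset.mem_univ j) h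
  · intro l _ hl
    rw [Finset.sum_smul]
    refine Finset.sum_eq_zero fun l' _ => ?_
    by_cases hil : l = l'
    · rw [if_pos hil, zero_smul]
    · rw [if_neg hil, ← smul_mul_assoc, mul_smul, D.e_comm, mul_smul, h.e_ne hl, smul_zero,
        smul_zero]
  · intro h
    exact absurd (Finset.mem_univ i) h

theorem tt_eq {k : ℕ} {i : I} {v : M} (h : Col D k i v) (h' : Col D (k + 1) i v) :
    D.t k • D.t k • v = 0 := by
  rw [← mul_smul, D.t_t, Finset.sum_smul]
  refine Finset.sum_eq_zero fun l _ => ?_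
  rw [Finset.sum_smul]
  refine Finset.sum_eq_zero fun l' _ => ?_
  by_cases hil : l = l'
  · rw [if_pos hil, zero_smul]
  · rw [if_neg hil, ← smul_mul_assoc, mul_smul, mul_smul]
    by_cases hl' : l' = i
    · have hl : l ≠ i := fun hh => hil (hh.trans hl'.symm)
      rw [hl', h', h.e_ne hl, smul_zero]
    · rw [h'.e_ne hl', smul_zero, smul_zero]

/-- the correction term of the braid relation -/
noncomputable def bterm (D : Datum K I) (k : ℕ) (i j : I) : KLRAlg D :=
  D.c i j • ∑ p ∈ Finset.range (D.q i j),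
    (D.x k - D.x (k + 1)) ^ p * (D.x (k + 2) - D.x (k + 1)) ^ (D.q i j - 1 - p)

theorem braid_ne {k : ℕ} {i j : I} {v : M} (h : Col D k i v) (h' : Col D (k + 1) j v)
    (h'' : Col D (k + 2) i v) (hij : i ≠ j) :
    D.t (k + 1) • D.t k • D.t (k + 1) • v = D.t k • D.t (k + 1) • D.t k • v +
      bterm D k i j • v := by
  have hb : (D.t (k + 1) * D.t k * D.t (k + 1) - D.t k * D.t (k + 1) * D.t k) • v =
      bterm D k i j • v := by
    rw [D.t_braid, Finset.sum_smul, Finset.sum_eq_single i]
    · rw [Finset.sum_smul, Finset.sum_eq_single j]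
      · rw [if_neg hij, ← smul_mul_assoc, mul_smul, mul_smul, h'', mul_smul, h', h]
        rfl
      · intro l _ hl
        by_cases hil : i = l
        · rw [if_pos hil, zero_smul]
        · rw [if_neg hil, ← smul_mul_assoc, mul_smul, mul_smul, h'', mul_smul, h'.e_ne hl,
            smul_zero, smul_zero]
      · intro h
        exact absurd (Finset.mem_univ j) h
    · intro l _ hl
      rw [Finset.sum_smul]
      refine Finset.sum_eq_zero fun l' _ => ?_
      by_cases hil : l = l'
      · rw [if_pos hil, zero_smul]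
      · rw [if_neg hil, ← smul_mul_assoc, mul_smul, mul_smul, h''.e_ne hl, smul_zero, smul_zero]
    · intro h
      exact absurd (Finset.mem_univ i) h
  rw [sub_smul, sub_eq_iff_eq_add, mul_smul, mul_smul, mul_smul, mul_smul] at hb
  rw [hb, add_comm]

theorem braid_eq {k : ℕ} {i j l : I} {v : M} (h : Col D k i v) (h' : Col D (k + 1) j v)
    (h'' : Col D (k + 2) l v) (hij : i = j ∨ i ≠ l) :
    D.t (k + 1) • D.t k • D.t (k + 1) • v = D.t k • D.t (k + 1) • D.t k • v := by
  have hb : (D.t (k + 1) * D.t k * D.t (k + 1) - D.t k * D.t (k + 1) * D.t k) • v = 0 := by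
    rw [D.t_braid, Finset.sum_smul]
    refine Finset.sum_eq_zero fun a _ => ?_
    rw [Finset.sum_smul]
    refine Finset.sum_eq_zero fun b _ => ?_
    by_cases hab : a = b
    · rw [if_pos hab, zero_smul]
    · rw [if_neg hab, ← smul_mul_assoc, mul_smul, mul_smul]
      by_cases hal : a = l
      · rw [hal, h'', mul_smul]
        by_cases hbj : b = j
        · rw [hbj, h']
          have hli : l ≠ i := by
            rcases hij with h1 | h1
            · rw [h1]
              exact fun hh => hab (hal.trans (hh.trans hbj.symm))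
            · exact Ne.symm h1
          rw [h.e_ne hli, smul_zero]
        · rw [h'.e_ne hbj, smul_zero, smul_zero]
      · rw [h''.e_ne hal, smul_zero, smul_zero]
  rw [sub_smul, sub_eq_zero, mul_smul, mul_smul, mul_smul, mul_smul] at hb
  exact hb

end col

end Pool.Agent.KLR
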