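import Pool.Agent.Work.MP_e487d8_al.Rmat.RF

/-! MP_e487d8_al, RMAT block: simplicity, injectivity, Lemma H. -/

set_option autoImplicit false

namespace Pool.Agent.KLR

variable {K I : Type} [Field K] [Fintype I] [DecidableEq I] {D : Datum K I}

section

variable {n : ℕ} {N N' : Type}
  [AddCommGroup N] [Module K N] [Module (KLRAlg D) N] [IsScalarTower K (KLRAlg D) N]
  [AddCommGroup N'] [Module K N'] [Module (KLRAlg D) N'] [IsScalarTower K (KLRAlg D) N']

theorem injective_of_surjective [FiniteDimensional K N] [FiniteDimensional K N']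
    (h : Module.finrank K N = Module.finrank K N') (f : N →ₗ[KLRAlg D] N')
    (hf : Function.Surjective f) : Function.Injective f :=
  (LinearMap.injective_iff_surjective_of_finrank_eq_finrank (f := Conv.toK f) h).2 hf

theorem surjective_of_injective [FiniteDimensional K N] [FiniteDimensional K N']
    (h : Module.finrank K N = Module.finrank K N') (f : N →ₗ[KLRAlg D] N')
    (hf : Function.Injective f) : Function.Surjective f :=
  (LinearMap.injective_iff_surjective_of_finrank_eq_finrank (f := Conv.toK f) h).1 hf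

omit [Module K N] [IsScalarTower K (KLRAlg D) N] [Module K N'] [IsScalarTower K (KLRAlg D) N'] in
theorem simple_of_equiv (f : N ≃ₗ[KLRAlg D] N') (h : IsSimpleModule (KLRAlg D) N) :
    IsSimpleModule (KLRAlg D) N' := IsSimpleModule.congr f.symm

end

namespace SMod

theorem finrank_conv (hb : S_basis D) (X Y : SMod D) :
    Module.finrank K (X.conv Y) = Module.finrank K (Y.conv X) := by
  rw [Conv.finrank hb X.smp.strand Y.smp.strand, Conv.finrank hb Y.smp.strand X.smp.strand,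
    mul_comm (Module.finrank K X.M), Nat.add_comm Y.n X.n, ← Nat.choose_symm_add]

/-- if `C ∘ X` is simple then `C ∘ X ≅ X ∘ C` -/
theorem equiv_of_comm (hb : S_basis D) {C X : SMod D} (h : C.Comm X)
    {r : C.conv X →ₗ[KLRAlg D] X.conv C} (hr : r ≠ 0) : Function.Bijective r := by
  have h1 : IsSimpleModule (KLRAlg D) (C.conv X) := h
  have := (fdConv hb C X).fd
  have := (fdConv hb X C).fd
  have h2 : Function.Injective r := by
    rcases LinearMap.injective_or_eq_zero r with h3 | h3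
    · exact h3
    · exact absurd h3 hr
  exact ⟨h2, surjective_of_injective (finrank_conv hb C X) r h2⟩

/-- K1: if `C ∘ X` and `X ∘ C` have the same head then `C ∘ X` is simple -/
theorem rf_simple (hb : S_basis D) (C X H : SMod D) (hC : C.Real) (h : Quo D H.M (C.conv X))
    (h' : Quo D H.M (X.conv C)) : C.Comm X := by
  obtain ⟨r, H₀, hd⟩ := exists_HD hb C X hC
  have h1 : sOrd C H = sOrd C C + sOrd C X := by
    rw [← hd.ord, ← sOrd_iso hb C (hd.iso_of_quo h)]
  obtain ⟨g, hg⟩ := h'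
  have h2 : ¬ LinearMap.range r ≤ LinearMap.ker g := by
    intro hle
    have h3 : Quo D H.M (X.conv C ⧸ LinearMap.range r) := by
      refine ⟨Submodule.liftQ _ g hle, ?_⟩
      intro z
      obtain ⟨y, rfl⟩ := hg z
      exact ⟨Submodule.Quotient.mk y, Submodule.liftQ_apply _ _ _⟩
    have h4 := hd.big' H h3
    omega
  have h3 : LinearMap.ker g = ⊥ := by
    by_contra h4
    exact h2 (hd.range_le _ h4)
  have h4 : Function.Bijective g := ⟨LinearMap.ker_eq_bot.1 h3, hg⟩
  have h5 : IsSimpleModule (KLRAlg D) (X.conv C) :=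
    simple_of_equiv (LinearEquiv.ofBijective g h4).symm H.smp.simple
  have h6 : Function.Surjective r := by
    rw [← LinearMap.range_eq_top]
    exact (IsSimpleOrder.eq_bot_or_eq_top (LinearMap.range r)).resolve_left hd.range_ne
  have := (fdConv hb C X).fd
  have := (fdConv hb X C).fd
  have h7 := injective_of_surjective (finrank_conv hb C X) r h6
  exact simple_of_equiv (LinearEquiv.ofBijective r ⟨h7, h6⟩).symm h5

/-- the head is the only simple quotient -/
theorem rf_hd_iso (hb : S_basis D) (C X Z Z' : SMod D) (hC : C.Real) (h : Quo D Z.M (C.conv X))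
    (h' : Quo D Z'.M (C.conv X)) : Z.Iso Z' := by
  obtain ⟨r, H, hd⟩ := exists_HD hb C X hC
  exact (hd.iso_of_quo h).trans (hd.iso_of_quo h').symm

theorem rf_hd (hb : S_basis D) (C X : SMod D) (hC : C.Real) :
    ∃ (H : SMod D) (f : C.conv X →ₗ[KLRAlg D] H.M),
    Function.Surjective f ∧ sOrd C H = sOrd C C + sOrd C X ∧
    ∀ Z : SMod D, SubQ D Z.M (LinearMap.ker f) → sOrd C C + sOrd C X < sOrd C Z := by
  obtain ⟨r, H, hd⟩ := exists_HD hb C X hC
  obtain ⟨f, hf⟩ := hd.quo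
  refine ⟨H, f, hf, hd.ord, ?_⟩
  rw [hd.ker_eq f hf]
  exact hd.big

/-- K4 -/
theorem rf_inj (hb : S_basis D) (C X Y H : SMod D) (hC : C.Real) (h : Quo D H.M (C.conv X))
    (h' : Quo D H.M (C.conv Y)) : X.Iso Y := by
  have hn1 := quo_strand (fdConv hb C X) h
  have hn2 := quo_strand (fdConv hb C Y) h'
  have hn : X.n = Y.n := by omega
  obtain ⟨_, H₁, hd₁⟩ := exists_HD hb C X hC
  obtain ⟨rY, H₂, hd₂⟩ := exists_HD hb C Y hC
  have e1 := hd₁.iso_of_quo h
  have e2 := hd₂.iso_of_quo h'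
  have hs : sOrd C X = sOrd C Y := by
    have h1 := hd₁.ord
    have h2 := hd₂.ord
    rw [← sOrd_iso hb C e1.symm] at h1
    rw [← sOrd_iso hb C e2.symm] at h2
    omega
  have hgY : ∃ g : C.conv X →ₗ[KLRAlg D] Y.conv C, g ≠ 0 := by
    obtain ⟨f, hf⟩ := h
    obtain ⟨a⟩ := e2
    obtain ⟨b⟩ := hd₂.iso
    refine ⟨(LinearMap.range rY).subtype ∘ₗ b.toLinearMap ∘ₗ a.toLinearMap ∘ₗ f, fun h0 => ?_⟩
    obtain ⟨z, hz⟩ := exists_ne (0 : H.M)
    obtain ⟨y, rfl⟩ := hf z
    apply hz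
    have h1 := LinearMap.congr_fun h0 y
    simp only [LinearMap.comp_apply, LinearEquiv.coe_coe, LinearMap.zero_apply,
      Submodule.subtype_apply, ZeroMemClass.coe_eq_zero, LinearEquiv.map_eq_zero_iff] at h1
    exact h1
  obtain ⟨rX, hrX, hX0⟩ := sOrd_spec hb C X
  obtain ⟨g, hg⟩ := hgY
  have hYe : OrdEq C (N := Y.M) (hn ▸ Y.smp.strand : IsStrand D X.n Y.M) (sOrd C X) := by
    rw [hs]
    exact (sOrd_spec hb C Y).cast hn.symm _
  obtain ⟨rY', hrY', hY0⟩ := hYe
  have key : ∀ (k : ℕ) (e : Y.n = k) (g : C.conv X →ₗ[KLRAlg D] Conv D Y.n Y.M C.M) (_ : g ≠ 0),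
      ∃ g : C.conv X →ₗ[KLRAlg D] Conv D k Y.M C.M, g ≠ 0 := by
    intro k e g hg
    subst e
    exact ⟨g, hg⟩
  obtain ⟨g', hg'⟩ := key X.n hn.symm g hg
  exact equiv_of_map hb X.smp.simple Y.smp.simple (hC.scal hb) hrX hrY' hX0 hY0 g' hg'

/-- Lemma H -/
theorem rf_real' (hb : S_basis D) (C M H : SMod D) (hM : M.Real)
    (h : Quo D H.M (M.conv C)) (hc : C.Comm H) : H.Real := by
  obtain ⟨r, H₀, hd⟩ := exists_HD hb M C hM
  -- `H → C ∘ M`
  obtain ⟨a⟩ := hd.iso_of_quo h
  obtain ⟨b⟩ := hd.iso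
  have hinj : Function.Injective ((LinearMap.range r).subtype ∘ₗ b.toLinearMap ∘ₗ a.toLinearMap) := by
    rw [LinearMap.coe_comp, LinearMap.coe_comp]
    exact (LinearMap.range r).subtype_injective.comp (b.injective.comp a.injective)
  obtain ⟨ι₀, hι₀⟩ : ∃ ι₀ : H.M →ₗ[KLRAlg D] C.conv M, Function.Injective ι₀ := ⟨_, hinj⟩
  -- `C ∘ H ≅ H ∘ C`
  obtain ⟨rH, _, hrH⟩ := sOrd_spec hb C H
  have hbij := equiv_of_comm hb hc hrH
  let S : SMod D := ofSmp (n := C.n + H.n) (M := C.conv H)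
    { fdConv hb C H with simple := hc }
  -- `M ∘ S → H ∘ H`
  obtain ⟨f, hf⟩ := h
  have hπ : ∃ π : M.conv S →ₗ[KLRAlg D] H.conv H, Function.Surjective π := by
    have hn : M.n + C.n = H.n := (quo_strand (fdConv hb M C) ⟨f, hf⟩).symm
    refine ⟨(Conv.map hn f (LinearMap.id : H.M →ₗ[KLRAlg D] H.M)) ∘ₗ
      (Conv.assoc D M.n C.n M.M C.M H.M).symm.toLinearMap, ?_⟩
    rw [LinearMap.coe_comp]
    exact (Conv.map_surjective hn f _ hf (fun v => ⟨v, rfl⟩)).comp
      (Conv.assoc D M.n C.n M.M C.M H.M).symm.surjective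
  obtain ⟨π, hπ⟩ := hπ
  -- `H ∘ H → S ∘ M`
  have hι : ∃ ι : H.conv H →ₗ[KLRAlg D] S.conv M, Function.Injective ι := by
    have e : C.conv H ≃ₗ[KLRAlg D] H.conv C := LinearEquiv.ofBijective rH hbij
    have i1 : Function.Injective (Conv.map (rfl : H.n = H.n)
        (LinearMap.id : H.M →ₗ[KLRAlg D] H.M) ι₀) := by
      refine Conv.map_injective (n := H.n) hb rfl H.smp.strand H.smp.strand H.smp.strand ?_ _ _
        (fun _ _ h => h) hι₀
      have h1 : H.n = C.n + M.n := by
        rw [Nat.add_comm]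
        exact quo_strand (fdConv hb M C) ⟨f, hf⟩
      rw [h1]
      exact Conv.isStrand C.smp.strand M.smp.strand
    have i2 : Function.Injective (Conv.map (Nat.add_comm H.n C.n) e.symm.toLinearMap
        (LinearMap.id : M.M →ₗ[KLRAlg D] M.M)) :=
      Conv.map_injective hb (Nat.add_comm H.n C.n) (Conv.isStrand H.smp.strand C.smp.strand)
        M.smp.strand (Conv.isStrand C.smp.strand H.smp.strand) M.smp.strand _ _ e.symm.injective
        (fun _ _ h => h)
    refine ⟨(Conv.map (Nat.add_comm H.n C.n) e.symm.toLinearMap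
        (LinearMap.id : M.M →ₗ[KLRAlg D] M.M)) ∘ₗ
      (Conv.assoc D H.n C.n H.M C.M M.M).symm.toLinearMap ∘ₗ
      (Conv.map (rfl : H.n = H.n) (LinearMap.id : H.M →ₗ[KLRAlg D] H.M) ι₀), ?_⟩
    rw [LinearMap.coe_comp, LinearMap.coe_comp]
    exact i2.comp ((Conv.assoc D H.n C.n H.M C.M M.M).symm.injective.comp i1)
  obtain ⟨ι, hι⟩ := hι
  obtain ⟨rS, T, hT⟩ := exists_HD hb M S hM
  have hHH := nontrivialConv hb H H
  -- the image of `rS` is contained in the image of `ι`
  have h1 : LinearMap.range ι ≠ ⊥ := by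
    intro h0
    obtain ⟨z, hz⟩ := exists_ne (0 : H.conv H)
    apply hz
    apply hι
    rw [LinearMap.range_eq_bot.1 h0, LinearMap.zero_apply, LinearMap.zero_apply]
  have h2 := hT.range_le _ h1
  obtain ⟨b'⟩ := hT.iso
  set B : Submodule (KLRAlg D) (H.conv H) := (LinearMap.range rS).comap ι with hB
  -- `B ≅ T`
  have h3 : ∃ q : B →ₗ[KLRAlg D] T.M, Function.Bijective q := by
    let q₀ : B →ₗ[KLRAlg D] LinearMap.range rS := (ι ∘ₗ B.subtype).codRestrict (LinearMap.range rS)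
      (fun y => y.2)
    have hq₀ : Function.Bijective q₀ := by
      constructor
      · intro y y' hyy
        have h4 : ι y = ι y' := congrArg Subtype.val hyy
        exact Subtype.ext (hι h4)
      · rintro ⟨z, hz⟩
        obtain ⟨y, hy⟩ := h2 hz
        refine ⟨⟨y, ?_⟩, Subtype.ext hy⟩
        rw [hB, Submodule.mem_comap, hy]
        exact hz
    refine ⟨b'.symm.toLinearMap ∘ₗ q₀, ?_⟩
    rw [LinearMap.coe_comp]
    exact b'.symm.bijective.comp hq₀
  obtain ⟨q, hq⟩ := h3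
  by_cases hBt : B = ⊤
  · have h4 : IsSimpleModule (KLRAlg D) B :=
      simple_of_equiv (LinearEquiv.ofBijective q hq).symm T.smp.simple
    rw [hBt] at h4
    exact simple_of_equiv (Submodule.topEquiv (R := KLRAlg D) (M := H.conv H)) h4
  · exfalso
    have h4 : B.comap π ≠ ⊤ := by
      intro h0
      apply hBt
      rw [eq_top_iff]
      intro z _
      obtain ⟨y, rfl⟩ := hπ z
      have h5 : y ∈ B.comap π := by rw [h0]; trivial
      exact h5
    have h5 := hT.le_ker _ h4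
    have h6 : SubQ D T.M (LinearMap.ker rS) := by
      let P : Submodule (KLRAlg D) (LinearMap.ker rS) := (B.comap π).comap (LinearMap.ker rS).subtype
      let q₁ : P →ₗ[KLRAlg D] B := (π ∘ₗ (LinearMap.ker rS).subtype ∘ₗ P.subtype).codRestrict B
        (fun y => y.2)
      refine ⟨P, q ∘ₗ q₁, ?_⟩
      rw [LinearMap.coe_comp]
      refine hq.2.comp ?_
      rintro ⟨z, hz⟩
      obtain ⟨y, rfl⟩ := hπ z
      exact ⟨⟨⟨y, h5 hz⟩, hz⟩, rfl⟩
    have h7 := hT.big T h6
    have h8 := hT.ord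
    omega

/-- no strands -/
theorem rf_one (hb : S_basis D) (C X : SMod D) (h : C.n = 0) : sOrd C X = 0 := by
  apply sOrd_eq hb
  obtain ⟨r, hr⟩ := Lead.zero hb (Aff.isAff C.smp.strand) X.smp.strand
  refine ⟨r, hr, fun h0 => ?_⟩
  obtain ⟨T, hT, hT'⟩ := hr
  obtain ⟨u, hu⟩ := exists_ne (0 : C.M)
  obtain ⟨v, hv⟩ := exists_ne (0 : X.M)
  have h1 := LinearMap.congr_fun hT' (Conv.mk D C.n (Aff D C.M) X.M (Aff.sg D 0 u) v)
  have h2 := LinearMap.congr_fun hT (Conv.mk D C.n (Aff D C.M) X.M (Aff.sg D 0 u) v)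
  rw [pow_zero] at h2
  have h3 : T (Conv.mk D C.n (Aff D C.M) X.M (Aff.sg D 0 u) v) =
      D.Ph X.n C.n • Conv.mk D X.n X.M (Aff D C.M) v (Aff.sg D 0 u) := by
    rw [← Conv.Rm_mk (Aff.isAff C.smp.strand).strand X.smp.strand]
    exact h2.symm
  rw [LinearMap.comp_apply, h3, h0, LinearMap.zero_comp, LinearMap.zero_apply, map_smul,
    Conv.map_mk, Aff.P_sg_zero, LinearMap.id_apply, h, D.Ph_zero, one_smul] at h1
  rcases Conv.mk_eq_zero hb X.smp.strand C.smp.strand h1 with h4 | h4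
  · exact hv h4
  · exact hu h4

end SMod

end Pool.Agent.KLR
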