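import Pool.Agent.Work.MP_e487d8_al.Rmat.Lead

/-! MP_e487d8_al, RMAT block: the leading term of the R-matrix for a convolution product. -/

set_option autoImplicit false

namespace Pool.Agent.KLR

variable {K I : Type} [Field K] [Fintype I] [DecidableEq I] {D : Datum K I}

namespace Conv

section

variable {m m' n n' l : ℕ} {M N L M' N' L' : Type}
  [AddCommGroup M] [Module K M] [Module (KLRAlg D) M] [IsScalarTower K (KLRAlg D) M]
  [AddCommGroup N] [Module K N] [Module (KLRAlg D) N] [IsScalarTower K (KLRAlg D) N]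
  [AddCommGroup L] [Module K L] [Module (KLRAlg D) L] [IsScalarTower K (KLRAlg D) L]
  [AddCommGroup M'] [Module K M'] [Module (KLRAlg D) M'] [IsScalarTower K (KLRAlg D) M']
  [AddCommGroup N'] [Module K N'] [Module (KLRAlg D) N'] [IsScalarTower K (KLRAlg D) N']
  [AddCommGroup L'] [Module K L'] [Module (KLRAlg D) L'] [IsScalarTower K (KLRAlg D) L']

/-- naturality of the associativity -/
theorem assoc_map (f : M →ₗ[KLRAlg D] M') (g : N →ₗ[KLRAlg D] N') (h : L →ₗ[KLRAlg D] L') :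
    (assoc D m n M' N' L').toLinearMap ∘ₗ (map (rfl : m + n = m + n) (map (rfl : m = m) f g) h) =
      (map (rfl : m = m) f (map (rfl : n = n) g h)) ∘ₗ (assoc D m n M N L).toLinearMap := by
  apply hom_ext₃
  intro u v w
  simp

theorem assoc_symm_map (f : M →ₗ[KLRAlg D] M') (g : N →ₗ[KLRAlg D] N')
    (h : L →ₗ[KLRAlg D] L') :
    (assoc D m n M' N' L').symm.toLinearMap ∘ₗ
        (map (rfl : m = m) f (map (rfl : n = n) g h)) =
      (map (rfl : m + n = m + n) (map (rfl : m = m) f g) h) ∘ₗ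
        (assoc D m n M N L).symm.toLinearMap := by
  apply hom_ext₃'
  intro u v w
  simp

theorem map_pow_left (G : M →ₗ[KLRAlg D] M) (s : ℕ) :
    map (rfl : m = m) (G ^ s) (LinearMap.id : N →ₗ[KLRAlg D] N) =
      (map (rfl : m = m) G (LinearMap.id : N →ₗ[KLRAlg D] N)) ^ s := by
  induction s with
  | zero =>
    rw [pow_zero, pow_zero]
    exact map_id
  | succ s ih =>
    rw [pow_succ, pow_succ, ← ih, Module.End.mul_eq_comp, Module.End.mul_eq_comp, map_comp,
      LinearMap.id_comp]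

theorem map_pow_right (G : N →ₗ[KLRAlg D] N) (s : ℕ) :
    map (rfl : m = m) (LinearMap.id : M →ₗ[KLRAlg D] M) (G ^ s) =
      (map (rfl : m = m) (LinearMap.id : M →ₗ[KLRAlg D] M) G) ^ s := by
  induction s with
  | zero =>
    rw [pow_zero, pow_zero]
    exact map_id
  | succ s ih =>
    rw [pow_succ, pow_succ, ← ih, Module.End.mul_eq_comp, Module.End.mul_eq_comp, map_comp,
      LinearMap.id_comp]

end

section

variable {m m' n : ℕ} {A A₀ B B₀ N : Type}
  [AddCommGroup A] [Module K A] [Module (KLRAlg D) A] [IsScalarTower K (KLRAlg D) A]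
  [AddCommGroup A₀] [Module K A₀] [Module (KLRAlg D) A₀] [IsScalarTower K (KLRAlg D) A₀]
  [AddCommGroup B] [Module K B] [Module (KLRAlg D) B] [IsScalarTower K (KLRAlg D) B]
  [AddCommGroup B₀] [Module K B₀] [Module (KLRAlg D) B₀] [IsScalarTower K (KLRAlg D) B₀]
  [AddCommGroup N] [Module K N] [Module (KLRAlg D) N] [IsScalarTower K (KLRAlg D) N]

theorem Ld_left (h : m = m') {p : A →ₗ[KLRAlg D] A₀} {G : B →ₗ[KLRAlg D] B}
    {q : B →ₗ[KLRAlg D] B₀} {T : A →ₗ[KLRAlg D] B} {s : ℕ} {r : A₀ →ₗ[KLRAlg D] B₀}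
    (hT : Ld p G q T s r) :
    Ld (map (rfl : m = m) p (LinearMap.id : N →ₗ[KLRAlg D] N))
      (map (rfl : m' = m') G (LinearMap.id : N →ₗ[KLRAlg D] N))
      (map (rfl : m' = m') q (LinearMap.id : N →ₗ[KLRAlg D] N))
      (map h T (LinearMap.id : N →ₗ[KLRAlg D] N)) s
      (map h r (LinearMap.id : N →ₗ[KLRAlg D] N)) := by
  obtain ⟨S, hS, hr⟩ := hT
  refine ⟨map h S LinearMap.id, ?_, ?_⟩
  · rw [← map_pow_left, map_comp, hS, LinearMap.id_comp]
  · rw [map_comp, map_comp, hr]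

theorem Ld_right {p : A →ₗ[KLRAlg D] A₀} {G : B →ₗ[KLRAlg D] B}
    {q : B →ₗ[KLRAlg D] B₀} {T : A →ₗ[KLRAlg D] B} {s : ℕ} {r : A₀ →ₗ[KLRAlg D] B₀}
    (hT : Ld p G q T s r) :
    Ld (map (rfl : n = n) (LinearMap.id : N →ₗ[KLRAlg D] N) p)
      (map (rfl : n = n) (LinearMap.id : N →ₗ[KLRAlg D] N) G)
      (map (rfl : n = n) (LinearMap.id : N →ₗ[KLRAlg D] N) q)
      (map (rfl : n = n) (LinearMap.id : N →ₗ[KLRAlg D] N) T) s
      (map (rfl : n = n) (LinearMap.id : N →ₗ[KLRAlg D] N) r) := by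
  obtain ⟨S, hS, hr⟩ := hT
  refine ⟨map rfl LinearMap.id S, ?_, ?_⟩
  · rw [← map_pow_right, map_comp, hS, LinearMap.id_comp]
  · rw [map_comp, map_comp, hr]

end

end Conv

section

variable {m n l : ℕ} {W C N L : Type}
  [AddCommGroup W] [Module K W] [Module (KLRAlg D) W] [IsScalarTower K (KLRAlg D) W]
  [AddCommGroup C] [Module K C] [Module (KLRAlg D) C] [IsScalarTower K (KLRAlg D) C]
  [AddCommGroup N] [Module K N] [Module (KLRAlg D) N] [IsScalarTower K (KLRAlg D) N]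
  [AddCommGroup L] [Module K L] [Module (KLRAlg D) L] [IsScalarTower K (KLRAlg D) L]
  {Z : W →ₗ[KLRAlg D] W} {p : W →ₗ[KLRAlg D] C}

/-- the R-matrix of a convolution product -/
theorem Lead.conv {hA : IsAff D m Z p} {hN : IsStrand D n N} {hL : IsStrand D l L}
    {s s' : ℕ} {r : Conv D m C N →ₗ[KLRAlg D] Conv D n N C}
    {r' : Conv D m C L →ₗ[KLRAlg D] Conv D l L C}
    (h : Lead hA hN s r) (h' : Lead hA hL s' r') :
    ∃ ρ, Lead hA (Conv.isStrand hN hL) (s + s') ρ ∧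
      (Conv.assoc D n l N L C).toLinearMap ∘ₗ ρ =
        (Conv.map (rfl : n = n) (LinearMap.id : N →ₗ[KLRAlg D] N) r') ∘ₗ
          (Conv.assoc D n m N C L).toLinearMap ∘ₗ
            (Conv.map (Nat.add_comm m n) r (LinearMap.id : L →ₗ[KLRAlg D] L)) ∘ₗ
              (Conv.assoc D m n C N L).symm.toLinearMap := by
  have i1 : Conv.map (rfl : m = m) (LinearMap.id : W →ₗ[KLRAlg D] W)
      (LinearMap.id : N →ₗ[KLRAlg D] N) = LinearMap.id := Conv.map_id
  have eNL : (LinearMap.id : Conv D n N L →ₗ[KLRAlg D] Conv D n N L) =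
    Conv.map (rfl : n = n) LinearMap.id LinearMap.id := Conv.map_id.symm
  -- the five steps
  have l1 : Ld (Conv.map (rfl : m = m) p (LinearMap.id : Conv D n N L →ₗ[KLRAlg D] _))
      (Conv.map (rfl : m + n = m + n) (Conv.map (rfl : m = m) Z
        (LinearMap.id : N →ₗ[KLRAlg D] N)) (LinearMap.id : L →ₗ[KLRAlg D] L))
      (Conv.map (rfl : m + n = m + n) (Conv.map (rfl : m = m) p
        (LinearMap.id : N →ₗ[KLRAlg D] N)) (LinearMap.id : L →ₗ[KLRAlg D] L))
      (Conv.assoc D m n W N L).symm.toLinearMap 0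
      (Conv.assoc D m n C N L).symm.toLinearMap := by
    apply Ld.of_comm
    rw [eNL, Conv.assoc_symm_map]
  have l2 := Conv.Ld_left (N := L) (Nat.add_comm m n) h
  have l3 : Ld (Conv.map (rfl : n + m = n + m) (Conv.map (rfl : n = n)
        (LinearMap.id : N →ₗ[KLRAlg D] N) p) (LinearMap.id : L →ₗ[KLRAlg D] L))
      (Conv.map (rfl : n = n) (LinearMap.id : N →ₗ[KLRAlg D] N)
        (Conv.map (rfl : m = m) Z (LinearMap.id : L →ₗ[KLRAlg D] L)))
      (Conv.map (rfl : n = n) (LinearMap.id : N →ₗ[KLRAlg D] N)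
        (Conv.map (rfl : m = m) p (LinearMap.id : L →ₗ[KLRAlg D] L)))
      (Conv.assoc D n m N W L).toLinearMap 0 (Conv.assoc D n m N C L).toLinearMap := by
    apply Ld.of_comm
    rw [Conv.assoc_map]
  have l4 := Conv.Ld_right (n := n) (N := N) h'
  have l5 : Ld (Conv.map (rfl : n = n) (LinearMap.id : N →ₗ[KLRAlg D] N)
        (Conv.map (rfl : l = l) (LinearMap.id : L →ₗ[KLRAlg D] L) p))
      (Conv.map (rfl : n + l = n + l) (LinearMap.id : Conv D n N L →ₗ[KLRAlg D] _) Z)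
      (Conv.map (rfl : n + l = n + l) (LinearMap.id : Conv D n N L →ₗ[KLRAlg D] _) p)
      (Conv.assoc D n l N L W).symm.toLinearMap 0
      (Conv.assoc D n l N L C).symm.toLinearMap := by
    apply Ld.of_comm
    rw [eNL, Conv.assoc_symm_map]
  have c2 : (Conv.map (Nat.add_comm m n) (Conv.Rm hA.strand hN)
      (LinearMap.id : L →ₗ[KLRAlg D] L)) ∘ₗ (Conv.map (rfl : m + n = m + n)
        (Conv.map (rfl : m = m) Z (LinearMap.id : N →ₗ[KLRAlg D] N))
          (LinearMap.id : L →ₗ[KLRAlg D] L)) =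
      (Conv.map (rfl : n + m = n + m) (Conv.map (rfl : n = n)
        (LinearMap.id : N →ₗ[KLRAlg D] N) Z) (LinearMap.id : L →ₗ[KLRAlg D] L)) ∘ₗ
      (Conv.map (Nat.add_comm m n) (Conv.Rm hA.strand hN)
        (LinearMap.id : L →ₗ[KLRAlg D] L)) := by
    rw [Conv.map_comp, Conv.map_comp, Rm_comm hA hN]
  have c4 : (Conv.map (rfl : n = n) (LinearMap.id : N →ₗ[KLRAlg D] N)
      (Conv.Rm hA.strand hL)) ∘ₗ (Conv.map (rfl : n = n) (LinearMap.id : N →ₗ[KLRAlg D] N)
        (Conv.map (rfl : m = m) Z (LinearMap.id : L →ₗ[KLRAlg D] L))) =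
      (Conv.map (rfl : n = n) (LinearMap.id : N →ₗ[KLRAlg D] N)
        (Conv.map (rfl : l = l) (LinearMap.id : L →ₗ[KLRAlg D] L) Z)) ∘ₗ
      (Conv.map (rfl : n = n) (LinearMap.id : N →ₗ[KLRAlg D] N) (Conv.Rm hA.strand hL)) := by
    rw [Conv.map_comp, Conv.map_comp, Rm_comm hA hL]
  have c3 := Conv.assoc_map (D := D) (m := n) (n := m) (LinearMap.id : N →ₗ[KLRAlg D] N) Z
    (LinearMap.id : L →ₗ[KLRAlg D] L)
  have c5 : (Conv.assoc D n l N L W).symm.toLinearMap ∘ₗ
      (Conv.map (rfl : n = n) (LinearMap.id : N →ₗ[KLRAlg D] N)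
        (Conv.map (rfl : l = l) (LinearMap.id : L →ₗ[KLRAlg D] L) Z)) =
      (Conv.map (rfl : n + l = n + l) (LinearMap.id : Conv D n N L →ₗ[KLRAlg D] _) Z) ∘ₗ
      (Conv.assoc D n l N L W).symm.toLinearMap := by
    rw [eNL, Conv.assoc_symm_map]
  have h12 := l1.comp l2 c2
  have h13 := h12.comp l3 c3
  have h14 := h13.comp l4 c4
  have h15 := h14.comp l5 c5
  rw [show 0 + s + 0 + s' + 0 = s + s' by omega] at h15
  refine ⟨(Conv.assoc D n l N L C).symm.toLinearMap ∘ₗ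
      (Conv.map (rfl : n = n) (LinearMap.id : N →ₗ[KLRAlg D] N) r') ∘ₗ
          (Conv.assoc D n m N C L).toLinearMap ∘ₗ
            (Conv.map (Nat.add_comm m n) r (LinearMap.id : L →ₗ[KLRAlg D] L)) ∘ₗ
              (Conv.assoc D m n C N L).symm.toLinearMap, ?_, ?_⟩
  · have hx := Conv.Rm_hex hA.strand hN hL
    have hR : Conv.Rm hA.strand (Conv.isStrand hN hL) =
        (Conv.assoc D n l N L W).symm.toLinearMap ∘ₗ
        (Conv.map (rfl : n = n) (LinearMap.id : N →ₗ[KLRAlg D] N) (Conv.Rm hA.strand hL)) ∘ₗ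
        (Conv.assoc D n m N W L).toLinearMap ∘ₗ
          (Conv.map (Nat.add_comm m n) (Conv.Rm hA.strand hN)
            (LinearMap.id : L →ₗ[KLRAlg D] L)) ∘ₗ
            (Conv.assoc D m n W N L).symm.toLinearMap := by
      rw [← hx, ← LinearMap.comp_assoc]
      ext z
      simp
    rw [Lead, hR]
    simpa only [LinearMap.comp_assoc] using h15
  · ext z
    simp

end

end Pool.Agent.KLR
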