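import Pool.Agent.Work.MP_e487d8_al.Rmat.Eig
import Pool.Agent.Work.MP_e487d8_al.Rmat.KK

/-! MP_e487d8_al, RMAT block: the order of vanishing of the R-matrix `C_z ∘ N → N ∘ C_z`. -/

set_option autoImplicit false

namespace Pool.Agent.KLR

variable {K I : Type} [Field K] [Fintype I] [DecidableEq I] {D : Datum K I}

section

variable {m n : ℕ} {W C N : Type}
  [AddCommGroup W] [Module K W] [Module (KLRAlg D) W] [IsScalarTower K (KLRAlg D) W]
  [AddCommGroup C] [Module K C] [Module (KLRAlg D) C] [IsScalarTower K (KLRAlg D) C]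
  [AddCommGroup N] [Module K N] [Module (KLRAlg D) N] [IsScalarTower K (KLRAlg D) N]
  {Z : W →ₗ[KLRAlg D] W} {p : W →ₗ[KLRAlg D] C}

/-- `w` is a lift of a common eigenvector: all dots act as `Z` -/
structure EigW (D : Datum K I) {W : Type} [AddCommGroup W] [Module (KLRAlg D) W]
    (Z : W →ₗ[KLRAlg D] W) (ν : List I) (w : W) : Prop where
  word : D.eW ν • w = w
  dot : ∀ k < ν.length, D.x k • w = Z w

/-- the square of the R-matrix on eigenvectors -/
theorem sq_eig (hA : IsAff D m Z p) (hN : IsStrand D n N) {ν μ : List I} {w : W} {v : N}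
    (hw : EigW D Z ν w) (hν : ν.length = m) (hv : Eig D μ v) (hμ : μ.length = n) :
    ∃ c : K, c ≠ 0 ∧ Conv.Rm hN hA.strand (Conv.Rm hA.strand hN (Conv.mk D m W N w v)) =
      c • ((Conv.map (rfl : m = m) Z (LinearMap.id : N →ₗ[KLRAlg D] N)) ^ (D.qL ν μ))
        (Conv.mk D m W N w v) := by
  subst hν
  subst hμ
  rw [Conv.Rm_Rm_mk]
  refine QP_vec (Conv.map (rfl : ν.length = ν.length) Z (LinearMap.id : N →ₗ[KLRAlg D] N)) ν ?_ ?_
    μ ν.length ?_ ?_
  · rw [← D.tr_eW ν le_rfl, Conv.tr_smul_mk, hw.word]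
  · intro k hk
    have h1 : D.tr ν.length (D.x k) = D.x k := by rw [D.tr_x, if_pos hk]
    rw [← h1, Conv.tr_smul_mk, hw.dot k hk, Conv.map_mk, LinearMap.id_apply]
  · rw [Conv.shn_smul_mk, hv.word]
  · intro l hl
    have h1 : D.shn ν.length (D.x (l - ν.length)) = D.x l := by
      rw [D.shn_x, show ν.length + (l - ν.length) = l by omega]
    rw [← h1, Conv.shn_smul_mk, hv.dot, map_zero]

/-- no leading term of the product has order larger than `qL` -/
theorem sq_order (hb : S_basis D) (hA : IsAff D m Z p) (hN : IsStrand D n N) {ν μ : List I}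
    {w : W} {v : N} (hw : EigW D Z ν w) (hpw : p w ≠ 0) (hν : ν.length = m) (hv : Eig D μ v)
    (hμ : μ.length = n) {s : ℕ} {y : Conv D m W N}
    (h : Conv.Rm hN hA.strand (Conv.Rm hA.strand hN (Conv.mk D m W N w v)) =
      ((Conv.map (rfl : m = m) Z (LinearMap.id : N →ₗ[KLRAlg D] N)) ^ s) y) :
    s ≤ D.qL ν μ ∧ (s < D.qL ν μ →
      Conv.map (rfl : m = m) p (LinearMap.id : N →ₗ[KLRAlg D] N) y = 0) := by
  have hred := hA.redL hb hN
  obtain ⟨c, hc, h1⟩ := sq_eig hA hN hw hν hv hμ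
  rw [h1] at h
  set F := Conv.map (rfl : m = m) Z (LinearMap.id : N →ₗ[KLRAlg D] N) with hF
  have hpow : ∀ (t e : ℕ) (z : Conv D m W N), (F ^ (t + e)) z = (F ^ t) ((F ^ e) z) := by
    intro t e z
    rw [pow_add]
    rfl
  have hcF : ∀ (t : ℕ) (z : Conv D m W N), c • (F ^ t) z = (F ^ t) (c • z) := by
    intro t z
    rw [← algebraMap_smul (KLRAlg D) c, ← algebraMap_smul (KLRAlg D) c z, map_smul]
  constructor
  · by_contra hlt
    obtain ⟨e, he⟩ : ∃ e, s = D.qL ν μ + (1 + e) := ⟨s - D.qL ν μ - 1, by omega⟩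
    rw [he, hpow, hcF] at h
    have h2 := hred.pow_inj _ h
    rw [hpow, pow_one] at h2
    have h3 := congrArg (Conv.map (rfl : m = m) p (LinearMap.id : N →ₗ[KLRAlg D] N)) h2
    rw [hred.apply_eq, ← algebraMap_smul (KLRAlg D) c, map_smul, algebraMap_smul, Conv.map_mk,
      LinearMap.id_apply] at h3
    rcases smul_eq_zero.1 h3 with h4 | h4
    · exact hc h4
    · rcases Conv.mk_eq_zero hb hA.strandC hN h4 with h5 | h5
      · exact hpw h5
      · exact hv.ne h5
  · intro hlt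
    obtain ⟨e, he⟩ : ∃ e, D.qL ν μ = s + (1 + e) := ⟨D.qL ν μ - s - 1, by omega⟩
    rw [he, hpow, hcF] at h
    have h2 := hred.pow_inj _ h
    rw [← h2, hpow, pow_one, ← algebraMap_smul (KLRAlg D) c, map_smul, hred.apply_eq, smul_zero]

theorem Lead.le_qL (hb : S_basis D) {hA : IsAff D m Z p} {hN : IsStrand D n N} {s : ℕ}
    {r : Conv D m C N →ₗ[KLRAlg D] Conv D n N C} (h : Lead hA hN s r) {ν μ : List I}
    {w : W} {v : N} (hw : EigW D Z ν w) (hpw : p w ≠ 0) (hν : ν.length = m) (hv : Eig D μ v)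
    (hμ : μ.length = n) : s ≤ D.qL ν μ := by
  obtain ⟨T, hT, _⟩ := h
  have hcm : (Conv.Rm hN hA.strand) ∘ₗ
      (Conv.map (rfl : n = n) (LinearMap.id : N →ₗ[KLRAlg D] N) Z) =
      (Conv.map (rfl : m = m) Z (LinearMap.id : N →ₗ[KLRAlg D] N)) ∘ₗ
        (Conv.Rm hN hA.strand) := (Conv.Rm_map hN hA.strand hN hA.strand LinearMap.id Z).symm
  have h1 : Conv.Rm hN hA.strand (Conv.Rm hA.strand hN (Conv.mk D m W N w v)) =
      ((Conv.map (rfl : m = m) Z (LinearMap.id : N →ₗ[KLRAlg D] N)) ^ s)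
        (Conv.Rm hN hA.strand (T (Conv.mk D m W N w v))) := by
    rw [hT]
    exact LinearMap.congr_fun (Ld.comm_pow hcm s) (T (Conv.mk D m W N w v))
  exact (sq_order hb hA hN hw hpw hν hv hμ h1).1

/-- a leading term which is not zero -/
theorem Lead.exists_ne (hb : S_basis D) (hA : IsAff D m Z p) (hN : IsStrand D n N) {B : ℕ}
    (hB : ∀ (s : ℕ) (r : Conv D m C N →ₗ[KLRAlg D] Conv D n N C), Lead hA hN s r → s ≤ B) :
    ∃ (s : ℕ) (r : Conv D m C N →ₗ[KLRAlg D] Conv D n N C), Lead hA hN s r ∧ r ≠ 0 := by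
  by_contra hne
  push Not at hne
  have h1 : ∀ s : ℕ, ∃ r, Lead hA hN s r := by
    intro s
    induction s with
    | zero => exact Lead.zero hb hA hN
    | succ s ih =>
      obtain ⟨r, hr⟩ := ih
      have h0 := hne s r hr
      rw [h0] at hr
      exact hr.succ hb
  obtain ⟨r, hr⟩ := h1 (B + 1)
  exact absurd (hB _ _ hr) (by omega)

end

/-! ### the order for a module `C` with its affinisation `Aff D C` -/

section ord

variable {n n' : ℕ} {N N' : Type}
  [AddCommGroup N] [Module K N] [Module (KLRAlg D) N] [IsScalarTower K (KLRAlg D) N]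
  [AddCommGroup N'] [Module K N'] [Module (KLRAlg D) N'] [IsScalarTower K (KLRAlg D) N']

/-- the R-matrix `C_z ∘ N → N ∘ C_z` is divisible by `z ^ s` -/
def OrdGe (C : SMod D) (hN : IsStrand D n N) (s : ℕ) : Prop :=
  ∃ r, Lead (Aff.isAff C.smp.strand) hN s r

/-- the R-matrix `C_z ∘ N → N ∘ C_z` is exactly divisible by `z ^ s` -/
def OrdEq (C : SMod D) (hN : IsStrand D n N) (s : ℕ) : Prop :=
  ∃ r, Lead (Aff.isAff C.smp.strand) hN s r ∧ r ≠ 0

theorem OrdEq.ge {C : SMod D} {hN : IsStrand D n N} {s : ℕ} (h : OrdEq C hN s) : OrdGe C hN s :=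
  h.elim fun r hr => ⟨r, hr.1⟩

theorem OrdGe.le (hb : S_basis D) {C : SMod D} {hN : IsStrand D n N} {s s' : ℕ}
    (h : OrdGe C hN s) (h' : OrdEq C hN s') : s ≤ s' :=
  h.elim fun _ hr => h'.elim fun _ hr' => hr.le_of_ne hb hr'.1 hr'.2

theorem OrdEq.unique (hb : S_basis D) {C : SMod D} {hN : IsStrand D n N} {s s' : ℕ}
    (h : OrdEq C hN s) (h' : OrdEq C hN s') : s = s' :=
  le_antisymm (h.ge.le hb h') (h'.ge.le hb h)

theorem OrdGe.cast {C : SMod D} {hN : IsStrand D n N} {s : ℕ} (h : OrdGe C hN s) (e : n = n')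
    (hN' : IsStrand D n' N) : OrdGe C hN' s := by
  subst e
  exact h

theorem OrdEq.cast {C : SMod D} {hN : IsStrand D n N} {s : ℕ} (h : OrdEq C hN s) (e : n = n')
    (hN' : IsStrand D n' N) : OrdEq C hN' s := by
  subst e
  exact h

theorem OrdGe.sub (hb : S_basis D) {C : SMod D} {hN : IsStrand D n N} {s : ℕ} (h : OrdGe C hN s)
    (hN' : IsStrand D n N') (i : N' →ₗ[KLRAlg D] N) (hi : Function.Injective i) :
    OrdGe C hN' s := h.elim fun _ hr => hr.sub hb hN' i hi

theorem OrdGe.quot (hb : S_basis D) {C : SMod D} {hN : IsStrand D n N} {s : ℕ} (h : OrdGe C hN s)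
    (hN' : IsStrand D n N') (g : N →ₗ[KLRAlg D] N') (hg : Function.Surjective g) :
    OrdGe C hN' s := h.elim fun _ hr => hr.quot hb hN' g hg

theorem OrdEq.congr (hb : S_basis D) {C : SMod D} {hN : IsStrand D n N} {s : ℕ} (h : OrdEq C hN s)
    (hN' : IsStrand D n N') (f : N ≃ₗ[KLRAlg D] N') : OrdEq C hN' s := by
  obtain ⟨r, hr, hr0⟩ := h
  obtain ⟨r', hr'⟩ := hr.quot hb hN' f.toLinearMap f.surjective
  refine ⟨r', hr', fun h0 => hr0 ?_⟩
  have h1 := Lead.natural hb hr' hr f.symm.toLinearMap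
  rw [h0, LinearMap.comp_zero] at h1
  have h2 : Function.Surjective (Conv.map (rfl : C.n = C.n) (LinearMap.id : C.M →ₗ[KLRAlg D] C.M)
      f.symm.toLinearMap) := Conv.map_surjective rfl _ _ (fun v => ⟨v, rfl⟩) f.symm.surjective
  ext z
  obtain ⟨z, rfl⟩ := h2 z
  rw [LinearMap.zero_apply]
  exact (LinearMap.congr_fun h1 z).symm

/-- the lift of a common eigenvector to the affinisation -/
theorem Eig.lift {m : ℕ} {M : Type} [AddCommGroup M] [Module K M] [Module (KLRAlg D) M]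
    [IsScalarTower K (KLRAlg D) M] (h : IsStrand D m M) {ν : List I} {u : M} (hu : Eig D ν u)
    (hν : ν.length = m) : EigW D (Aff.Z D M) ν (Aff.sg D 0 u) where
  word := by
    have key : ∀ (μ : List I) (p : ℕ) (v : M),
        D.shn p (D.eW μ) • Aff.sg D 0 v = Aff.sg D 0 (D.shn p (D.eW μ) • v) := by
      intro μ
      induction μ with
      | nil => intro p v; rw [D.eW_nil, map_one, one_smul, one_smul]
      | cons j μ ih =>
        intro p v
        rw [D.eW_cons, map_mul, D.shn_shn, D.shn_e, mul_smul, mul_smul, ih, Aff.e_sg]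
    have h1 := key ν 0 u
    rwa [D.shn_zero, hu.word] at h1
  dot := by
    intro k hk
    exact Aff.x_sg_zero h hu.dot k (by omega)

/-- every finite dimensional nilpotent module has an order -/
theorem OrdEq.exists (hb : S_basis D) (C : SMod D) (hN : FdMod D n N) [Nontrivial N] :
    ∃ s, OrdEq C hN.strand s := by
  have := hN.fd
  obtain ⟨ν, hν⟩ := C.exists_ch_ne
  obtain ⟨μ, hμ⟩ := exists_chr_ne hN.strand
  obtain ⟨u, hu⟩ := C.smp.exists_eig hν
  obtain ⟨v, hv⟩ := hN.exists_eig hμ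
  have hC := C.ch_length hν
  have hN' := chr_length hμ
  obtain ⟨s, r, hr⟩ := Lead.exists_ne (B := D.qL ν μ) hb (Aff.isAff C.smp.strand) hN.strand
    (fun s r hr => hr.le_qL hb (hu.lift C.smp.strand hC)
      (by rw [Aff.P_sg_zero]; exact hu.ne) hC hv hN')
  exact ⟨s, r, hr⟩

end ord

/-- the order `s(C, X)` -/
noncomputable def sOrd (C X : SMod D) : ℕ :=
  open Classical in if h : ∃ s, OrdEq C X.smp.strand s then h.choose else 0

theorem sOrd_spec (hb : S_basis D) (C X : SMod D) : OrdEq C X.smp.strand (sOrd C X) := by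
  have h := OrdEq.exists hb C X.smp.toFdMod
  rw [sOrd, dif_pos h]
  exact h.choose_spec

theorem sOrd_eq (hb : S_basis D) {C X : SMod D} {s : ℕ} (h : OrdEq C X.smp.strand s) :
    sOrd C X = s := (sOrd_spec hb C X).unique hb h

theorem le_sOrd (hb : S_basis D) {C X : SMod D} {s : ℕ} (h : OrdGe C X.smp.strand s) :
    s ≤ sOrd C X := h.le hb (sOrd_spec hb C X)

end Pool.Agent.KLR
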