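import Pool.Agent.Work.MP_e487d8_al.Rmat.Phi3

/-! MP_e487d8_al, RMAT block: the block intertwiners `Ph n m`. -/

set_option autoImplicit false

namespace Pool.Agent.KLR

variable {K I : Type} [Field K] [Fintype I] [DecidableEq I]

namespace Datum

variable (D : Datum K I)

theorem mul_E_of {a b : KLRAlg D} {k : ℕ} (h : a * D.E k = a) : a * b * D.E k = a * b := by
  rw [mul_assoc, ← D.E_comm, ← mul_assoc, h]

theorem mul_E_of' {a b : KLRAlg D} {k : ℕ} (h : b * D.E k = b) : a * b * D.E k = a * b := by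
  rw [mul_assoc, h]

theorem phi_x0 (k : ℕ) : D.phi k * D.x k = D.x (k + 1) * D.phi k := by
  refine ext_col2 (k := k) (l := k + 1) (D.mul_E_of (D.phi_E k)) (D.mul_E_of (D.phi_E' k))
    (D.mul_E_of' (D.phi_E k)) (D.mul_E_of' (D.phi_E' k)) fun i j v h h' => ?_
  rw [mul_assoc, mul_assoc]
  exact phi_x0_smul h h'

theorem phi_x1 (k : ℕ) : D.phi k * D.x (k + 1) = D.x k * D.phi k := by
  refine ext_col2 (k := k) (l := k + 1) (D.mul_E_of (D.phi_E k)) (D.mul_E_of (D.phi_E' k))
    (D.mul_E_of' (D.phi_E k)) (D.mul_E_of' (D.phi_E' k)) fun i j v h h' => ?_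
  rw [mul_assoc, mul_assoc]
  exact phi_x1_smul h h'

theorem phi_phi (k : ℕ) : D.phi k * D.phi k = D.QQ k (k + 1) := by
  refine ext_col2 (k := k) (l := k + 1) (D.mul_E_of (D.phi_E k)) (D.mul_E_of (D.phi_E' k))
    (D.QQ_E k (k + 1)) (D.QQ_E' k (k + 1)) fun i j v h h' => ?_
  rw [mul_assoc]
  exact phi_phi_smul h h'

theorem dl_comm_e (k l : ℕ) (i : I) : D.dl k * D.e l i = D.e l i * D.dl k := by
  unfold dl
  rw [Finset.sum_mul, Finset.mul_sum]
  refine Finset.sum_congr rfl fun j _ => ?_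
  rw [mul_assoc, D.e_comm (k + 1) l, ← mul_assoc, D.e_comm k l, mul_assoc]

theorem dl_comm_x (k l : ℕ) : D.dl k * D.x l = D.x l * D.dl k := by
  unfold dl
  rw [Finset.sum_mul, Finset.mul_sum]
  refine Finset.sum_congr rfl fun j _ => ?_
  rw [mul_assoc, ← D.x_e, ← mul_assoc, ← D.x_e, mul_assoc]

theorem dl_comm_t (k l : ℕ) (h : k ≠ l) (h1 : k + 1 ≠ l) (h2 : k ≠ l + 1) :
    D.dl k * D.t l = D.t l * D.dl k := by
  unfold dl
  rw [Finset.sum_mul, Finset.mul_sum]
  refine Finset.sum_congr rfl fun j _ => ?_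
  rw [mul_assoc, ← D.t_e l (k + 1) j (by omega) (by omega), ← mul_assoc,
    ← D.t_e l k j (by omega) (by omega), mul_assoc]

theorem phi_x (k l : ℕ) (h : l ≠ k) (h' : l ≠ k + 1) : D.phi k * D.x l = D.x l * D.phi k := by
  have h1 : Commute (D.t k) (D.x l) := D.t_x k l h h'
  have h2 : Commute (D.dl k) (D.x l) := D.dl_comm_x k l
  have h3 : Commute (D.x k) (D.x l) := D.x_comm k l
  have h4 : Commute (D.x (k + 1)) (D.x l) := D.x_comm (k + 1) l
  have h5 : Commute (1 : KLRAlg D) (D.x l) := Commute.one_left _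
  exact ((h1.mul_left (h5.sub_left h2)).add_left
    (((h1.mul_left (h3.sub_left h4)).add_left h5).mul_left h2)).eq

theorem phi_t (k l : ℕ) (h : k ≠ l) (h1 : k + 1 ≠ l) (h2 : k ≠ l + 1) :
    D.phi k * D.t l = D.t l * D.phi k := by
  have h0 : Commute (D.t k) (D.t l) := by
    rcases Nat.lt_or_gt_of_ne h with h3 | h3
    · exact D.t_far k l (by omega)
    · exact (D.t_far l k (by omega)).symm
  have h3 : Commute (D.dl k) (D.t l) := D.dl_comm_t k l h h1 h2
  have h4 : Commute (D.x k) (D.t l) := (D.t_x l k (by omega) (by omega)).symm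
  have h5 : Commute (D.x (k + 1)) (D.t l) := (D.t_x l (k + 1) (by omega) (by omega)).symm
  have h6 : Commute (1 : KLRAlg D) (D.t l) := Commute.one_left _
  exact ((h0.mul_left (h6.sub_left h3)).add_left
    (((h0.mul_left (h4.sub_left h5)).add_left h6).mul_left h3)).eq

theorem phi_e (k l : ℕ) (i : I) (h : l ≠ k) (h' : l ≠ k + 1) :
    D.phi k * D.e l i = D.e l i * D.phi k := by
  have h1 : Commute (D.t k) (D.e l i) := D.t_e k l i h h'
  have h2 : Commute (D.dl k) (D.e l i) := D.dl_comm_e k l i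
  have h3 : Commute (D.x k) (D.e l i) := D.x_e k l i
  have h4 : Commute (D.x (k + 1)) (D.e l i) := D.x_e (k + 1) l i
  have h5 : Commute (1 : KLRAlg D) (D.e l i) := Commute.one_left _
  exact ((h1.mul_left (h5.sub_left h2)).add_left
    (((h1.mul_left (h3.sub_left h4)).add_left h5).mul_left h2)).eq

theorem phi_e0 (k : ℕ) (i : I) : D.phi k * D.e k i = D.e (k + 1) i * D.phi k := by
  refine ext_col2 (k := k) (l := k + 1) (D.mul_E_of (D.phi_E k)) (D.mul_E_of (D.phi_E' k))
    (D.mul_E_of' (D.phi_E k)) (D.mul_E_of' (D.phi_E' k)) fun a b v h h' => ?_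
  rw [mul_assoc, mul_assoc]
  change D.phi k • D.e k i • v = D.e (k + 1) i • D.phi k • v
  by_cases hi : i = a
  · subst hi
    rw [h, h.phi0 h']
  · rw [h.e_ne hi, (h.phi0 h').e_ne hi, smul_zero]

theorem phi_e1 (k : ℕ) (i : I) : D.phi k * D.e (k + 1) i = D.e k i * D.phi k := by
  refine ext_col2 (k := k) (l := k + 1) (D.mul_E_of (D.phi_E k)) (D.mul_E_of (D.phi_E' k))
    (D.mul_E_of' (D.phi_E k)) (D.mul_E_of' (D.phi_E' k)) fun a b v h h' => ?_
  rw [mul_assoc, mul_assoc]
  change D.phi k • D.e (k + 1) i • v = D.e k i • D.phi k • v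
  by_cases hi : i = b
  · subst hi
    rw [h', h.phi1 h']
  · rw [h'.e_ne hi, (h.phi1 h').e_ne hi, smul_zero]

theorem phi_phi_t (k : ℕ) :
    D.phi (k + 1) * D.phi k * D.t (k + 1) = D.t k * D.phi (k + 1) * D.phi k := by
  have a0 : D.phi (k + 1) * D.phi k * D.E k = D.phi (k + 1) * D.phi k := D.mul_E_of' (D.phi_E k)
  have a1 : D.phi (k + 1) * D.phi k * D.E (k + 1) = D.phi (k + 1) * D.phi k :=
    D.mul_E_of' (D.phi_E' k)
  have a2 : D.phi (k + 1) * D.phi k * D.E (k + 2) = D.phi (k + 1) * D.phi k :=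
    D.mul_E_of (D.phi_E' (k + 1))
  rw [mul_assoc (D.t k)]
  refine ext_col3 (k := k) (l := k + 1) (m := k + 2) (D.mul_E_of a0) (D.mul_E_of a1)
    (D.mul_E_of a2) (D.mul_E_of' a0) (D.mul_E_of' a1) (D.mul_E_of' a2)
    fun i j l v h h' h'' => ?_
  simp only [mul_assoc]
  exact KLR.phi_phi_t ⟨h, h', h''⟩

theorem phi_phi_t' (k : ℕ) :
    D.phi k * D.phi (k + 1) * D.t k = D.t (k + 1) * D.phi k * D.phi (k + 1) := by
  have a0 : D.phi k * D.phi (k + 1) * D.E k = D.phi k * D.phi (k + 1) := D.mul_E_of (D.phi_E k)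
  have a1 : D.phi k * D.phi (k + 1) * D.E (k + 1) = D.phi k * D.phi (k + 1) :=
    D.mul_E_of (D.phi_E' k)
  have a2 : D.phi k * D.phi (k + 1) * D.E (k + 2) = D.phi k * D.phi (k + 1) :=
    D.mul_E_of' (D.phi_E' (k + 1))
  rw [mul_assoc (D.t (k + 1))]
  refine ext_col3 (k := k) (l := k + 1) (m := k + 2) (D.mul_E_of a0) (D.mul_E_of a1)
    (D.mul_E_of a2) (D.mul_E_of' a0) (D.mul_E_of' a1) (D.mul_E_of' a2)
    fun i j l v h h' h'' => ?_
  simp only [mul_assoc]
  exact KLR.phi_phi_t' ⟨h, h', h''⟩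

theorem shn_phi (m k : ℕ) : D.shn m (D.phi k) = D.phi (m + k) := by
  simp only [phi, map_add, map_mul, map_sub, map_one, shn_t, shn_x, shn_dl, add_assoc]

theorem shn_QQ (m k l : ℕ) : D.shn m (D.QQ k l) = D.QQ (m + k) (m + l) := by
  simp only [QQ, map_sum, map_mul, apply_ite (D.shn m), map_one, map_smul, map_pow, map_sub,
    shn_x, shn_e]

theorem phi_far (k l : ℕ) (h : k + 1 < l) : D.phi k * D.phi l = D.phi l * D.phi k := by
  have h0 : Commute (D.phi k) (D.t l) := D.phi_t k l (by omega) (by omega) (by omega)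
  have h4 : Commute (D.phi k) (D.x l) := D.phi_x k l (by omega) (by omega)
  have h5 : Commute (D.phi k) (D.x (l + 1)) := D.phi_x k (l + 1) (by omega) (by omega)
  have h6 : Commute (D.phi k) (1 : KLRAlg D) := Commute.one_right _
  have h3 : Commute (D.phi k) (D.dl l) := by
    unfold dl
    refine Commute.sum_right _ _ _ fun i _ => ?_
    have h7 : Commute (D.phi k) (D.e l i) := D.phi_e k l i (by omega) (by omega)
    have h8 : Commute (D.phi k) (D.e (l + 1) i) := D.phi_e k (l + 1) i (by omega) (by omega)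
    exact h7.mul_right h8
  exact ((h0.mul_right (h6.sub_right h3)).add_right
    (((h0.mul_right (h4.sub_right h5)).add_right h6).mul_right h3)).eq

theorem tr_phi (m k : ℕ) (h : k + 1 < m) : D.tr m (D.phi k) = D.phi k := by
  have hdl : D.tr m (D.dl k) = D.dl k := by
    unfold dl
    rw [map_sum]
    refine Finset.sum_congr rfl fun i _ => ?_
    rw [map_mul, tr_e, tr_e, if_pos (by omega), if_pos h]
  simp only [phi, map_add, map_mul, map_sub, map_one, tr_t, tr_x, hdl, h, if_true,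
    show k < m by omega]

/-! ### one strand past a block -/

/-- moves the strand `m` to the front -/
noncomputable def Cp : ℕ → KLRAlg D
  | 0 => 1
  | m + 1 => Cp m * D.phi m

theorem Cp_zero : D.Cp 0 = 1 := rfl
theorem Cp_succ (m : ℕ) : D.Cp (m + 1) = D.Cp m * D.phi m := rfl

theorem tr_Cp {m p : ℕ} (h : m < p) : D.tr p (D.Cp m) = D.Cp m := by
  induction m with
  | zero => rw [Cp_zero, map_one]
  | succ m ih => rw [Cp_succ, map_mul, ih (by omega), D.tr_phi p m h]

theorem Cp_far {m l : ℕ} (h : m < l) : D.Cp m * D.phi l = D.phi l * D.Cp m := by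
  induction m with
  | zero => rw [Cp_zero, one_mul, mul_one]
  | succ m ih =>
    rw [Cp_succ, mul_assoc, D.phi_far m l (by omega), ← mul_assoc, ih (by omega), mul_assoc]

theorem Cp_x_top (m : ℕ) : D.Cp m * D.x m = D.x 0 * D.Cp m := by
  induction m with
  | zero => rw [Cp_zero, one_mul, mul_one]
  | succ m ih => rw [Cp_succ, mul_assoc, D.phi_x1, ← mul_assoc, ih, mul_assoc]

theorem Cp_e_top (m : ℕ) (i : I) : D.Cp m * D.e m i = D.e 0 i * D.Cp m := by
  induction m with
  | zero => rw [Cp_zero, one_mul, mul_one]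
  | succ m ih => rw [Cp_succ, mul_assoc, D.phi_e1, ← mul_assoc, ih, mul_assoc]

theorem Cp_shn (m : ℕ) (a : KLRAlg D) :
    D.Cp m * D.shn (m + 1) a = D.shn (m + 1) a * D.Cp m := by
  rw [← D.tr_Cp (Nat.lt_succ_self m)]
  exact D.tr_mul_shn le_rfl _ _

theorem Cp_x (m k : ℕ) (h : k < m) : D.Cp m * D.x k = D.x (k + 1) * D.Cp m := by
  induction m with
  | zero => omega
  | succ m ih =>
    rw [Cp_succ, mul_assoc]
    rcases Nat.lt_succ_iff_lt_or_eq.1 h with h1 | h1
    · rw [D.phi_x m k (by omega) (by omega), ← mul_assoc, ih h1, mul_assoc]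
    · subst h1
      rw [D.phi_x0, ← mul_assoc]
      have h2 := D.Cp_shn k (D.x 0)
      rw [D.shn_x, add_zero] at h2
      rw [h2, mul_assoc]

theorem Cp_e (m k : ℕ) (i : I) (h : k < m) : D.Cp m * D.e k i = D.e (k + 1) i * D.Cp m := by
  induction m with
  | zero => omega
  | succ m ih =>
    rw [Cp_succ, mul_assoc]
    rcases Nat.lt_succ_iff_lt_or_eq.1 h with h1 | h1
    · rw [D.phi_e m k i (by omega) (by omega), ← mul_assoc, ih h1, mul_assoc]
    · subst h1
      rw [D.phi_e0, ← mul_assoc]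
      have h2 := D.Cp_shn k (D.e 0 i)
      rw [D.shn_e, add_zero] at h2
      rw [h2, mul_assoc]

theorem Cp_t (m k : ℕ) (h : k + 1 < m) : D.Cp m * D.t k = D.t (k + 1) * D.Cp m := by
  induction m with
  | zero => omega
  | succ m ih =>
    rw [Cp_succ, mul_assoc]
    by_cases h1 : k + 1 < m
    · rw [D.phi_t m k (by omega) (by omega) (by omega), ← mul_assoc, ih h1, mul_assoc]
    · have h2 : m = k + 1 := by omega
      subst h2
      have h3 := D.Cp_shn k (D.t 0)
      rw [D.shn_t, add_zero] at h3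
      rw [Cp_succ, mul_assoc, ← mul_assoc (D.phi k), D.phi_phi_t', ← mul_assoc, ← mul_assoc, h3,
        mul_assoc, mul_assoc, mul_assoc]

/-- the strands of the block move by one -/
theorem Cp_tr (m : ℕ) (a : KLRAlg D) : D.Cp m * D.tr m a = D.shn 1 (D.tr m a) * D.Cp m := by
  induction a using KLRAlg.induction with
  | hs r => rw [AlgHom.commutes, AlgHom.commutes]; exact (Algebra.commutes r _).symm
  | hadd b c hb hc => rw [map_add, map_add, mul_add, add_mul, hb, hc]
  | hmul b c hb hc => rw [map_mul, map_mul, ← mul_assoc, hb, mul_assoc, hc, mul_assoc]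
  | he k i =>
    rw [tr_e]; split_ifs with h
    · rw [shn_e, add_comm 1 k]; exact D.Cp_e m k i h
    · simp
  | hx k =>
    rw [tr_x]; split_ifs with h
    · rw [shn_x, add_comm 1 k]; exact D.Cp_x m k h
    · simp
  | ht k =>
    rw [tr_t]; split_ifs with h
    · rw [shn_t, add_comm 1 k]; exact D.Cp_t m k h
    · simp

theorem t_Cp_Cp (m : ℕ) :
    D.t 0 * (D.shn 1 (D.Cp m) * D.Cp m) = D.shn 1 (D.Cp m) * D.Cp m * D.t m := by
  induction m with
  | zero => rw [Cp_zero, map_one, one_mul, mul_one, one_mul]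
  | succ m ih =>
    have h1 : D.shn 1 (D.Cp (m + 1)) * D.Cp (m + 1) =
        D.shn 1 (D.Cp m) * D.Cp m * (D.phi (m + 1) * D.phi m) := by
      rw [Cp_succ, map_mul, shn_phi, add_comm 1 m, mul_assoc, ← mul_assoc (D.phi (m + 1)),
        ← D.Cp_far (Nat.lt_succ_self m)]
      simp only [mul_assoc]
    rw [h1, mul_assoc _ _ (D.t (m + 1)), D.phi_phi_t, mul_assoc (D.t m), ← mul_assoc _ (D.t m),
      ← ih]
    simp only [mul_assoc]

theorem Cp_add (n l : ℕ) : D.Cp (n + l) = D.Cp n * D.shn n (D.Cp l) := by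
  induction l with
  | zero => rw [Cp_zero, map_one, mul_one, add_zero]
  | succ l ih => rw [← add_assoc, Cp_succ, ih, Cp_succ, map_mul, shn_phi, mul_assoc]

/-! ### block past block -/

/-- moves `m` strands, which sit behind `n` strands, to the front -/
noncomputable def Ph (n : ℕ) : ℕ → KLRAlg D
  | 0 => 1
  | m + 1 => D.shn 1 (Ph n m) * D.Cp n

theorem Ph_zero (n : ℕ) : D.Ph n 0 = 1 := rfl
theorem Ph_succ (n m : ℕ) : D.Ph n (m + 1) = D.shn 1 (D.Ph n m) * D.Cp n := rfl

theorem tr_Ph (n m : ℕ) : D.tr (n + m) (D.Ph n m) = D.Ph n m := by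
  induction m with
  | zero => rw [Ph_zero, map_one]
  | succ m ih =>
    rw [Ph_succ, map_mul, D.tr_Cp (by omega), show n + (m + 1) = 1 + (n + m) by omega, D.tr_shn,
      ih]

/-- the first block -/
theorem Ph_tr (n m : ℕ) (b : KLRAlg D) :
    D.shn m (D.tr n b) * D.Ph n m = D.Ph n m * D.tr n b := by
  induction m with
  | zero => rw [Ph_zero, shn_zero, one_mul, mul_one]
  | succ m ih =>
    rw [Ph_succ, add_comm m 1, ← D.shn_shn, ← mul_assoc, ← map_mul, ih, map_mul, mul_assoc,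
      ← D.Cp_tr, mul_assoc]

theorem Ph_x (n m k : ℕ) (h : k < m) : D.x k * D.Ph n m = D.Ph n m * D.x (n + k) := by
  induction m generalizing k with
  | zero => omega
  | succ m ih =>
    rw [Ph_succ, ← mul_assoc]
    cases k with
    | zero =>
      have h1 := D.tr_mul_shn (m := 1) (m' := 1) le_rfl (D.x 0) (D.Ph n m)
      rw [tr_x, if_pos (by omega)] at h1
      rw [h1, mul_assoc, ← D.Cp_x_top, add_zero, mul_assoc]
    | succ k =>
      have h1 : D.x (k + 1) * D.shn 1 (D.Ph n m) = D.shn 1 (D.Ph n m) * D.x (n + (k + 1)) := by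
        have h2 := congrArg (D.shn 1) (ih k (by omega))
        rw [map_mul, map_mul, shn_x, shn_x] at h2
        rw [add_comm k 1, h2]
        congr 2
        omega
      have h3 := D.Cp_shn n (D.x k)
      rw [D.shn_x] at h3
      rw [h1, mul_assoc, show n + (k + 1) = n + 1 + k by omega, ← h3, mul_assoc]

theorem Ph_e (n m k : ℕ) (i : I) (h : k < m) : D.e k i * D.Ph n m = D.Ph n m * D.e (n + k) i := by
  induction m generalizing k with
  | zero => omega
  | succ m ih =>
    rw [Ph_succ, ← mul_assoc]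
    cases k with
    | zero =>
      have h1 := D.tr_mul_shn (m := 1) (m' := 1) le_rfl (D.e 0 i) (D.Ph n m)
      rw [tr_e, if_pos (by omega)] at h1
      rw [h1, mul_assoc, ← D.Cp_e_top, add_zero, mul_assoc]
    | succ k =>
      have h1 : D.e (k + 1) i * D.shn 1 (D.Ph n m) =
          D.shn 1 (D.Ph n m) * D.e (n + (k + 1)) i := by
        have h2 := congrArg (D.shn 1) (ih k (by omega))
        rw [map_mul, map_mul, shn_e, shn_e] at h2
        rw [add_comm k 1, h2]
        congr 2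
        omega
      have h3 := D.Cp_shn n (D.e k i)
      rw [D.shn_e] at h3
      rw [h1, mul_assoc, show n + (k + 1) = n + 1 + k by omega, ← h3, mul_assoc]

theorem Ph_t (n m k : ℕ) (h : k + 1 < m) : D.t k * D.Ph n m = D.Ph n m * D.t (n + k) := by
  induction m generalizing k with
  | zero => omega
  | succ m ih =>
    cases k with
    | zero =>
      obtain ⟨m', rfl⟩ : ∃ m', m = m' + 1 := ⟨m - 1, by omega⟩
      have h1 := D.tr_mul_shn (m := 2) (m' := 2) le_rfl (D.t 0) (D.Ph n m')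
      rw [tr_t, if_pos (by omega)] at h1
      rw [Ph_succ, Ph_succ, map_mul, shn_shn, mul_assoc, ← mul_assoc (D.t 0), h1, mul_assoc,
        D.t_Cp_Cp, add_zero]
      simp only [mul_assoc]
    | succ k =>
      rw [Ph_succ, ← mul_assoc]
      have h1 : D.t (k + 1) * D.shn 1 (D.Ph n m) = D.shn 1 (D.Ph n m) * D.t (n + (k + 1)) := by
        have h2 := congrArg (D.shn 1) (ih k (by omega))
        rw [map_mul, map_mul, shn_t, shn_t] at h2
        rw [add_comm k 1, h2]
        congr 2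
        omega
      have h3 := D.Cp_shn n (D.t k)
      rw [D.shn_t] at h3
      rw [h1, mul_assoc, show n + (k + 1) = n + 1 + k by omega, ← h3, mul_assoc]

/-- the second block -/
theorem tr_mul_Ph (n m : ℕ) (a : KLRAlg D) :
    D.tr m a * D.Ph n m = D.Ph n m * D.shn n (D.tr m a) := by
  induction a using KLRAlg.induction with
  | hs r => rw [AlgHom.commutes, AlgHom.commutes]; exact Algebra.commutes r _
  | hadd b c hb hc => rw [map_add, map_add, mul_add, add_mul, hb, hc]
  | hmul b c hb hc => rw [map_mul, map_mul, mul_assoc, hc, ← mul_assoc, hb, mul_assoc]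
  | he k i =>
    rw [tr_e]; split_ifs with h
    · rw [shn_e]; exact D.Ph_e n m k i h
    · simp
  | hx k =>
    rw [tr_x]; split_ifs with h
    · rw [shn_x]; exact D.Ph_x n m k h
    · simp
  | ht k =>
    rw [tr_t]; split_ifs with h
    · rw [shn_t]; exact D.Ph_t n m k h
    · simp

/-- the hexagon -/
theorem Ph_add (n l m : ℕ) : D.Ph (n + l) m = D.Ph n m * D.shn n (D.Ph l m) := by
  induction m with
  | zero => rw [Ph_zero, Ph_zero, Ph_zero, map_one, mul_one]
  | succ m ih =>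
    rw [Ph_succ, ih, Cp_add, map_mul, D.shn_shn, Ph_succ, Ph_succ, map_mul, D.shn_shn]
    have h := D.Cp_shn n (D.Ph l m)
    calc _ = D.shn 1 (D.Ph n m) * (D.shn (1 + n) (D.Ph l m) * D.Cp n) * D.shn n (D.Cp l) := by
          simp only [mul_assoc]
      _ = _ := by
          rw [add_comm 1 n, ← h]
          simp only [mul_assoc]

/-! ### the square -/

/-- `∏ k < m, QQ k l` -/
noncomputable def QP1 (l : ℕ) : ℕ → KLRAlg D
  | 0 => 1
  | m + 1 => D.QQ m l * QP1 l m

/-- `∏ k < m, p ≤ l < p + n, QQ k l` -/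
noncomputable def QP (m : ℕ) : ℕ → ℕ → KLRAlg D
  | _, 0 => 1
  | p, n + 1 => D.QP1 p m * QP m (p + 1) n

theorem QQ_comm_phi {a k l : ℕ} (h1 : a ≠ k) (h2 : a ≠ k + 1) (h3 : l ≠ k) (h4 : l ≠ k + 1) :
    D.QQ a l * D.phi k = D.phi k * D.QQ a l := by
  have h : Commute (D.phi k) (D.QQ a l) := by
    unfold QQ
    refine Commute.sum_right _ _ _ fun i _ => Commute.sum_right _ _ _ fun j _ => ?_
    have e1 : Commute (D.phi k) (D.e a i) := D.phi_e k a i h1 h2
    have e2 : Commute (D.phi k) (D.e l j) := D.phi_e k l j h3 h4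
    have e3 : Commute (D.phi k) (D.x a) := D.phi_x k a h1 h2
    have e4 : Commute (D.phi k) (D.x l) := D.phi_x k l h3 h4
    refine Commute.mul_right ?_ (e1.mul_right e2)
    split_ifs
    · exact Commute.one_right _
    · exact ((e3.sub_right e4).pow_right _).smul_right _
  exact h.eq.symm

/-- replacing the strand in `QQ a k` -/
theorem phi_QQ {a k : ℕ} (h1 : a ≠ k) (h2 : a ≠ k + 1) :
    D.QQ a k * D.phi k = D.phi k * D.QQ a (k + 1) := by
  unfold QQ
  simp only [Finset.sum_mul, Finset.mul_sum]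
  refine Finset.sum_congr rfl fun i _ => Finset.sum_congr rfl fun j _ => ?_
  have e1 : D.e a i * D.phi k = D.phi k * D.e a i := (D.phi_e k a i h1 h2).symm
  have e2 : D.e k j * D.phi k = D.phi k * D.e (k + 1) j := (D.phi_e1 k j).symm
  have e3 : (D.x a - D.x k) * D.phi k = D.phi k * (D.x a - D.x (k + 1)) := by
    rw [sub_mul, mul_sub, D.phi_x k a h1 h2, D.phi_x1]
  have e4 : ∀ q : ℕ, (D.x a - D.x k) ^ q * D.phi k = D.phi k * (D.x a - D.x (k + 1)) ^ q := by
    intro q
    induction q with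
    | zero => rw [pow_zero, pow_zero, one_mul, mul_one]
    | succ q ih => rw [pow_succ, mul_assoc, e3, ← mul_assoc, ih, mul_assoc, ← pow_succ]
  rw [mul_assoc, mul_assoc, e2, ← mul_assoc (D.e a i), e1, mul_assoc, ← mul_assoc _ (D.phi k)]
  split_ifs
  · rw [one_mul, one_mul]
  · rw [smul_mul_assoc, e4, ← mul_smul_comm, mul_assoc]

theorem QP1_phi (m l : ℕ) (k : ℕ) (h : m ≤ k) (h3 : l ≠ k) (h4 : l ≠ k + 1) :
    D.QP1 l m * D.phi k = D.phi k * D.QP1 l m := by
  induction m with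
  | zero => rw [QP1, one_mul, mul_one]
  | succ m ih =>
    rw [QP1, mul_assoc, ih (by omega), ← mul_assoc,
      D.QQ_comm_phi (by omega) (by omega) h3 h4, mul_assoc]

theorem QP1_phi' (m k : ℕ) (h : m ≤ k) :
    D.QP1 k m * D.phi k = D.phi k * D.QP1 (k + 1) m := by
  induction m with
  | zero => rw [QP1, QP1, one_mul, mul_one]
  | succ m ih =>
    rw [QP1, QP1, mul_assoc, ih (by omega), ← mul_assoc, D.phi_QQ (by omega) (by omega),
      mul_assoc]

theorem Ph_one_succ (m : ℕ) : D.Ph 1 (m + 1) = D.phi m * D.Ph 1 m := by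
  induction m with
  | zero => rw [Ph_succ, Ph_zero, map_one, one_mul, mul_one, Cp_succ, Cp_zero, one_mul]
  | succ m ih =>
    rw [Ph_succ, ih, map_mul, shn_phi, mul_assoc, ← Ph_succ, add_comm 1 m, ih]

theorem Ph_one_Cp (m : ℕ) : D.Ph 1 m * D.Cp m = D.QP1 m m := by
  induction m with
  | zero => rw [Ph_zero, Cp_zero, QP1, one_mul]
  | succ m ih =>
    rw [Ph_one_succ, Cp_succ, mul_assoc, ← mul_assoc (D.Ph 1 m), ih, D.QP1_phi' m m le_rfl,
      ← mul_assoc, D.phi_phi, QP1]

theorem QQ_Cp {m k l : ℕ} (h : k < m) (h' : m ≤ l) :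
    D.QQ (k + 1) (l + 1) * D.Cp m = D.Cp m * D.QQ k (l + 1) := by
  unfold QQ
  simp only [Finset.sum_mul, Finset.mul_sum]
  refine Finset.sum_congr rfl fun i _ => Finset.sum_congr rfl fun j _ => ?_
  have f2 := D.Cp_shn m (D.e (l - m) j)
  have f3 := D.Cp_shn m (D.x (l - m))
  rw [D.shn_e, show m + 1 + (l - m) = l + 1 by omega] at f2
  rw [D.shn_x, show m + 1 + (l - m) = l + 1 by omega] at f3
  have e1 : D.e (k + 1) i * D.Cp m = D.Cp m * D.e k i := (D.Cp_e m k i h).symm
  have e3 : (D.x (k + 1) - D.x (l + 1)) * D.Cp m = D.Cp m * (D.x k - D.x (l + 1)) := by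
    rw [sub_mul, mul_sub, D.Cp_x m k h, f3]
  have e4 : ∀ q : ℕ, (D.x (k + 1) - D.x (l + 1)) ^ q * D.Cp m =
      D.Cp m * (D.x k - D.x (l + 1)) ^ q := by
    intro q
    induction q with
    | zero => rw [pow_zero, pow_zero, one_mul, mul_one]
    | succ q ih => rw [pow_succ, mul_assoc, e3, ← mul_assoc, ih, mul_assoc, ← pow_succ]
  rw [mul_assoc, mul_assoc, ← f2, ← mul_assoc (D.e (k + 1) i), e1, mul_assoc,
    ← mul_assoc _ (D.Cp m)]
  split_ifs
  · rw [one_mul, one_mul]
  · rw [smul_mul_assoc, e4, ← mul_smul_comm, mul_assoc]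

theorem shn_QP1_Cp {m l r : ℕ} (h : r ≤ m) (h' : m ≤ l) :
    D.shn 1 (D.QP1 l r) * D.Cp m = D.Cp m * D.QP1 (l + 1) r := by
  induction r with
  | zero => rw [QP1, QP1, map_one, one_mul, mul_one]
  | succ r ih =>
    rw [QP1, QP1, map_mul, mul_assoc, ih (by omega), shn_QQ, ← mul_assoc, add_comm 1 r,
      add_comm 1 l, D.QQ_Cp (by omega) h', mul_assoc]

theorem shn_QP_Cp {m n p : ℕ} (h : m ≤ p) :
    D.shn 1 (D.QP m p n) * D.Cp m = D.Cp m * D.QP m (p + 1) n := by
  induction n generalizing p with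
  | zero => rw [QP, QP, map_one, one_mul, mul_one]
  | succ n ih =>
    rw [QP, QP, map_mul, mul_assoc, ih (by omega), ← mul_assoc, D.shn_QP1_Cp le_rfl h, mul_assoc]

/-- the square of the block intertwiner -/
theorem Ph_mul_Ph (m n : ℕ) : D.Ph n m * D.Ph m n = D.QP m m n := by
  induction n with
  | zero =>
    have h : ∀ m : ℕ, D.Ph 0 m = 1 := by
      intro m
      induction m with
      | zero => rfl
      | succ m ih => rw [Ph_succ, ih, map_one, Cp_zero, one_mul]
    rw [h, Ph_zero, QP, one_mul]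
  | succ n ih =>
    rw [add_comm n 1, D.Ph_add, add_comm 1 n, Ph_succ, mul_assoc, ← mul_assoc (D.shn 1 (D.Ph n m)),
      ← map_mul, ih, D.shn_QP_Cp le_rfl, ← mul_assoc, D.Ph_one_Cp, QP]

end Datum

end Pool.Agent.KLR
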