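import Pool.Agent.Work.MP_e487d8_al.Rmat.Phi

/-! MP_e487d8_al, RMAT block: the intertwiners `phi k` and crossings of three strands. -/

set_option autoImplicit false

namespace Pool.Agent.KLR

variable {K I : Type} [Field K] [Fintype I] [DecidableEq I]

set_option linter.unusedSimpArgs false

section vec

variable {D : Datum K I} {M : Type*} [AddCommGroup M] [Module (KLRAlg D) M]

/-- colours of three strands -/
structure C3 (D : Datum K I) (k : ℕ) (i j l : I) {M : Type*} [AddCommGroup M]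
    [Module (KLRAlg D) M] (v : M) : Prop where
  c0 : Col D k i v
  c1 : Col D (k + 1) j v
  c2 : Col D (k + 2) l v

namespace C3

variable {k : ℕ} {i j l : I} {v w : M}

theorem x (h : C3 D k i j l v) (r : ℕ) : C3 D k i j l (D.x r • v) := ⟨h.c0.x r, h.c1.x r, h.c2.x r⟩
theorem t0 (h : C3 D k i j l v) : C3 D k j i l (D.t k • v) :=
  ⟨h.c1.t1, h.c0.t0, h.c2.t (by omega) (by omega)⟩
theorem t1 (h : C3 D k i j l v) : C3 D k i l j (D.t (k + 1) • v) :=
  ⟨h.c0.t (by omega) (by omega), h.c2.t1, h.c1.t0⟩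
theorem p0 (h : C3 D k i j l v) : C3 D k j i l (D.phi k • v) := by
  refine ⟨h.c0.phi1 h.c1, h.c0.phi0 h.c1, ?_⟩
  by_cases hij : i = j
  · subst hij
    rw [phi_eq h.c0 h.c1]
    exact (((h.c2.x k).t (by omega) (by omega)).sub
      ((h.c2.x (k + 1)).t (by omega) (by omega))).add h.c2
  · rw [phi_ne h.c0 h.c1 hij]
    exact h.c2.t (by omega) (by omega)
theorem p1 (h : C3 D k i j l v) : C3 D k i l j (D.phi (k + 1) • v) := by
  refine ⟨?_, h.c1.phi1 h.c2, h.c1.phi0 h.c2⟩
  by_cases hij : j = l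
  · subst hij
    rw [phi_eq h.c1 h.c2]
    exact (((h.c0.x (k + 1)).t (by omega) (by omega)).sub
      ((h.c0.x (k + 1 + 1)).t (by omega) (by omega))).add h.c0
  · rw [phi_ne h.c1 h.c2 hij]
    exact h.c0.t (by omega) (by omega)

end C3

/-- the polynomial identity behind the braid relation -/
theorem bterm_mul (D : Datum K I) (k : ℕ) {i j : I} (hij : i ≠ j) :
    bterm D k i j * (D.x k - D.x (k + 2)) =
      D.c i j • (D.x k - D.x (k + 1)) ^ D.q i j -
        D.c j i • (D.x (k + 1) - D.x (k + 2)) ^ D.q i j := by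
  have hc : Commute (D.x k - D.x (k + 1)) (D.x (k + 2) - D.x (k + 1)) := by
    have h : ∀ a b, Commute (D.x a) (D.x b) := fun a b => D.x_comm a b
    exact ((h _ _).sub_left (h _ _)).sub_right ((h _ _).sub_left (h _ _))
  have h1 := hc.geom_sum₂_mul (D.q i j)
  have h2 : (D.x k - D.x (k + 1)) - (D.x (k + 2) - D.x (k + 1)) = D.x k - D.x (k + 2) := by abel
  rw [h2] at h1
  rw [bterm, smul_mul_assoc, h1, smul_sub]
  congr 1
  have h3 : (D.x (k + 2) - D.x (k + 1)) = -(D.x (k + 1) - D.x (k + 2)) := by abel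
  rw [h3, D.c_symm i j hij, neg_pow, mul_smul, smul_comm]
  congr 1
  rw [Datum.q, Algebra.smul_def, map_pow, map_neg, map_one]

omit [Fintype I] [DecidableEq I] in
theorem q_symm (D : Datum K I) (i j : I) : D.q i j = D.q j i := by
  rw [Datum.q, Datum.q, D.symm]

theorem t0x02 {k : ℕ} {i j l : I} {v : M} (h : C3 D k i j l v) (hij : i ≠ j) :
    (D.x (k + 1) - D.x (k + 2)) • D.t k • v = D.t k • (D.x k - D.x (k + 2)) • v := by
  rw [sub_smul, sub_smul, smul_sub, tx0_ne h.c0 h.c1 hij, tx_far (by omega) (by omega)]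

theorem t1x02 {k : ℕ} {i j l : I} {v : M} (h : C3 D k i j l v) (hjl : j ≠ l) :
    (D.x k - D.x (k + 1)) • D.t (k + 1) • v = D.t (k + 1) • (D.x k - D.x (k + 2)) • v := by
  rw [sub_smul, sub_smul, smul_sub, tx1_ne h.c1 h.c2 hjl, tx_far (by omega) (by omega)]

theorem C3.xs {k : ℕ} {i j l : I} {v : M} (h : C3 D k i j l v) (a b : ℕ) :
    C3 D k i j l ((D.x a - D.x b) • v) := by
  rw [sub_smul]
  exact ⟨(h.c0.x a).sub (h.c0.x b), (h.c1.x a).sub (h.c1.x b), (h.c2.x a).sub (h.c2.x b)⟩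

theorem phi_eq' {k : ℕ} {i : I} {v : M} (h : Col D k i v) (h' : Col D (k + 1) i v) :
    D.phi k • v = D.t k • (D.x k - D.x (k + 1)) • v + v := by
  rw [phi_eq h h', sub_smul, smul_sub]

/-- the identity for `i j i` -/
theorem key_iji {k : ℕ} {i j : I} {v : M} (h : C3 D k i j i v) (hij : i ≠ j) :
    D.t (k + 1) • D.t k • D.t (k + 1) • (D.x k - D.x (k + 2)) • v + D.t (k + 1) • D.t (k + 1) • v =
      D.t k • D.t (k + 1) • D.t k • (D.x k - D.x (k + 2)) • v + D.t k • D.t k • v := by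
  have h' := h.xs k (k + 2)
  have h3 : D.t (k + 1) • D.t (k + 1) • v =
      (D.c j i • (D.x (k + 1) - D.x (k + 2)) ^ D.q i j) • v := by
    rw [q_symm D i j]
    exact tt_ne h.c1 h.c2 (Ne.symm hij)
  rw [braid_ne h'.c0 h'.c1 h'.c2 hij, ← mul_smul (bterm D k i j), bterm_mul D k hij,
    tt_ne h.c0 h.c1 hij, h3, add_assoc, ← add_smul, sub_add_cancel]

/-- `t` commutes with a pair of intertwiners -/
theorem phi_phi_t {k : ℕ} {i j l : I} {v : M} (h : C3 D k i j l v) :
    D.phi (k + 1) • D.phi k • D.t (k + 1) • v = D.t k • D.phi (k + 1) • D.phi k • v := by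
  have h1 := h.t1
  by_cases hij : i = j
  · subst hij
    by_cases hil : i = l
    · subst hil
      have x10 : ∀ w : M, D.x (k + 1) • D.x k • w = D.x k • D.x (k + 1) • w := fun w =>
        xx_smul _ _ w
      have x20 : ∀ w : M, D.x (k + 2) • D.x k • w = D.x k • D.x (k + 2) • w := fun w =>
        xx_smul _ _ w
      have x21 : ∀ w : M, D.x (k + 2) • D.x (k + 1) • w = D.x (k + 1) • D.x (k + 2) • w := fun w =>
        xx_smul _ _ w
      have f0 : ∀ w : M, C3 D k i i i w → D.phi k • w =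
          D.t k • D.x k • w - D.t k • D.x (k + 1) • w + w := fun w hw => phi_eq hw.c0 hw.c1
      have f1 : ∀ w : M, C3 D k i i i w → D.phi (k + 1) • w =
          D.t (k + 1) • D.x (k + 1) • w - D.t (k + 1) • D.x (k + 2) • w + w := fun w hw =>
        phi_eq hw.c1 hw.c2
      have a0 : ∀ w : M, C3 D k i i i w → D.x k • D.t k • w =
          D.t k • D.x (k + 1) • w - w := fun w hw => tx1_eq hw.c0 hw.c1
      have a1 : ∀ w : M, C3 D k i i i w → D.x (k + 1) • D.t k • w =
          D.t k • D.x k • w + w := fun w hw => tx0_eq hw.c0 hw.c1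
      have a2 : ∀ w : M, D.x (k + 2) • D.t k • w = D.t k • D.x (k + 2) • w := fun w =>
        tx_far (by omega) (by omega) w
      have b0 : ∀ w : M, D.x k • D.t (k + 1) • w = D.t (k + 1) • D.x k • w := fun w =>
        tx_far (by omega) (by omega) w
      have b1 : ∀ w : M, C3 D k i i i w → D.x (k + 1) • D.t (k + 1) • w =
          D.t (k + 1) • D.x (k + 2) • w - w := fun w hw => tx1_eq hw.c1 hw.c2
      have b2 : ∀ w : M, C3 D k i i i w → D.x (k + 2) • D.t (k + 1) • w =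
          D.t (k + 1) • D.x (k + 1) • w + w := fun w hw => tx0_eq hw.c1 hw.c2
      have c0 : ∀ w : M, C3 D k i i i w → D.t k • D.t k • w = 0 := fun w hw => tt_eq hw.c0 hw.c1
      have c1 : ∀ w : M, C3 D k i i i w → D.t (k + 1) • D.t (k + 1) • w = 0 := fun w hw =>
        tt_eq hw.c1 hw.c2
      have br : ∀ w : M, C3 D k i i i w → D.t (k + 1) • D.t k • D.t (k + 1) • w =
          D.t k • D.t (k + 1) • D.t k • w := fun w hw =>
        braid_eq hw.c0 hw.c1 hw.c2 (Or.inl rfl)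
      have hx : ∀ (w : M) (r : ℕ), C3 D k i i i w → C3 D k i i i (D.x r • w) := fun w r hw => hw.x r
      have ht0 : ∀ w : M, C3 D k i i i w → C3 D k i i i (D.t k • w) := fun w hw => hw.t0
      have ht1 : ∀ w : M, C3 D k i i i w → C3 D k i i i (D.t (k + 1) • w) := fun w hw => hw.t1
      have hp0 : ∀ w : M, C3 D k i i i w → C3 D k i i i (D.phi k • w) := fun w hw => hw.p0
      rw [f1 _ (hp0 _ (ht1 _ h)), f0 _ (ht1 _ h), f1 _ (hp0 _ h), f0 _ h]
      simp (maxDischargeDepth := 12) only [smul_add, smul_sub, a0, a1, a2, b0, b1, b2, c0, c1, br, hx, ht0, ht1, h, x10, x20,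
        x21, smul_zero]
      abel
    · -- (i, i, l)
      rw [phi_ne h1.c0 h1.c1 hil, phi_eq' h1.t0.c1 h1.t0.c2, phi_eq' h.c0 h.c1, smul_add, smul_add,
        phi_ne (h.xs k (k + 1)).t0.c1 (h.xs k (k + 1)).t0.c2 hil, phi_ne h.c1 h.c2 hil]
      congr 1
      rw [t0x02 h1 hil, sub_smul, sub_smul, tx_far (k := k + 1) (l := k) (by omega) (by omega),
        tx0_ne h.c1 h.c2 hil, ← smul_sub, ← sub_smul]
      have h2 := h.xs k (k + 1)
      exact braid_eq h2.c0 h2.c1 h2.c2 (Or.inl rfl)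
  · by_cases hil : i = l
    · subst hil
      -- (i, j, i)
      rw [phi_eq' h1.c0 h1.c1, smul_add, phi_ne (h1.xs k (k + 1)).t0.c1 (h1.xs k (k + 1)).t0.c2 hij,
        phi_ne h1.c1 h1.c2 hij, phi_ne h.c0 h.c1 hij, phi_eq' h.t0.c1 h.t0.c2, smul_add,
        t1x02 h (Ne.symm hij), t0x02 h hij]
      exact key_iji h hij
    · rw [phi_ne h1.c0 h1.c1 hil, phi_ne h1.t0.c1 h1.t0.c2 hij, phi_ne h.c0 h.c1 hij,
        phi_ne h.t0.c1 h.t0.c2 hil]
      exact braid_eq h.c0 h.c1 h.c2 (Or.inr hil)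

/-- `t` commutes with a pair of intertwiners -/
theorem phi_phi_t' {k : ℕ} {i j l : I} {v : M} (h : C3 D k i j l v) :
    D.phi k • D.phi (k + 1) • D.t k • v = D.t (k + 1) • D.phi k • D.phi (k + 1) • v := by
  have h1 := h.t0
  by_cases hjl : j = l
  · subst hjl
    by_cases hij : i = j
    · subst hij
      have x10 : ∀ w : M, D.x (k + 1) • D.x k • w = D.x k • D.x (k + 1) • w := fun w =>
        xx_smul _ _ w
      have x20 : ∀ w : M, D.x (k + 2) • D.x k • w = D.x k • D.x (k + 2) • w := fun w =>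
        xx_smul _ _ w
      have x21 : ∀ w : M, D.x (k + 2) • D.x (k + 1) • w = D.x (k + 1) • D.x (k + 2) • w := fun w =>
        xx_smul _ _ w
      have f0 : ∀ w : M, C3 D k i i i w → D.phi k • w =
          D.t k • D.x k • w - D.t k • D.x (k + 1) • w + w := fun w hw => phi_eq hw.c0 hw.c1
      have f1 : ∀ w : M, C3 D k i i i w → D.phi (k + 1) • w =
          D.t (k + 1) • D.x (k + 1) • w - D.t (k + 1) • D.x (k + 2) • w + w := fun w hw =>
        phi_eq hw.c1 hw.c2
      have a0 : ∀ w : M, C3 D k i i i w → D.x k • D.t k • w =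
          D.t k • D.x (k + 1) • w - w := fun w hw => tx1_eq hw.c0 hw.c1
      have a1 : ∀ w : M, C3 D k i i i w → D.x (k + 1) • D.t k • w =
          D.t k • D.x k • w + w := fun w hw => tx0_eq hw.c0 hw.c1
      have a2 : ∀ w : M, D.x (k + 2) • D.t k • w = D.t k • D.x (k + 2) • w := fun w =>
        tx_far (by omega) (by omega) w
      have b0 : ∀ w : M, D.x k • D.t (k + 1) • w = D.t (k + 1) • D.x k • w := fun w =>
        tx_far (by omega) (by omega) w
      have b1 : ∀ w : M, C3 D k i i i w → D.x (k + 1) • D.t (k + 1) • w =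
          D.t (k + 1) • D.x (k + 2) • w - w := fun w hw => tx1_eq hw.c1 hw.c2
      have b2 : ∀ w : M, C3 D k i i i w → D.x (k + 2) • D.t (k + 1) • w =
          D.t (k + 1) • D.x (k + 1) • w + w := fun w hw => tx0_eq hw.c1 hw.c2
      have c0 : ∀ w : M, C3 D k i i i w → D.t k • D.t k • w = 0 := fun w hw => tt_eq hw.c0 hw.c1
      have c1 : ∀ w : M, C3 D k i i i w → D.t (k + 1) • D.t (k + 1) • w = 0 := fun w hw =>
        tt_eq hw.c1 hw.c2
      have br : ∀ w : M, C3 D k i i i w → D.t (k + 1) • D.t k • D.t (k + 1) • w =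
          D.t k • D.t (k + 1) • D.t k • w := fun w hw =>
        braid_eq hw.c0 hw.c1 hw.c2 (Or.inl rfl)
      have hx : ∀ (w : M) (r : ℕ), C3 D k i i i w → C3 D k i i i (D.x r • w) := fun w r hw => hw.x r
      have ht0 : ∀ w : M, C3 D k i i i w → C3 D k i i i (D.t k • w) := fun w hw => hw.t0
      have ht1 : ∀ w : M, C3 D k i i i w → C3 D k i i i (D.t (k + 1) • w) := fun w hw => hw.t1
      have hp1 : ∀ w : M, C3 D k i i i w → C3 D k i i i (D.phi (k + 1) • w) := fun w hw => hw.p1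
      rw [f0 _ (hp1 _ (ht0 _ h)), f1 _ (ht0 _ h), f0 _ (hp1 _ h), f1 _ h]
      simp (maxDischargeDepth := 12) only [smul_add, smul_sub, a0, a1, a2, b0, b1, b2, c0, c1, br, hx, ht0, ht1, h, x10, x20,
        x21, smul_zero]
      abel
    · -- (i, j, j)
      rw [phi_ne h1.c1 h1.c2 hij, phi_eq' h1.t1.c0 h1.t1.c1, phi_eq' h.c1 h.c2, smul_add, smul_add,
        phi_ne (h.xs (k + 1) (k + 2)).t1.c0 (h.xs (k + 1) (k + 2)).t1.c1 hij,
        phi_ne h.c0 h.c1 hij]
      congr 1
      rw [t1x02 h1 hij, sub_smul, sub_smul, tx_far (k := k) (l := k + 2) (by omega) (by omega),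
        tx1_ne h.c0 h.c1 hij, ← smul_sub, ← sub_smul]
      have h2 := h.xs (k + 1) (k + 2)
      exact (braid_eq h2.c0 h2.c1 h2.c2 (Or.inr hij)).symm
  · by_cases hil : i = l
    · subst hil
      -- (i, j, i)
      have hij : i ≠ j := fun hh => hjl hh.symm
      rw [phi_eq' h1.c1 h1.c2, smul_add, phi_ne (h1.xs (k + 1) (k + 2)).t1.c0
        (h1.xs (k + 1) (k + 2)).t1.c1 (Ne.symm hij),
        phi_ne h1.c0 h1.c1 (Ne.symm hij), phi_ne h.c1 h.c2 (Ne.symm hij), phi_eq' h.t1.c0 h.t1.c1,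
        smul_add, t1x02 h (Ne.symm hij), t0x02 h hij]
      exact (key_iji h hij).symm
    · rw [phi_ne h1.c1 h1.c2 hil, phi_ne h1.t1.c0 h1.t1.c1 hjl, phi_ne h.c1 h.c2 hjl,
        phi_ne h.t1.c0 h.t1.c1 hil]
      exact (braid_eq h.c0 h.c1 h.c2 (Or.inr hil)).symm

end vec

end Pool.Agent.KLR
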