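import Pool.Agent.Work.MP_e487d8_al.Rmat.RG
import Pool.Agent.Work.MP_e487d8_al.Rmat.Mir

/-! MP_e487d8_al, RMAT block: the orders of both R-matrices, `𝔡(C, X) ≥ 0` and the equality for
commuting modules. -/

set_option autoImplicit false

namespace Pool.Agent.KLR

variable {K I : Type} [Field K] [Fintype I] [DecidableEq I] {D : Datum K I}

/-! ### the mirror of the affinisation -/

namespace Aff

variable {m : ℕ} {M : Type} [AddCommGroup M] [Module K M] [Module (KLRAlg D) M]
  [IsScalarTower K (KLRAlg D) M]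

/-- the identity map, as a map of vector spaces -/
noncomputable def mirK (D : Datum K I) (m : ℕ) (M : Type) [AddCommGroup M] [Module K M]
    [Module (KLRAlg D) M] : Aff D (Mir D m M) ≃ₗ[K] Mir D m (Aff D M) :=
  LinearEquiv.refl K (ℕ →₀ M)

theorem mirK_sg (d : ℕ) (u : M) :
    mirK D m M (sg D d (Tw.mk (D.mir m) u)) = Tw.mk (D.mir m) (sg D d u) := rfl

theorem dl_sg (k d : ℕ) (u : M) : D.dl k • sg D d u = sg D d (D.dl k • u) := by
  rw [Datum.dl, Finset.sum_smul, Finset.sum_smul, map_sum]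
  refine Finset.sum_congr rfl fun i _ => ?_
  rw [mul_smul, e_sg, e_sg, mul_smul]

theorem ts_sg (k d : ℕ) (u : M) : D.ts k • sg D d u = sg D d (D.ts k • u) := by
  rw [Datum.ts, Datum.sgn, mul_smul, sub_smul, one_smul, two_mul, add_smul, dl_sg, mul_smul,
    sub_smul, one_smul, add_smul, ← map_add, ← map_sub, t_sg]

theorem mirK_smul (a : KLRAlg D) (w : Aff D (Mir D m M)) :
    mirK D m M (a • w) = a • mirK D m M w := by
  induction a using KLRAlg.induction generalizing w with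
  | hs r => rw [algebraMap_smul, algebraMap_smul, map_smul]
  | he k i =>
    induction w using ind with
    | h0 => rw [smul_zero, map_zero, smul_zero]
    | ha v w hv hw => rw [smul_add, map_add, map_add, smul_add, hv, hw]
    | hs d u =>
      obtain ⟨u, rfl⟩ := (Tw.mk (D.mir m)).surjective u
      rw [e_sg, Tw.smul_mk, mirK_sg, mirK_sg, Tw.smul_mk, D.mir_e]
      split_ifs with h
      · rw [e_sg]
      · rw [zero_smul, zero_smul, map_zero]
  | hx k =>
    induction w using ind with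
    | h0 => rw [smul_zero, map_zero, smul_zero]
    | ha v w hv hw => rw [smul_add, map_add, map_add, smul_add, hv, hw]
    | hs d u =>
      obtain ⟨u, rfl⟩ := (Tw.mk (D.mir m)).surjective u
      rw [x_sg, Tw.smul_mk, Tw.smul_mk, map_add, mirK_sg, mirK_sg, mirK_sg, Tw.smul_mk, D.mir_x,
        D.mir_E]
      split_ifs with h
      · rw [x_sg, map_add]
      · simp only [zero_smul, map_zero, add_zero]
  | ht k =>
    induction w using ind with
    | h0 => rw [smul_zero, map_zero, smul_zero]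
    | ha v w hv hw => rw [smul_add, map_add, map_add, smul_add, hv, hw]
    | hs d u =>
      obtain ⟨u, rfl⟩ := (Tw.mk (D.mir m)).surjective u
      rw [t_sg, Tw.smul_mk, mirK_sg, mirK_sg, Tw.smul_mk, D.mir_t]
      split_ifs with h
      · rw [ts_sg]
      · rw [zero_smul, zero_smul, map_zero]
  | hadd a b ha hb => rw [add_smul, add_smul, map_add, ha, hb]
  | hmul a b ha hb => rw [mul_smul, mul_smul, ha, hb]

variable (D m M) in
/-- the mirror of the affinisation is the affinisation of the mirror -/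
noncomputable def mirE : Aff D (Mir D m M) ≃ₗ[KLRAlg D] Mir D m (Aff D M) where
  toFun := mirK D m M
  map_add' := map_add _
  map_smul' := mirK_smul
  invFun := (mirK D m M).symm
  left_inv := (mirK D m M).symm_apply_apply
  right_inv := (mirK D m M).apply_symm_apply

theorem mirE_Z (w : Aff D (Mir D m M)) :
    Tw.map (D.mir m) (Z D M) (mirE D m M w) = mirE D m M (Z D (Mir D m M) w) := rfl

theorem mirE_P (w : Aff D (Mir D m M)) :
    Tw.map (D.mir m) (P D M) (mirE D m M w) = P D (Mir D m M) w := rfl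

end Aff

section

variable {m n : ℕ} {W W' C N : Type}
  [AddCommGroup W] [Module K W] [Module (KLRAlg D) W] [IsScalarTower K (KLRAlg D) W]
  [AddCommGroup W'] [Module K W'] [Module (KLRAlg D) W'] [IsScalarTower K (KLRAlg D) W']
  [AddCommGroup C] [Module K C] [Module (KLRAlg D) C] [IsScalarTower K (KLRAlg D) C]
  [AddCommGroup N] [Module K N] [Module (KLRAlg D) N] [IsScalarTower K (KLRAlg D) N]
  {Z : W →ₗ[KLRAlg D] W} {p : W →ₗ[KLRAlg D] C}
  {Z' : W' →ₗ[KLRAlg D] W'} {p' : W' →ₗ[KLRAlg D] C}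

/-- isomorphic affinisations have the same leading terms -/
theorem Lead.congr_aff {hA : IsAff D m Z p} (hA' : IsAff D m Z' p') {hN : IsStrand D n N} {s : ℕ}
    {r : Conv D m C N →ₗ[KLRAlg D] Conv D n N C} (φ : W ≃ₗ[KLRAlg D] W')
    (hZ : ∀ w, Z' (φ w) = φ (Z w)) (hp : ∀ w, p' (φ w) = p w) (h : Lead hA hN s r) :
    Lead hA' hN s r := by
  obtain ⟨T, hT, hr⟩ := h
  have e1 : φ.toLinearMap ∘ₗ φ.symm.toLinearMap = LinearMap.id := by
    ext w
    exact φ.apply_symm_apply w
  have e2 : p' ∘ₗ φ.toLinearMap = p := by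
    ext w
    exact hp w
  have e3 : p ∘ₗ φ.symm.toLinearMap = p' := by
    rw [← e2, LinearMap.comp_assoc, e1, LinearMap.comp_id]
  have hc : (Conv.map (rfl : n = n) (LinearMap.id : N →ₗ[KLRAlg D] N) φ.toLinearMap) ∘ₗ
      (Conv.map (rfl : n = n) (LinearMap.id : N →ₗ[KLRAlg D] N) Z) =
      (Conv.map (rfl : n = n) (LinearMap.id : N →ₗ[KLRAlg D] N) Z') ∘ₗ
      (Conv.map (rfl : n = n) (LinearMap.id : N →ₗ[KLRAlg D] N) φ.toLinearMap) := by
    rw [Conv.map_comp, Conv.map_comp]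
    congr 1
    ext w
    exact (hZ w).symm
  refine ⟨(Conv.map (rfl : n = n) (LinearMap.id : N →ₗ[KLRAlg D] N) φ.toLinearMap) ∘ₗ T ∘ₗ
    (Conv.map (rfl : m = m) φ.symm.toLinearMap (LinearMap.id : N →ₗ[KLRAlg D] N)), ?_, ?_⟩
  · rw [← LinearMap.comp_assoc, ← Ld.comm_pow hc, LinearMap.comp_assoc, ← LinearMap.comp_assoc _ T,
      ← hT, ← LinearMap.comp_assoc, Conv.Rm_map hA.strand hN hA'.strand hN φ.toLinearMap
        LinearMap.id, LinearMap.comp_assoc, Conv.map_comp, e1, LinearMap.comp_id, Conv.map_id,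
      LinearMap.comp_id]
  · rw [← LinearMap.comp_assoc, Conv.map_comp, e2, LinearMap.id_comp, ← LinearMap.comp_assoc, hr,
      LinearMap.comp_assoc, Conv.map_comp, e3, LinearMap.comp_id]

/-- the sum of the orders of the two R-matrices -/
theorem Lead.add_le (hb : S_basis D) {hA : IsAff D m Z p} {hN : IsStrand D n N} {s s' : ℕ}
    {r : Conv D m C N →ₗ[KLRAlg D] Conv D n N C} {r' : Conv D n N C →ₗ[KLRAlg D] Conv D m C N}
    (h : Lead hA hN s r) (h' : Lead' hA hN s' r') {ν μ : List I}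
    {w : W} {v : N} (hw : EigW D Z ν w) (hpw : p w ≠ 0) (hν : ν.length = m) (hv : Eig D μ v)
    (hμ : μ.length = n) :
    s + s' ≤ D.qL ν μ ∧ (s + s' < D.qL ν μ → r' (r (Conv.mk D m C N (p w) v)) = 0) := by
  obtain ⟨T, hT, hr⟩ := h
  obtain ⟨T', hT', hr'⟩ := h'
  have hcm : (Conv.Rm hN hA.strand) ∘ₗ
      (Conv.map (rfl : n = n) (LinearMap.id : N →ₗ[KLRAlg D] N) Z) =
      (Conv.map (rfl : m = m) Z (LinearMap.id : N →ₗ[KLRAlg D] N)) ∘ₗ
        (Conv.Rm hN hA.strand) := (Conv.Rm_map hN hA.strand hN hA.strand LinearMap.id Z).symm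
  have h1 : Conv.Rm hN hA.strand (Conv.Rm hA.strand hN (Conv.mk D m W N w v)) =
      ((Conv.map (rfl : m = m) Z (LinearMap.id : N →ₗ[KLRAlg D] N)) ^ (s + s'))
        (T' (T (Conv.mk D m W N w v))) := by
    have h2 : Conv.Rm hA.strand hN (Conv.mk D m W N w v) =
        ((Conv.map (rfl : n = n) (LinearMap.id : N →ₗ[KLRAlg D] N) Z) ^ s)
          (T (Conv.mk D m W N w v)) := LinearMap.congr_fun hT _
    have h3 : Conv.Rm hN hA.strand (T (Conv.mk D m W N w v)) =
        ((Conv.map (rfl : m = m) Z (LinearMap.id : N →ₗ[KLRAlg D] N)) ^ s')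
          (T' (T (Conv.mk D m W N w v))) := LinearMap.congr_fun hT' _
    rw [h2, pow_add]
    refine Eq.trans (LinearMap.congr_fun (Ld.comm_pow hcm s) (T (Conv.mk D m W N w v))) ?_
    rw [LinearMap.comp_apply, h3]
    rfl
  obtain ⟨h2, h3⟩ := sq_order hb hA hN hw hpw hν hv hμ h1
  refine ⟨h2, fun hlt => ?_⟩
  have h4 := h3 hlt
  have h5 := LinearMap.congr_fun hr' (T (Conv.mk D m W N w v))
  have h6 := LinearMap.congr_fun hr (Conv.mk D m W N w v)
  rw [LinearMap.comp_apply, LinearMap.comp_apply, Conv.map_mk, LinearMap.id_apply] at h6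
  rw [LinearMap.comp_apply, LinearMap.comp_apply, h4, h6] at h5
  exact h5.symm

end

namespace SMod

/-- the orders of both R-matrices -/
theorem order_sum (hb : S_basis D) (C X : SMod D) {s s' : ℕ} (h : OrdEq C X.smp.strand s)
    (r₁ : Conv D C.n (Mir D C.n C.M) (Mir D X.n X.M) →ₗ[KLRAlg D]
      Conv D X.n (Mir D X.n X.M) (Mir D C.n C.M))
    (hr₁ : Lead (Aff.isAff (Mir.isStrand C.smp.strand)) (Mir.isStrand X.smp.strand) s' r₁)
    (h1 : r₁ ≠ 0) :
    s + s' ≤ SMod.dd C X ∧ (C.Comm X → s + s' = SMod.dd C X) := by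
  obtain ⟨r, hr, h0⟩ := h
  have hr₂ : Lead (Aff.isAff C.smp.strand).mir (Mir.isStrand X.smp.strand) s' r₁ :=
    Lead.congr_aff (Aff.isAff C.smp.strand).mir (Aff.mirE D C.n C.M) Aff.mirE_Z Aff.mirE_P hr₁
  obtain ⟨r', hr', hz⟩ := Mir.exists_lead' hr₂
  have h2 : r' ≠ 0 := by
    intro h3
    apply h1
    ext z
    have h4 := hz z
    rw [h3, LinearMap.zero_apply, map_zero, LinearEquiv.map_eq_zero_iff] at h4
    rw [h4, LinearMap.zero_apply]
  obtain ⟨ν, hν⟩ := C.exists_ch_ne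
  obtain ⟨μ, hμ⟩ := X.exists_ch_ne
  obtain ⟨u, hu⟩ := C.smp.exists_eig hν
  obtain ⟨v, hv⟩ := X.smp.exists_eig hμ
  have hlν := C.ch_length hν
  have hlμ := X.ch_length hμ
  have hp : Aff.P D C.M (Aff.sg D 0 u) = u := Aff.P_sg_zero u
  obtain ⟨h5, h6⟩ := hr.add_le hb hr' (hu.lift C.smp.strand hlν) (by rw [hp]; exact hu.ne) hlν hv
    hlμ
  rw [dd_eq C X hν hμ]
  refine ⟨h5, fun hc => ?_⟩
  by_contra hne
  have h7 := h6 (by omega)
  rw [hp] at h7
  have hbij := equiv_of_comm hb hc h0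
  have h8 : r' ∘ₗ r ≠ 0 := by
    intro h9
    apply h2
    ext z
    obtain ⟨y, rfl⟩ := hbij.2 z
    exact LinearMap.congr_fun h9 y
  have h9 : IsSimpleModule (KLRAlg D) (C.conv X) := hc
  have h10 : Function.Injective (r' ∘ₗ r) := by
    rcases LinearMap.injective_or_eq_zero (r' ∘ₗ r) with h11 | h11
    · exact h11
    · exact absurd h11 h8
  have h11 : Conv.mk D C.n C.M X.M u v = 0 := h10 (by rw [map_zero]; exact h7)
  rcases Conv.mk_eq_zero hb C.smp.strand X.smp.strand h11 with h12 | h12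
  · exact hu.ne h12
  · exact hv.ne h12

end SMod

end Pool.Agent.KLR
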